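import Mathlib

/-!
Periodisation of integrals over the line.
-/

namespace Pool.Agent.Larson

open MeasureTheory Set
open scoped ENNReal

lemma setLIntegral_Ico_shift (g : ℝ → ℝ≥0∞) (k : ℤ) :
    ∫⁻ x in Ico (k : ℝ) (k + 1), g x = ∫⁻ x in Ico (0 : ℝ) 1, g (x + k) := by
  have hpre : (fun x : ℝ => x + (k : ℝ)) ⁻¹' (Ico (k : ℝ) (k + 1)) = Ico (0 : ℝ) 1 := by
    ext x; simp [add_comm]
  have := (measurePreserving_add_right (volume : Measure ℝ) (k : ℝ)).setLIntegral_comp_preimage_emb
    (MeasurableEquiv.addRight (k : ℝ)).measurableEmbedding g (Ico (k : ℝ) (k + 1))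
  rw [hpre] at this
  exact this.symm

lemma lintegral_eq_tsum_shift (g : ℝ → ℝ≥0∞) :
    ∫⁻ x, g x = ∑' k : ℤ, ∫⁻ x in Ico (0 : ℝ) 1, g (x + k) := by
  rw [← setLIntegral_univ, ← iUnion_Ico_intCast (α := ℝ),
    lintegral_iUnion (fun k => measurableSet_Ico) (pairwise_disjoint_Ico_intCast ℝ)]
  exact tsum_congr fun k => setLIntegral_Ico_shift g k

lemma lintegral_periodize {g : ℝ → ℝ≥0∞} (hg : Measurable g) :
    ∫⁻ x, g x = ∫⁻ x in Ico (0 : ℝ) 1, ∑' k : ℤ, g (x + k) := by
  rw [lintegral_eq_tsum_shift, lintegral_tsum]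
  intro k
  exact (hg.comp (measurable_id.add_const _)).aemeasurable

/-- volume bound for translation-packing sets -/
lemma volume_le_one_of_pack {S : Set ℝ} (hS : MeasurableSet S)
    (h : ∀ x ∈ S, ∀ k : ℤ, x + (k : ℝ) ∈ S → k = 0) : volume S ≤ 1 := by
  classical
  have h1 : volume S = ∫⁻ x, S.indicator 1 x := (lintegral_indicator_one hS).symm
  rw [h1, lintegral_periodize (measurable_one.indicator hS)]
  calc ∫⁻ x in Ico (0 : ℝ) 1, ∑' k : ℤ, S.indicator 1 (x + k)
      ≤ ∫⁻ x in Ico (0 : ℝ) 1, 1 := by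
        refine lintegral_mono fun x => ?_
        by_cases hx : ∃ k : ℤ, x + (k : ℝ) ∈ S
        · obtain ⟨k, hk⟩ := hx
          rw [tsum_eq_single k]
          · simp [hk]
          · intro l hl
            rw [indicator_of_notMem]
            intro hl'
            apply hl
            have := h _ hk (l - k) (by
              push_cast
              rw [show x + (k : ℝ) + ((l : ℝ) - k) = x + l by ring]; exact hl')
            omega
        · push Not at hx
          simp [hx]
    _ = 1 := by simp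

lemma volume_preimage_mul {S : Set ℝ} (a : ℝ) (ha : 0 < a) :
    volume ((fun x : ℝ => a * x) ⁻¹' S) = ENNReal.ofReal a⁻¹ * volume S := by
  rw [Real.volume_preimage_mul_left ha.ne', abs_of_pos (inv_pos.2 ha)]

end Pool.Agent.Larson
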