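import Mathlib
import Pool.Agent.Larson.Per

/-!
Fourier series preliminaries: Parseval on an interval, and uniqueness of measures on the circle
tested on periodic sets of the line.
-/

namespace Pool.Agent.Larson

open MeasureTheory Set Filter
open scoped ENNReal ComplexConjugate

/-- the exponential `exp (2 pi i t x)` -/
noncomputable def ex (t x : ℝ) : ℂ := Complex.exp (2 * Real.pi * Complex.I * t * x)

lemma ex_eq (t x : ℝ) : ex t x = Complex.exp (((2 * Real.pi * t * x : ℝ) : ℂ) * Complex.I) := by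
  unfold ex; congr 1; push_cast; ring

@[simp] lemma norm_ex (t x : ℝ) : ‖ex t x‖ = 1 := by
  rw [ex_eq, Complex.norm_exp_ofReal_mul_I]

@[simp] lemma enorm_ex (t x : ℝ) : ‖ex t x‖ₑ = 1 := by
  rw [← ofReal_norm, norm_ex]; simp

lemma ex_add (s t x : ℝ) : ex (s + t) x = ex s x * ex t x := by
  unfold ex; rw [← Complex.exp_add]; congr 1; push_cast; ring

@[simp] lemma ex_zero (x : ℝ) : ex 0 x = 1 := by simp [ex]

lemma conj_ex (t x : ℝ) : conj (ex t x) = ex (-t) x := by
  rw [ex_eq, ex_eq, ← Complex.exp_conj]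
  congr 1
  rw [map_mul, Complex.conj_ofReal, Complex.conj_I]
  push_cast; ring

lemma continuous_ex (t : ℝ) : Continuous (ex t) := by
  unfold ex; fun_prop

lemma measurable_ex (t : ℝ) : Measurable (ex t) := (continuous_ex t).measurable

lemma ex_int_add (n k : ℤ) (x : ℝ) : ex n (x + k) = ex n x := by
  unfold ex
  rw [Complex.exp_eq_exp_iff_exists_int]
  refine ⟨n * k, ?_⟩
  push_cast; ring

/-- Parseval on an interval of length `L`. -/
lemma parseval_Ioc {a L : ℝ} (hL : 0 < L) {h : ℝ → ℂ}
    (hh : MemLp h 2 (volume.restrict (Ioc a (a + L)))) :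
    ∑' k : ℤ, ‖∫ x in Ioc a (a + L), h x * ex (k / L) x‖ₑ ^ 2 =
      ENNReal.ofReal L * ∫⁻ x in Ioc a (a + L), ‖h x‖ₑ ^ 2 := by
  have hab : a < a + L := by linarith
  have key := hasSum_sq_fourierCoeffOn hab hh
  rw [add_sub_cancel_left] at key
  have hcoef : ∀ n : ℤ, ‖fourierCoeffOn hab h (-n)‖ = L⁻¹ * ‖∫ x in Ioc a (a + L), h x * ex (n / L) x‖ := by
    intro n
    rw [fourierCoeffOn_eq_integral, intervalIntegral.integral_of_le hab.le, add_sub_cancel_left,
      norm_smul, one_div, norm_inv, Real.norm_of_nonneg hL.le]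
    congr 2
    refine integral_congr_ae (ae_of_all _ fun x => ?_)
    simp only [neg_neg, smul_eq_mul]
    rw [mul_comm, fourier_coe_apply]
    congr 1
    unfold ex
    congr 1
    push_cast
    ring
  have key2 : HasSum (fun n : ℤ => ‖fourierCoeffOn hab h (-n)‖ ^ 2)
      (L⁻¹ • ∫ x in a..a + L, ‖h x‖ ^ 2) := (Equiv.neg ℤ).hasSum_iff.2 key
  simp only [hcoef, mul_pow] at key2
  have key3 : HasSum (fun n : ℤ => ‖∫ x in Ioc a (a + L), h x * ex (n / L) x‖ ^ 2)
      (L * ∫ x in Ioc a (a + L), ‖h x‖ ^ 2) := by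
    have h5 := key2.mul_left (L ^ 2)
    have e1 : (fun n : ℤ => L ^ 2 * (L⁻¹ ^ 2 * ‖∫ x in Ioc a (a + L), h x * ex (n / L) x‖ ^ 2)) =
        fun n : ℤ => ‖∫ x in Ioc a (a + L), h x * ex (n / L) x‖ ^ 2 := by
      funext n
      rw [← mul_assoc, ← mul_pow, mul_inv_cancel₀ hL.ne', one_pow, one_mul]
    have e2 : L ^ 2 * (L⁻¹ • ∫ x in a..a + L, ‖h x‖ ^ 2) = L * ∫ x in Ioc a (a + L), ‖h x‖ ^ 2 := by
      rw [intervalIntegral.integral_of_le hab.le, smul_eq_mul, ← mul_assoc]
      congr 1
      field_simp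
    rw [e1, e2] at h5
    exact h5
  have hint : ENNReal.ofReal (∫ x in Ioc a (a + L), ‖h x‖ ^ 2) =
      ∫⁻ x in Ioc a (a + L), ‖h x‖ₑ ^ 2 := by
    rw [ofReal_integral_eq_lintegral_ofReal]
    · refine lintegral_congr fun x => ?_
      rw [ENNReal.ofReal_pow (norm_nonneg _), ofReal_norm]
    · exact (memLp_two_iff_integrable_sq_norm hh.1).1 hh
    · exact ae_of_all _ fun x => by positivity
  rw [← hint, ← ENNReal.ofReal_mul hL.le, ← key3.tsum_eq,
    ENNReal.ofReal_tsum_of_nonneg (fun n => by positivity) key3.summable]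
  refine tsum_congr fun n => ?_
  rw [ENNReal.ofReal_pow (norm_nonneg _), ofReal_norm]

/-- Uniqueness of finite measures on the line tested on integer-periodic sets. -/
lemma measure_periodic_eq {m1 m2 : Measure ℝ} [IsFiniteMeasure m1] [IsFiniteMeasure m2]
    (h : ∀ n : ℤ, ∫ x, ex n x ∂m1 = ∫ x, ex n x ∂m2) {s : Set ℝ} (hs : MeasurableSet s) :
    m1 {x | Int.fract x ∈ s} = m2 {x | Int.fract x ∈ s} := by
  have : Fact ((0 : ℝ) < 1) := ⟨one_pos⟩
  set q : ℝ → AddCircle (1 : ℝ) := fun x => (x : AddCircle (1 : ℝ)) with hq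
  have hqm : Measurable q := AddCircle.measurable_mk'
  have hfin1 : IsFiniteMeasure (Measure.map q m1) := Measure.isFiniteMeasure_map m1 q
  have hfin2 : IsFiniteMeasure (Measure.map q m2) := Measure.isFiniteMeasure_map m2 q
  have hcont : ∀ (m : Measure (AddCircle (1 : ℝ))) [IsFiniteMeasure m],
      Continuous (fun f : C(AddCircle (1 : ℝ), ℂ) => ∫ y, f y ∂m) := by
    intro m _
    have h1 : Continuous (fun f : C(AddCircle (1 : ℝ), ℂ) =>
        ∫ y, (ContinuousMap.toLp (E := ℂ) 1 m ℂ f) y ∂m) :=
      continuous_integral.comp (ContinuousMap.toLp (E := ℂ) 1 m ℂ).continuous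
    convert h1 using 2 with f
    exact integral_congr_ae (ContinuousMap.coeFn_toLp m f).symm
  have hmeq : Measure.map q m1 = Measure.map q m2 := by
    have hall : (fun f : C(AddCircle (1 : ℝ), ℂ) => ∫ y, f y ∂(Measure.map q m1)) =
        fun f : C(AddCircle (1 : ℝ), ℂ) => ∫ y, f y ∂(Measure.map q m2) := by
      have hdense : Dense ((Submodule.span ℂ (range (@fourier (1 : ℝ))) :
          Submodule ℂ C(AddCircle (1 : ℝ), ℂ)) : Set C(AddCircle (1 : ℝ), ℂ)) := by
        exact Submodule.dense_iff_topologicalClosure_eq_top.2 span_fourier_closure_eq_top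
      refine Continuous.ext_on hdense (hcont _) (hcont _) ?_
      intro f hf
      simp only
      induction hf using Submodule.span_induction with
      | mem f hf =>
        obtain ⟨n, rfl⟩ := hf
        have hfour : ∀ m : Measure ℝ, ∫ y, (fourier n : C(AddCircle (1 : ℝ), ℂ)) y ∂(Measure.map q m)
            = ∫ x, ex n x ∂m := by
          intro m
          rw [integral_map hqm.aemeasurable (fourier n).continuous.aestronglyMeasurable]
          refine integral_congr_ae (ae_of_all _ fun x => ?_)
          simp only [hq]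
          rw [fourier_coe_apply]
          unfold ex
          congr 1
          push_cast
          ring
        rw [hfour, hfour, h n]
      | zero => simp
      | add f g _ _ hf hg =>
        have hi : ∀ (m : Measure (AddCircle (1 : ℝ))) [IsFiniteMeasure m]
            (f : C(AddCircle (1 : ℝ), ℂ)), Integrable (fun y => f y) m := fun m _ f =>
          f.continuous.integrable_of_hasCompactSupport (HasCompactSupport.of_compactSpace _)
        simp only [ContinuousMap.add_apply]
        rw [integral_add (hi _ f) (hi _ g), integral_add (hi _ f) (hi _ g), hf, hg]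
      | smul c f _ hf =>
        simp only [ContinuousMap.smul_apply]
        rw [integral_smul, integral_smul, hf]
    refine ext_of_forall_integral_eq_of_IsFiniteMeasure fun f => ?_
    have h2 := congrFun hall ⟨fun y => ((f y : ℝ) : ℂ), by fun_prop⟩
    simp only [ContinuousMap.coe_mk] at h2
    rw [integral_complex_ofReal, integral_complex_ofReal] at h2
    exact_mod_cast h2
  set A : Set (AddCircle (1 : ℝ)) := {y | ((AddCircle.measurableEquivIco 1 0 y : Ico (0 : ℝ) (0 + 1)) : ℝ) ∈ s} with hA
  have hAm : MeasurableSet A :=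
    (measurable_subtype_coe.comp (AddCircle.measurableEquivIco 1 0).measurable) hs
  have hpre : q ⁻¹' A = {x | Int.fract x ∈ s} := by
    ext x
    simp only [hA, hq, mem_preimage, mem_ofPred_eq]
    have : ((AddCircle.measurableEquivIco 1 0 (x : AddCircle (1 : ℝ)) : Ico (0 : ℝ) (0 + 1)) : ℝ) =
        Int.fract x := by
      have h9 := AddCircle.coe_equivIco_mk_apply (1 : ℝ) x
      rw [div_one, mul_one] at h9
      exact h9
    rw [this]
  rw [← hpre, ← Measure.map_apply hqm hAm, ← Measure.map_apply hqm hAm, hmeq]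

end Pool.Agent.Larson
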