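import Mathlib
import Pool.Agent.Larson.Fourier

/-!
Consequences of vanishing or prescribed integer Fourier coefficients of integrable functions on
the line, tested on integer-periodic sets.
-/

namespace Pool.Agent.Larson

open MeasureTheory Set Filter
open scoped ENNReal ComplexConjugate

/-- the integer-periodic set generated by `s` -/
def perSet (s : Set ℝ) : Set ℝ := {x | Int.fract x ∈ s}

lemma measurableSet_perSet {s : Set ℝ} (hs : MeasurableSet s) : MeasurableSet (perSet s) :=
  measurable_fract hs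

lemma add_int_mem_perSet (s : Set ℝ) (x : ℝ) (k : ℤ) : x + (k : ℝ) ∈ perSet s ↔ x ∈ perSet s := by
  simp [perSet]

lemma mem_perSet_of_mem_Ico {s : Set ℝ} {x : ℝ} (hx : x ∈ Ico (0 : ℝ) 1) :
    x ∈ perSet s ↔ x ∈ s := by
  simp only [perSet, mem_ofPred_eq]
  rw [Int.fract_eq_self.2 hx]

lemma setLIntegral_perSet {g : ℝ → ℝ≥0∞} (hg : Measurable g) {s : Set ℝ} (hs : MeasurableSet s) :
    ∫⁻ x in perSet s, g x = ∫⁻ x in s, ∑' k : ℤ, g (x + k) ∂(volume.restrict (Ico (0 : ℝ) 1)) := by
  rw [← lintegral_indicator (measurableSet_perSet hs),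
    lintegral_periodize (hg.indicator (measurableSet_perSet hs)), ← lintegral_indicator hs]
  refine setLIntegral_congr_fun measurableSet_Ico fun x hx => ?_
  by_cases hxs : x ∈ s
  · rw [indicator_of_mem hxs]
    refine tsum_congr fun k => ?_
    rw [indicator_of_mem]
    rw [add_int_mem_perSet, mem_perSet_of_mem_Ico hx]
    exact hxs
  · rw [indicator_of_notMem hxs]
    simp only [ENNReal.tsum_eq_zero]
    intro k
    rw [indicator_of_notMem]
    rw [add_int_mem_perSet, mem_perSet_of_mem_Ico hx]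
    exact hxs

lemma ae_of_ae_Ico {P : ℝ → Prop} (hP : ∀ (x : ℝ) (k : ℤ), P (x + k) → P x)
    (h : ∀ᵐ x ∂(volume.restrict (Ico (0 : ℝ) 1)), P x) : ∀ᵐ x : ℝ, P x := by
  rw [ae_restrict_iff' measurableSet_Ico] at h
  have h2 : ∀ᵐ x : ℝ, ∀ k : ℤ, x + (k : ℝ) ∈ Ico (0 : ℝ) 1 → P (x + k) := by
    rw [ae_all_iff]
    intro k
    exact (measurePreserving_add_right (volume : Measure ℝ) (k : ℝ)).quasiMeasurePreserving.ae h
  filter_upwards [h2] with x hx
  refine hP x (-⌊x⌋) (hx _ ?_)
  push_cast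
  rw [← sub_eq_add_neg]
  exact ⟨Int.fract_nonneg x, Int.fract_lt_one x⟩

lemma integral_ex_Ico (n : ℤ) :
    ∫ x in Ico (0 : ℝ) 1, ex n x = if n = 0 then 1 else 0 := by
  rw [integral_Ico_eq_integral_Ioc, ← intervalIntegral.integral_of_le zero_le_one]
  by_cases hn : n = 0
  · simp [hn]
  · rw [if_neg hn]
    have hc : (2 * Real.pi * Complex.I * n : ℂ) ≠ 0 := by
      simp [Real.pi_ne_zero, Complex.I_ne_zero, hn]
    have : (fun x : ℝ => ex n x) = fun x : ℝ => Complex.exp ((2 * Real.pi * Complex.I * n : ℂ) * x) := by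
      funext x; unfold ex; push_cast; rfl
    rw [this, integral_exp_mul_complex hc]
    have h1 : Complex.exp (2 * Real.pi * Complex.I * n * ((1 : ℝ) : ℂ)) = 1 := by
      rw [Complex.exp_eq_one_iff]
      exact ⟨n, by push_cast; ring⟩
    rw [h1]
    simp

/-- row normalisation -/
lemma ae_tsum_eq_one {φ : ℝ → ℂ} (hφ : Measurable φ) (h2 : ∫⁻ x, ‖φ x‖ₑ ^ 2 ≠ ∞)
    (hO : ∀ n : ℤ, ∫ x, (φ x * conj (φ x)) * ex n x = if n = 0 then 1 else 0) :
    ∀ᵐ x : ℝ, ∑' k : ℤ, ‖φ (x + k)‖ₑ ^ 2 = 1 := by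
  have hfm : Measurable (fun x => ‖φ x‖ₑ ^ 2) := hφ.enorm.pow_const 2
  set m1 : Measure ℝ := volume.withDensity (fun x => ‖φ x‖ₑ ^ 2) with hm1
  have hfin1 : IsFiniteMeasure m1 := isFiniteMeasure_withDensity h2
  have hint : ∀ n : ℤ, ∫ x, ex n x ∂m1 = ∫ x, ex n x ∂(volume.restrict (Ico (0 : ℝ) 1)) := by
    intro n
    rw [integral_ex_Ico, ← hO n, hm1, integral_withDensity_eq_integral_toReal_smul hfm
      (ae_of_all _ fun x => by
        exact ENNReal.pow_lt_top enorm_lt_top)]
    refine integral_congr_ae (ae_of_all _ fun x => ?_)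
    simp only [ENNReal.toReal_pow, toReal_enorm]
    rw [Complex.mul_conj, Complex.normSq_eq_norm_sq, Complex.real_smul]
  have hset : ∀ s : Set ℝ, MeasurableSet s →
      ∫⁻ x in s, ∑' k : ℤ, ‖φ (x + k)‖ₑ ^ 2 ∂(volume.restrict (Ico (0 : ℝ) 1)) =
      ∫⁻ x in s, 1 ∂(volume.restrict (Ico (0 : ℝ) 1)) := by
    intro s hs
    have h := measure_periodic_eq hint hs
    have hmS : MeasurableSet {x : ℝ | Int.fract x ∈ s} := measurable_fract hs
    have h3 : m1 {x | Int.fract x ∈ s} = ∫⁻ x in perSet s, ‖φ x‖ₑ ^ 2 := by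
      rw [hm1, withDensity_apply _ hmS]; rfl
    rw [h3, setLIntegral_perSet hfm hs] at h
    rw [h, setLIntegral_one, Measure.restrict_apply hmS,
      Measure.restrict_apply hs]
    congr 1
    ext x
    simp only [mem_inter_iff, mem_ofPred_eq]
    constructor
    · rintro ⟨h1, h2⟩
      rw [Int.fract_eq_self.2 h2] at h1
      exact ⟨h1, h2⟩
    · rintro ⟨h1, h2⟩
      rw [Int.fract_eq_self.2 h2]
      exact ⟨h1, h2⟩
  refine ae_of_ae_Ico ?_ ?_
  · intro x l h
    rw [← h, ← (Equiv.addLeft l).tsum_eq (fun k : ℤ => ‖φ (x + k)‖ₑ ^ 2)]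
    refine tsum_congr fun k => ?_
    simp only [Equiv.coe_addLeft]
    push_cast
    rw [add_assoc]
  · have hm : Measurable (fun x : ℝ => ∑' k : ℤ, ‖φ (x + k)‖ₑ ^ 2) :=
      Measurable.tsum fun k => hfm.comp (measurable_id.add_const _)
    exact ae_eq_of_forall_setLIntegral_eq_of_sigmaFinite hm measurable_const
      (fun s hs _ => hset s hs)

lemma setIntegral_perSet_eq_zero_real {g : ℝ → ℝ} (hg : Integrable g)
    (h : ∀ n : ℤ, ∫ x, (g x : ℂ) * ex n x = 0) {s : Set ℝ} (hs : MeasurableSet s) :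
    ∫ x in perSet s, g x = 0 := by
  -- a measurable representative
  obtain ⟨g', hg'm, hgg'⟩ := hg.1
  have hg'm : Measurable g' := hg'm.measurable
  have hg' : Integrable g' := hg.congr hgg'
  have h' : ∀ n : ℤ, ∫ x, (g' x : ℂ) * ex n x = 0 := by
    intro n
    rw [← h n]
    refine integral_congr_ae ?_
    filter_upwards [hgg'] with x hx
    rw [hx]
  have hgoal : ∫ x in perSet s, g x = ∫ x in perSet s, g' x :=
    integral_congr_ae (ae_restrict_of_ae hgg')
  rw [hgoal]
  set m1 : Measure ℝ := volume.withDensity (fun x => ENNReal.ofReal (g' x)) with hm1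
  set m2 : Measure ℝ := volume.withDensity (fun x => ENNReal.ofReal (-g' x)) with hm2
  have hf1 : ∫⁻ x, ENNReal.ofReal (g' x) ≠ ∞ := by
    refine ((lintegral_mono fun x => ?_).trans_lt hg'.2).ne
    rw [← ofReal_norm]
    exact ENNReal.ofReal_le_ofReal (le_abs_self _)
  have hf2 : ∫⁻ x, ENNReal.ofReal (-g' x) ≠ ∞ := by
    refine ((lintegral_mono fun x => ?_).trans_lt hg'.2).ne
    rw [← ofReal_norm]
    exact ENNReal.ofReal_le_ofReal (neg_le_abs _)
  have hfin1 : IsFiniteMeasure m1 := isFiniteMeasure_withDensity hf1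
  have hfin2 : IsFiniteMeasure m2 := isFiniteMeasure_withDensity hf2
  have hp1 : Integrable (fun x => max (g' x) 0) := hg'.pos_part
  have hp2 : Integrable (fun x => max (-g' x) 0) := hg'.neg_part
  have hint : ∀ n : ℤ, ∫ x, ex n x ∂m1 = ∫ x, ex n x ∂m2 := by
    intro n
    rw [hm1, hm2, integral_withDensity_eq_integral_toReal_smul hg'm.ennreal_ofReal
      (ae_of_all _ fun x => ENNReal.ofReal_lt_top),
      integral_withDensity_eq_integral_toReal_smul (f := fun x => ENNReal.ofReal (-g' x))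
      hg'm.neg.ennreal_ofReal (ae_of_all _ fun x => ENNReal.ofReal_lt_top), ← sub_eq_zero]
    have hb : ∀ (u : ℝ → ℝ), Integrable u → Integrable (fun x => u x • ex n x) := by
      intro u hu
      refine (hu.smul_bdd 1 (measurable_ex n).aestronglyMeasurable (ae_of_all _ fun x => ?_))
      simp
    simp only [ENNReal.toReal_ofReal']
    rw [← integral_sub (hb _ hp1) (hb _ hp2), ← h' n]
    refine integral_congr_ae (ae_of_all _ fun x => ?_)
    simp only
    rw [← sub_smul, Complex.real_smul]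
    congr 2
    rcases le_total 0 (g' x) with hx | hx
    · rw [max_eq_left hx, max_eq_right (by linarith)]; ring
    · rw [max_eq_right hx, max_eq_left (by linarith)]; ring
  have hmeas := measure_periodic_eq hint hs
  have hmS : MeasurableSet {x : ℝ | Int.fract x ∈ s} := measurable_fract hs
  have e1 : m1 {x | Int.fract x ∈ s} = ∫⁻ x in perSet s, ENNReal.ofReal (g' x) := by
    rw [hm1, withDensity_apply _ hmS]; rfl
  have e2 : m2 {x | Int.fract x ∈ s} = ∫⁻ x in perSet s, ENNReal.ofReal (-g' x) := by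
    rw [hm2, withDensity_apply _ hmS]; rfl
  rw [e1, e2] at hmeas
  rw [integral_eq_lintegral_pos_part_sub_lintegral_neg_part hg'.integrableOn, hmeas, sub_self]

/-- An integrable function on the line whose integer Fourier coefficients all vanish integrates to
zero over every integer-periodic measurable set. -/
lemma setIntegral_perSet_eq_zero {G : ℝ → ℂ} (hG : Integrable G)
    (h : ∀ n : ℤ, ∫ x, G x * ex n x = 0) {s : Set ℝ} (hs : MeasurableSet s) :
    ∫ x in perSet s, G x = 0 := by
  have hb : ∀ (n : ℤ) (u : ℝ → ℂ), Integrable u → Integrable (fun x => u x * ex n x) := by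
    intro n u hu
    refine (hu.mul_bdd (c := 1) (measurable_ex n).aestronglyMeasurable (ae_of_all _ fun x => ?_))
    simp
  have hconjG : Integrable (fun x => conj (G x)) := by
    have := (Complex.conjCLE.toContinuousLinearMap).integrable_comp hG
    exact this
  have hconj : ∀ n : ℤ, ∫ x, conj (G x) * ex n x = 0 := by
    intro n
    have h1 := h (-n)
    have h2 : ∫ x, conj (G x * ex (-n : ℤ) x) = conj (∫ x, G x * ex (-n : ℤ) x) := integral_conj
    rw [h1, map_zero] at h2
    rw [← h2]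
    refine integral_congr_ae (ae_of_all _ fun x => ?_)
    simp only [map_mul, conj_ex]
    push_cast
    rw [neg_neg]
  have hre : ∀ n : ℤ, ∫ x, (((G x).re : ℝ) : ℂ) * ex n x = 0 := by
    intro n
    have : ∀ x, (((G x).re : ℝ) : ℂ) * ex n x = (1 / 2 : ℂ) * (G x * ex n x + conj (G x) * ex n x) := by
      intro x
      rw [Complex.re_eq_add_conj]; ring
    simp only [this]
    rw [integral_const_mul, integral_add (hb n _ hG) (hb n _ hconjG), h n, hconj n]
    simp
  have him : ∀ n : ℤ, ∫ x, (((G x).im : ℝ) : ℂ) * ex n x = 0 := by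
    intro n
    have : ∀ x, (((G x).im : ℝ) : ℂ) * ex n x =
        (1 / (2 * Complex.I) : ℂ) * (G x * ex n x - conj (G x) * ex n x) := by
      intro x
      rw [Complex.im_eq_sub_conj]; ring
    simp only [this]
    rw [integral_const_mul, integral_sub (hb n _ hG) (hb n _ hconjG), h n, hconj n]
    simp
  have r1 := setIntegral_perSet_eq_zero_real hG.re hre hs
  have r2 := setIntegral_perSet_eq_zero_real hG.im him hs
  have hGs : Integrable G (volume.restrict (perSet s)) := hG.integrableOn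
  rw [← integral_re_add_im hGs]
  have r1' : ∫ x in perSet s, RCLike.re (G x) = 0 := r1
  have r2' : ∫ x in perSet s, RCLike.im (G x) = 0 := r2
  rw [r1', r2']
  simp

end Pool.Agent.Larson
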