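import Mathlib
import Pool.Agent.Larson.Periodic

/-!
The dyadic wavelet system on the frequency side: Parseval identity and its rewriting in terms of
the coefficients `cf`.
-/

namespace Pool.Agent.Larson

open MeasureTheory Set Filter
open scoped ENNReal ComplexConjugate

/-- the frequency-side wavelet system -/
noncomputable def Fw (φ : ℝ → ℂ) (j k : ℤ) (ξ : ℝ) : ℂ :=
  ((Real.sqrt ((2:ℝ) ^ (-j)) : ℝ) : ℂ) *
    Complex.exp (-(2 * (Real.pi : ℂ) * Complex.I * (k : ℂ) * ((((2:ℝ) ^ (-j)) * ξ : ℝ) : ℂ))) *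
      φ (((2:ℝ) ^ (-j)) * ξ)

/-- `φ` is measurable, square integrable, and its frequency system is an orthonormal basis. -/
structure IsW (φ : ℝ → ℂ) : Prop where
  meas : Measurable φ
  memLp : MemLp φ 2 volume
  orth : ∀ j k j' k' : ℤ, ∫ ξ, Fw φ j k ξ * conj (Fw φ j' k' ξ) =
        if j = j' ∧ k = k' then (1:ℂ) else 0
  complete : ∀ g : ℝ → ℂ, MemLp g 2 volume →
        (∀ j k : ℤ, ∫ ξ, g ξ * conj (Fw φ j k ξ) = 0) → g =ᵐ[volume] 0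

lemma lintegral_scale {g : ℝ → ℝ≥0∞} (hg : Measurable g) {a : ℝ} (ha : 0 < a) :
    ∫⁻ x, g (a * x) = ENNReal.ofReal a⁻¹ * ∫⁻ x, g x := by
  have h := Real.map_volume_mul_left ha.ne'
  rw [← lintegral_map hg (measurable_const_mul a), h, abs_of_pos (inv_pos.2 ha),
    lintegral_smul_measure, smul_eq_mul]

lemma lintegral_enorm_sq_ne_top {g : ℝ → ℂ} {μ : Measure ℝ} (hg : MemLp g 2 μ) :
    ∫⁻ x, ‖g x‖ₑ ^ 2 ∂μ ≠ ∞ := by
  have h := eLpNorm_nnreal_pow_eq_lintegral (p := 2) (μ := μ) (f := g) two_ne_zero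
  have h2 : (eLpNorm g 2 μ) ^ (2 : ℝ) ≠ ∞ := by
    exact ENNReal.rpow_ne_top_of_nonneg (by norm_num) hg.2.ne
  have h3 : ((2 : NNReal) : ℝ≥0∞) = 2 := by norm_num
  rw [h3] at h
  simp only [NNReal.coe_ofNat] at h
  rw [h] at h2
  simpa using h2

lemma memLp_of_lintegral {g : ℝ → ℂ} {μ : Measure ℝ} (hgm : AEStronglyMeasurable g μ)
    (h : ∫⁻ x, ‖g x‖ₑ ^ 2 ∂μ ≠ ∞) : MemLp g 2 μ := by
  refine ⟨hgm, ?_⟩
  have h1 := eLpNorm_nnreal_pow_eq_lintegral (p := 2) (μ := μ) (f := g) two_ne_zero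
  have h3 : ((2 : NNReal) : ℝ≥0∞) = 2 := by norm_num
  rw [h3] at h1
  simp only [NNReal.coe_ofNat] at h1
  by_contra hcon
  push Not at hcon
  have : eLpNorm g 2 μ = ∞ := top_le_iff.1 hcon
  rw [this] at h1
  apply h
  have h4 : ∫⁻ x, ‖g x‖ₑ ^ 2 ∂μ = ∫⁻ x, ‖g x‖ₑ ^ (2 : ℝ) ∂μ := by
    refine lintegral_congr fun x => ?_
    simp
  rw [h4, ← h1]
  simp

lemma memLp_scale {φ : ℝ → ℂ} (hφ : Measurable φ) (h : MemLp φ 2 volume) {a : ℝ} (ha : 0 < a) :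
    MemLp (fun x => φ (a * x)) 2 volume := by
  refine memLp_of_lintegral (hφ.comp (measurable_const_mul a)).aestronglyMeasurable ?_
  rw [lintegral_scale (g := fun x => ‖φ x‖ₑ ^ 2) (hφ.enorm.pow_const 2) ha]
  exact ENNReal.mul_ne_top ENNReal.ofReal_ne_top (lintegral_enorm_sq_ne_top h)

lemma Fw_eq (φ : ℝ → ℂ) (j k : ℤ) (ξ : ℝ) :
    Fw φ j k ξ = ((Real.sqrt ((2:ℝ) ^ (-j)) : ℝ) : ℂ) * ex (-((2:ℝ) ^ (-j) * k)) ξ *
      φ (((2:ℝ) ^ (-j)) * ξ) := by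
  unfold Fw ex
  congr 3
  push_cast
  ring

lemma memLp_Fw {φ : ℝ → ℂ} (hφ : Measurable φ) (h : MemLp φ 2 volume) (j k : ℤ) :
    MemLp (Fw φ j k) 2 volume := by
  have h1 : MemLp (fun x => φ (((2:ℝ) ^ (-j)) * x)) 2 volume := memLp_scale hφ h (by positivity)
  have hm : Measurable (Fw φ j k) := by
    have : Fw φ j k = fun ξ => ((Real.sqrt ((2:ℝ) ^ (-j)) : ℝ) : ℂ) * ex (-((2:ℝ) ^ (-j) * k)) ξ *
      φ (((2:ℝ) ^ (-j)) * ξ) := funext fun ξ => Fw_eq φ j k ξ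
    rw [this]
    exact (measurable_const.mul (measurable_ex _)).mul (hφ.comp (measurable_const_mul _))
  refine MemLp.of_le_mul (c := Real.sqrt ((2:ℝ) ^ (-j))) h1 hm.aestronglyMeasurable
    (ae_of_all _ fun x => ?_)
  rw [Fw_eq, norm_mul, norm_mul, norm_ex, mul_one, Complex.norm_real,
    Real.norm_of_nonneg (Real.sqrt_nonneg _)]

/-- the basic coefficients -/
noncomputable def cf (φ g : ℝ → ℂ) (i : ℤ) (t : ℝ) : ℂ :=
  ∫ x, g x * conj (φ ((2:ℝ) ^ i * x)) * ex t x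

lemma inner_Fw (φ g : ℝ → ℂ) (j k : ℤ) :
    ∫ ξ, g ξ * conj (Fw φ j k ξ) =
      ((Real.sqrt ((2:ℝ) ^ (-j)) : ℝ) : ℂ) * cf φ g (-j) ((2:ℝ) ^ (-j) * k) := by
  unfold cf
  rw [← integral_const_mul]
  refine integral_congr_ae (ae_of_all _ fun x => ?_)
  simp only
  rw [Fw_eq, map_mul, map_mul, conj_ex, neg_neg, Complex.conj_ofReal]
  ring

lemma enorm_inner_Fw (φ g : ℝ → ℂ) (j k : ℤ) :
    ‖∫ ξ, g ξ * conj (Fw φ j k ξ)‖ₑ ^ 2 =
      ENNReal.ofReal ((2:ℝ) ^ (-j)) * ‖cf φ g (-j) ((2:ℝ) ^ (-j) * k)‖ₑ ^ 2 := by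
  rw [inner_Fw, enorm_mul, mul_pow]
  congr 1
  rw [← ofReal_norm, Complex.norm_real, Real.norm_of_nonneg (Real.sqrt_nonneg _),
    ← ENNReal.ofReal_pow (Real.sqrt_nonneg _), Real.sq_sqrt (by positivity)]

/-- Parseval identity for the wavelet system. -/
lemma parseval_Fw {φ : ℝ → ℂ} (hW : IsW φ) {g : ℝ → ℂ} (hg : MemLp g 2 volume) :
    ∑' p : ℤ × ℤ, ‖∫ ξ, g ξ * conj (Fw φ p.1 p.2 ξ)‖ₑ ^ 2 = ∫⁻ x, ‖g x‖ₑ ^ 2 := by
  classical
  set v : ℤ × ℤ → Lp ℂ 2 (volume : Measure ℝ) :=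
    fun p => (memLp_Fw hW.meas hW.memLp p.1 p.2).toLp with hv
  have hinner : ∀ (p : ℤ × ℤ) (f : Lp ℂ 2 (volume : Measure ℝ)),
      inner ℂ (v p) f = ∫ ξ, f ξ * conj (Fw φ p.1 p.2 ξ) := by
    intro p f
    rw [L2.inner_def]
    refine integral_congr_ae ?_
    filter_upwards [(memLp_Fw hW.meas hW.memLp p.1 p.2).coeFn_toLp] with x hx
    rw [RCLike.inner_apply', hx]
    ring
  have horth : Orthonormal ℂ v := by
    rw [orthonormal_iff_ite]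
    intro p q
    rw [hinner]
    have h1 : ∫ ξ, (v q) ξ * conj (Fw φ p.1 p.2 ξ) = ∫ ξ, Fw φ q.1 q.2 ξ * conj (Fw φ p.1 p.2 ξ) := by
      refine integral_congr_ae ?_
      filter_upwards [(memLp_Fw hW.meas hW.memLp q.1 q.2).coeFn_toLp] with x hx
      rw [hv]; simp only; rw [hx]
    rw [h1, hW.orth]
    by_cases hpq : p = q
    · subst hpq; simp
    · rw [if_neg hpq, if_neg]
      rintro ⟨h2, h3⟩
      exact hpq (Prod.ext h2.symm h3.symm)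
  have hcomp : (Submodule.span ℂ (Set.range v))ᗮ = ⊥ := by
    rw [eq_bot_iff]
    intro f hf
    rw [Submodule.mem_orthogonal] at hf
    rw [Submodule.mem_bot]
    have h1 : (f : ℝ → ℂ) =ᵐ[volume] 0 := by
      refine hW.complete f (Lp.memLp f) fun j k => ?_
      rw [← hinner (j, k) f]
      exact hf _ (Submodule.subset_span ⟨(j, k), rfl⟩)
    exact (Lp.eq_zero_iff_ae_eq_zero).2 h1
  set b := HilbertBasis.mkOfOrthogonalEqBot horth hcomp with hb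
  have hbv : ∀ p, b p = v p := fun p => by
    rw [hb, HilbertBasis.coe_mkOfOrthogonalEqBot]
  set G := hg.toLp with hG
  have H₁ : HasSum (fun p => ‖b.repr G p‖ ^ 2) (‖b.repr G‖ ^ 2) := by
    apply_mod_cast lp.hasSum_norm ?_ (b.repr G)
    simp
  have H₂ : ‖b.repr G‖ ^ 2 = ‖G‖ ^ 2 := by simp
  rw [H₂] at H₁
  have hcoef : ∀ p : ℤ × ℤ, b.repr G p = ∫ ξ, g ξ * conj (Fw φ p.1 p.2 ξ) := by
    intro p
    rw [b.repr_apply_apply, hbv, hinner]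
    refine integral_congr_ae ?_
    filter_upwards [hg.coeFn_toLp] with x hx
    rw [hx]
  have hnorm : ENNReal.ofReal (‖G‖ ^ 2) = ∫⁻ x, ‖g x‖ₑ ^ 2 := by
    have h := eLpNorm_nnreal_pow_eq_lintegral (p := 2) (μ := volume) (f := g) two_ne_zero
    have h3 : ((2 : NNReal) : ℝ≥0∞) = 2 := by norm_num
    rw [h3] at h
    simp only [NNReal.coe_ofNat] at h
    rw [hG, Lp.norm_toLp, ENNReal.ofReal_pow ENNReal.toReal_nonneg, ENNReal.ofReal_toReal hg.2.ne]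
    have h4 : ∫⁻ x, ‖g x‖ₑ ^ 2 = ∫⁻ x, ‖g x‖ₑ ^ (2 : ℝ) := by
      refine lintegral_congr fun x => ?_
      simp
    rw [h4, ← h]
    simp
  rw [← hnorm, ← H₁.tsum_eq, ENNReal.ofReal_tsum_of_nonneg (fun p => by positivity) H₁.summable]
  refine tsum_congr fun p => ?_
  rw [hcoef, ENNReal.ofReal_pow (norm_nonneg _), ofReal_norm]

/-- Parseval in terms of the coefficients, with modulation. -/
lemma parseval_cf {φ : ℝ → ℂ} (hW : IsW φ) {g : ℝ → ℂ} (hg : MemLp g 2 volume) (s : ℝ) :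
    ∑' i : ℤ, ∑' k : ℤ, ENNReal.ofReal ((2:ℝ) ^ i) * ‖cf φ g i ((2:ℝ) ^ i * k + s)‖ₑ ^ 2 =
      ∫⁻ x, ‖g x‖ₑ ^ 2 := by
  have hgs : MemLp (fun x => g x * ex s x) 2 volume := by
    refine MemLp.of_le hg (hg.1.mul (measurable_ex s).aestronglyMeasurable)
      (ae_of_all _ fun x => ?_)
    rw [norm_mul, norm_ex, mul_one]
  have hcf : ∀ (i : ℤ) (t : ℝ), cf φ (fun x => g x * ex s x) i t = cf φ g i (t + s) := by
    intro i t
    unfold cf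
    refine integral_congr_ae (ae_of_all _ fun x => ?_)
    simp only
    rw [ex_add]; ring
  have h := parseval_Fw hW hgs
  have h2 : ∫⁻ x, ‖g x * ex s x‖ₑ ^ 2 = ∫⁻ x, ‖g x‖ₑ ^ 2 := by
    refine lintegral_congr fun x => ?_
    rw [enorm_mul, enorm_ex, mul_one]
  rw [h2] at h
  rw [← h, ENNReal.tsum_prod (f := fun a b => ‖∫ ξ, g ξ * ex s ξ * conj (Fw φ a b ξ)‖ₑ ^ 2),
    ← (Equiv.neg ℤ).tsum_eq (fun i : ℤ => ∑' k : ℤ, ‖∫ ξ, g ξ * ex s ξ * conj (Fw φ i k ξ)‖ₑ ^ 2)]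
  refine tsum_congr fun i => tsum_congr fun k => ?_
  simp only [Equiv.neg_apply]
  have h5 := enorm_inner_Fw φ (fun x => g x * ex s x) (-i) k
  rw [h5, neg_neg, hcf]

end Pool.Agent.Larson
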