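import Mathlib
import Pool.Agent.Larson.System

/-!
Averaging of sums over arithmetic progressions, and the resulting decomposition of the Parseval
identity.
-/

namespace Pool.Agent.Larson

open MeasureTheory Set Filter
open scoped ENNReal ComplexConjugate

/-- sum of `a` over the progression `s + 2^i * k` -/
noncomputable def prog (a : ℤ → ℝ≥0∞) (i : ℕ) (s : ℤ) : ℝ≥0∞ := ∑' k : ℤ, a (2 ^ i * k + s)

lemma sum_prog (a : ℤ → ℝ≥0∞) (i : ℕ) :
    ∑ s ∈ Finset.range (2 ^ i), prog a i s = ∑' n : ℤ, a n := by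
  have : NeZero (2 ^ i) := ⟨by positivity⟩
  unfold prog
  rw [← Summable.tsum_finsetSum (fun s _ => ENNReal.summable),
    ← (Int.divModEquiv (2 ^ i)).symm.tsum_eq a,
    ENNReal.tsum_prod (f := fun (k : ℤ) (r : Fin (2 ^ i)) => a ((Int.divModEquiv (2 ^ i)).symm (k, r)))]
  refine tsum_congr fun k => ?_
  rw [tsum_fintype, Finset.sum_range]
  refine Finset.sum_congr rfl fun r _ => ?_
  congr 1
  simp [Int.divModEquiv]
  ring

lemma prog_add (a : ℤ → ℝ≥0∞) (i : ℕ) (s m : ℤ) : prog a i (2 ^ i * m + s) = prog a i s := by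
  unfold prog
  rw [← (Equiv.addRight m).tsum_eq (fun k : ℤ => a (2 ^ i * k + s))]
  refine tsum_congr fun k => ?_
  simp only [Equiv.coe_addRight]
  congr 1
  ring

lemma sum_prog_of_le (a : ℤ → ℝ≥0∞) {i J : ℕ} (h : i ≤ J) :
    ∑ s ∈ Finset.range (2 ^ J), prog a i s = 2 ^ (J - i) * ∑' n : ℤ, a n := by
  induction J, h using Nat.le_induction with
  | base => rw [sum_prog]; simp
  | succ J hJ ih =>
    have h1 : (2 : ℕ) ^ (J + 1) = 2 ^ J + 2 ^ J := by ring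
    rw [h1, Finset.sum_range_add]
    have h2 : ∀ s : ℕ, prog a i ((2 ^ J + s : ℕ) : ℤ) = prog a i s := by
      intro s
      have : ((2 ^ J + s : ℕ) : ℤ) = 2 ^ i * 2 ^ (J - i) + (s : ℤ) := by
        rw [← pow_add, Nat.add_sub_cancel' hJ]; push_cast; ring
      rw [this, prog_add]
    simp only [h2]
    rw [ih, Nat.succ_sub hJ, pow_succ]
    ring

lemma sum_prog_le (a : ℤ → ℝ≥0∞) {i J : ℕ} (h : J ≤ i) :
    ∑ s ∈ Finset.range (2 ^ J), prog a i s ≤ ∑' n : ℤ, a n := by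
  rw [← sum_prog a i]
  refine Finset.sum_le_sum_of_subset ?_
  intro s hs
  rw [Finset.mem_range] at *
  exact hs.trans_le (Nat.pow_le_pow_right (by norm_num) h)

/-- the squared coefficients at integer frequencies -/
noncomputable def sq (φ g : ℝ → ℂ) (i : ℕ) (n : ℤ) : ℝ≥0∞ := ‖cf φ g (i : ℤ) (n : ℝ)‖ₑ ^ 2

/-- the nonpositive scales -/
noncomputable def low (φ g : ℝ → ℂ) (s : ℝ) : ℝ≥0∞ :=
  ∑' m : ℕ, ∑' k : ℤ, ENNReal.ofReal ((2:ℝ) ^ (-(m : ℤ))) *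
    ‖cf φ g (-(m : ℤ)) ((2:ℝ) ^ (-(m : ℤ)) * k + s)‖ₑ ^ 2

lemma parseval_split {φ : ℝ → ℂ} (hW : IsW φ) {g : ℝ → ℂ} (hg : MemLp g 2 volume) (s : ℤ) :
    low φ g s + ∑' i : ℕ, 2 ^ (i + 1) * prog (sq φ g (i + 1)) (i + 1) s = ∫⁻ x, ‖g x‖ₑ ^ 2 := by
  rw [← parseval_cf hW hg (s : ℝ), ← (Equiv.neg ℤ).tsum_eq (fun i : ℤ => ∑' k : ℤ,
    ENNReal.ofReal ((2:ℝ) ^ i) * ‖cf φ g i ((2:ℝ) ^ i * k + (s : ℝ))‖ₑ ^ 2),
    tsum_of_nat_of_neg_add_one ENNReal.summable ENNReal.summable]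
  congr 1
  refine tsum_congr fun i => ?_
  simp only [Equiv.neg_apply, neg_neg]
  rw [ENNReal.tsum_mul_left]
  have h2 : ENNReal.ofReal ((2:ℝ) ^ ((i : ℤ) + 1)) = 2 ^ (i + 1) := by
    have : (2:ℝ) ^ ((i : ℤ) + 1) = (2:ℝ) ^ (i + 1) := by
      rw [← zpow_natCast]; push_cast; rfl
    rw [this, ENNReal.ofReal_pow (by norm_num)]
    norm_num
  rw [h2]
  congr 1
  unfold prog sq
  refine tsum_congr fun k => ?_
  congr 3
  push_cast
  congr 1

/-- the (unnormalised) error term -/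
noncomputable def err (φ g : ℝ → ℂ) (J : ℕ) : ℝ≥0∞ :=
  ∑ s ∈ Finset.range (2 ^ J), ∑' i : ℕ,
    if i < J then 0 else 2 ^ (i + 1) * prog (sq φ g (i + 1)) (i + 1) (s : ℤ)

lemma avg_identity {φ : ℝ → ℂ} (hW : IsW φ) {g : ℝ → ℂ} (hg : MemLp g 2 volume) (J : ℕ) :
    ∑ s ∈ Finset.range (2 ^ J), low φ g ((s : ℤ) : ℝ) +
      2 ^ J * ∑ i ∈ Finset.range J, ∑' n : ℤ, sq φ g (i + 1) n + err φ g J =
      2 ^ J * ∫⁻ x, ‖g x‖ₑ ^ 2 := by
  have h1 : 2 ^ J * ∫⁻ x, ‖g x‖ₑ ^ 2 = ∑ s ∈ Finset.range (2 ^ J),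
      (low φ g ((s : ℤ) : ℝ) + ∑' i : ℕ, 2 ^ (i + 1) * prog (sq φ g (i + 1)) (i + 1) (s : ℤ)) := by
    simp only [parseval_split hW hg]
    simp
  rw [h1, Finset.sum_add_distrib, add_assoc]
  congr 1
  have h2 : ∀ s : ℕ, ∑' i : ℕ, 2 ^ (i + 1) * prog (sq φ g (i + 1)) (i + 1) (s : ℤ) =
      ∑ i ∈ Finset.range J, 2 ^ (i + 1) * prog (sq φ g (i + 1)) (i + 1) (s : ℤ) +
      ∑' i : ℕ, if i < J then 0 else 2 ^ (i + 1) * prog (sq φ g (i + 1)) (i + 1) (s : ℤ) := by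
    intro s
    have h3 : ∀ i : ℕ, 2 ^ (i + 1) * prog (sq φ g (i + 1)) (i + 1) (s : ℤ) =
        (if i ∈ Finset.range J then 2 ^ (i + 1) * prog (sq φ g (i + 1)) (i + 1) (s : ℤ) else 0) +
        (if i < J then 0 else 2 ^ (i + 1) * prog (sq φ g (i + 1)) (i + 1) (s : ℤ)) := by
      intro i
      by_cases hi : i < J
      · simp [hi]
      · simp [hi]
    rw [tsum_congr h3, ENNReal.tsum_add]
    congr 1
    rw [tsum_eq_sum (s := Finset.range J)]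
    · refine Finset.sum_congr rfl fun i hi => ?_
      rw [if_pos hi]
    · intro i hi
      rw [if_neg hi]
  simp only [h2]
  rw [Finset.sum_add_distrib]
  unfold err
  congr 1
  rw [Finset.sum_comm, Finset.mul_sum]
  refine Finset.sum_congr rfl fun i hi => ?_
  rw [← Finset.mul_sum, sum_prog_of_le _ (by have := Finset.mem_range.1 hi; omega), ← mul_assoc,
    ← pow_add]
  congr 2
  have := Finset.mem_range.1 hi
  omega

lemma err_le {φ : ℝ → ℂ} (hW : IsW φ) {g : ℝ → ℂ} (hg : MemLp g 2 volume) (J : ℕ) :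
    err φ g J ≤ 2 ^ J * ∫⁻ x, ‖g x‖ₑ ^ 2 := by
  rw [← avg_identity hW hg J]
  exact le_add_self

lemma err_le' (φ g : ℝ → ℂ) (J : ℕ) :
    err φ g J ≤ ∑' i : ℕ, 2 ^ (i + 1) * ∑' n : ℤ, sq φ g (i + 1) n := by
  unfold err
  rw [← Summable.tsum_finsetSum (fun s _ => ENNReal.summable)]
  refine ENNReal.tsum_le_tsum fun i => ?_
  by_cases hi : i < J
  · simp [hi]
  · simp only [if_neg hi]
    rw [← Finset.mul_sum]
    gcongr
    exact sum_prog_le _ (by omega)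

end Pool.Agent.Larson
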