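import Mathlib
import Pool.Agent.Larson.Avg

/-!
The error term of the averaged Parseval identity vanishes in the limit; the Calderon identity.
-/

namespace Pool.Agent.Larson

open MeasureTheory Set Filter Topology
open scoped ENNReal ComplexConjugate

lemma integrable_cf {φ : ℝ → ℂ} (hφ : Measurable φ) (h2 : MemLp φ 2 volume) {g : ℝ → ℂ}
    (hg : MemLp g 2 volume) (i : ℤ) (t : ℝ) :
    Integrable (fun x => g x * conj (φ ((2:ℝ) ^ i * x)) * ex t x) := by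
  have h1 : MemLp (fun x => conj (φ ((2:ℝ) ^ i * x))) 2 volume := by
    have h3 := memLp_scale hφ h2 (a := (2:ℝ) ^ i) (by positivity)
    refine MemLp.of_le h3 ?_ (ae_of_all _ fun x => ?_)
    · exact (Complex.continuous_conj.measurable.comp (hφ.comp (measurable_const_mul _))).aestronglyMeasurable
    · exact (RCLike.norm_conj _).le
  have h4 : Integrable (fun x => g x * conj (φ ((2:ℝ) ^ i * x))) := hg.integrable_mul h1
  refine (h4.mul_bdd (c := 1) (measurable_ex t).aestronglyMeasurable (ae_of_all _ fun x => ?_))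
  simp

lemma cf_add {φ : ℝ → ℂ} (hφ : Measurable φ) (h2 : MemLp φ 2 volume) {g h : ℝ → ℂ}
    (hg : MemLp g 2 volume) (hh : MemLp h 2 volume) (i : ℤ) (t : ℝ) :
    cf φ (fun x => g x + h x) i t = cf φ g i t + cf φ h i t := by
  unfold cf
  rw [← integral_add (integrable_cf hφ h2 hg i t) (integrable_cf hφ h2 hh i t)]
  refine integral_congr_ae (ae_of_all _ fun x => ?_)
  simp only
  ring

lemma enorm_add_sq_le (a b : ℂ) : ‖a + b‖ₑ ^ 2 ≤ 2 * ‖a‖ₑ ^ 2 + 2 * ‖b‖ₑ ^ 2 := by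
  have h : ‖a + b‖ ^ 2 ≤ 2 * ‖a‖ ^ 2 + 2 * ‖b‖ ^ 2 := by
    have h1 := norm_add_le a b
    have h2 : ‖a + b‖ ^ 2 ≤ (‖a‖ + ‖b‖) ^ 2 := by gcongr
    nlinarith [sq_nonneg (‖a‖ - ‖b‖)]
  have h3 := ENNReal.ofReal_le_ofReal h
  rw [ENNReal.ofReal_add (by positivity) (by positivity), ENNReal.ofReal_mul (by norm_num),
    ENNReal.ofReal_mul (by norm_num), ENNReal.ofReal_pow (norm_nonneg _),
    ENNReal.ofReal_pow (norm_nonneg _), ENNReal.ofReal_pow (norm_nonneg _), ofReal_norm,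
    ofReal_norm, ofReal_norm] at h3
  simpa using h3

lemma sq_add_le {φ : ℝ → ℂ} (hφ : Measurable φ) (h2 : MemLp φ 2 volume) {g h : ℝ → ℂ}
    (hg : MemLp g 2 volume) (hh : MemLp h 2 volume) (i : ℕ) (n : ℤ) :
    sq φ (fun x => g x + h x) i n ≤ 2 * sq φ g i n + 2 * sq φ h i n := by
  unfold sq
  rw [cf_add hφ h2 hg hh]
  exact enorm_add_sq_le _ _

lemma err_add_le {φ : ℝ → ℂ} (hφ : Measurable φ) (h2 : MemLp φ 2 volume) {g h : ℝ → ℂ}
    (hg : MemLp g 2 volume) (hh : MemLp h 2 volume) (J : ℕ) :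
    err φ (fun x => g x + h x) J ≤ 2 * err φ g J + 2 * err φ h J := by
  unfold err
  rw [Finset.mul_sum, Finset.mul_sum, ← Finset.sum_add_distrib]
  refine Finset.sum_le_sum fun s _ => ?_
  rw [← ENNReal.tsum_mul_left, ← ENNReal.tsum_mul_left, ← ENNReal.tsum_add]
  refine ENNReal.tsum_le_tsum fun i => ?_
  by_cases hi : i < J
  · simp [hi]
  · simp only [if_neg hi]
    have hp : prog (sq φ (fun x => g x + h x) (i + 1)) (i + 1) s ≤
        2 * prog (sq φ g (i + 1)) (i + 1) s + 2 * prog (sq φ h (i + 1)) (i + 1) s := by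
      unfold prog
      rw [← ENNReal.tsum_mul_left, ← ENNReal.tsum_mul_left, ← ENNReal.tsum_add]
      exact ENNReal.tsum_le_tsum fun k => sq_add_le hφ h2 hg hh _ _
    calc 2 ^ (i + 1) * prog (sq φ (fun x => g x + h x) (i + 1)) (i + 1) s
        ≤ 2 ^ (i + 1) * (2 * prog (sq φ g (i + 1)) (i + 1) s +
          2 * prog (sq φ h (i + 1)) (i + 1) s) := by gcongr
      _ = _ := by ring

/-- the normalised error tends to zero -/
def ErrZero (φ g : ℝ → ℂ) : Prop := Tendsto (fun J : ℕ => err φ g J / 2 ^ J) atTop (𝓝 0)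

lemma ErrZero.add {φ : ℝ → ℂ} (hφ : Measurable φ) (h2 : MemLp φ 2 volume) {g h : ℝ → ℂ}
    (hg : MemLp g 2 volume) (hh : MemLp h 2 volume) (zg : ErrZero φ g) (zh : ErrZero φ h) :
    ErrZero φ (fun x => g x + h x) := by
  have h1 : Tendsto (fun J : ℕ => 2 * (err φ g J / 2 ^ J) + 2 * (err φ h J / 2 ^ J)) atTop (𝓝 0) := by
    have a := ENNReal.Tendsto.const_mul zg (a := 2) (Or.inr (by norm_num))
    have b := ENNReal.Tendsto.const_mul zh (a := 2) (Or.inr (by norm_num))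
    simpa using a.add b
  refine tendsto_of_tendsto_of_tendsto_of_le_of_le tendsto_const_nhds h1 (fun _ => zero_le)
    fun J => ?_
  simp only
  rw [← mul_div_assoc, ← mul_div_assoc, ← ENNReal.add_div]
  exact ENNReal.div_le_div_right (err_add_le hφ h2 hg hh J) _

lemma ErrZero.of_approx {φ : ℝ → ℂ} (hW : IsW φ) {g : ℝ → ℂ} (hg : MemLp g 2 volume)
    (h : ∀ ε : ℝ≥0∞, 0 < ε → ∃ f : ℝ → ℂ, MemLp f 2 volume ∧ ErrZero φ f ∧
      ∫⁻ x, ‖g x - f x‖ₑ ^ 2 ≤ ε) : ErrZero φ g := by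
  unfold ErrZero
  rw [ENNReal.tendsto_nhds_zero]
  intro ε hε
  obtain ⟨f, hf, zf, hgf⟩ := h (ε / 4) (ENNReal.div_pos hε.ne' (by norm_num))
  have hz := (ENNReal.tendsto_nhds_zero.1 zf) (ε / 4) (ENNReal.div_pos hε.ne' (by norm_num))
  filter_upwards [hz] with J hJ
  have h1 := err_add_le hW.meas hW.memLp hf (hg.sub hf) J
  have h2 := err_le hW (hg.sub hf) J
  have h3 : (fun x => f x + (g - f) x) = g := by funext x; simp
  rw [h3] at h1
  have h2J : (2 ^ J : ℝ≥0∞) ≠ 0 := by positivity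
  have h2J' : (2 ^ J : ℝ≥0∞) ≠ ∞ := ENNReal.pow_ne_top (by norm_num)
  have h4 : err φ (g - f) J / 2 ^ J ≤ ε / 4 := by
    rw [ENNReal.div_le_iff_le_mul (Or.inl h2J) (Or.inl h2J'), mul_comm]
    refine h2.trans ?_
    gcongr
    exact hgf
  calc err φ g J / 2 ^ J ≤ (2 * err φ f J + 2 * err φ (g - f) J) / 2 ^ J :=
        ENNReal.div_le_div_right h1 _
    _ = 2 * (err φ f J / 2 ^ J) + 2 * (err φ (g - f) J / 2 ^ J) := by
        rw [ENNReal.add_div, mul_div_assoc, mul_div_assoc]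
    _ ≤ 2 * (ε / 4) + 2 * (ε / 4) := by gcongr
    _ = ε := by
        rw [← add_mul]
        have : (2 + 2 : ℝ≥0∞) = 4 := by norm_num
        rw [this]
        exact ENNReal.mul_div_cancel (by norm_num) (by norm_num)

/-- Parseval on an interval for bounded functions supported there. -/
lemma loc_parseval {φ : ℝ → ℂ} (hφ : Measurable φ) (h2 : MemLp φ 2 volume) {g : ℝ → ℂ}
    (hgm : Measurable g) {C : ℝ} (hC : ∀ x, ‖g x‖ ≤ C) {a L : ℝ} (hL : 0 < L)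
    (hsupp : ∀ x, x ∉ Ioc a (a + L) → g x = 0) (i : ℤ) (s : ℝ) :
    ∑' k : ℤ, ‖cf φ g i (k / L + s)‖ₑ ^ 2 =
      ENNReal.ofReal L * ∫⁻ x, ‖g x‖ₑ ^ 2 * ‖φ ((2:ℝ) ^ i * x)‖ₑ ^ 2 := by
  have h3 := memLp_scale hφ h2 (a := (2:ℝ) ^ i) (by positivity)
  have hm : Measurable (fun x => g x * conj (φ ((2:ℝ) ^ i * x)) * ex s x) :=
    (hgm.mul (Complex.continuous_conj.measurable.comp (hφ.comp (measurable_const_mul _)))).mul
      (measurable_ex s)
  have h4 : MemLp (fun x => g x * conj (φ ((2:ℝ) ^ i * x)) * ex s x) 2 volume := by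
    refine MemLp.of_le_mul (c := C) h3 hm.aestronglyMeasurable (ae_of_all _ fun x => ?_)
    rw [norm_mul, norm_mul, norm_ex, mul_one, RCLike.norm_conj]
    gcongr
    exact hC x
  have key := parseval_Ioc (a := a) hL (h4.restrict (Ioc a (a + L)))
  have e1 : ∀ k : ℤ, ∫ x in Ioc a (a + L), g x * conj (φ ((2:ℝ) ^ i * x)) * ex s x * ex (k / L) x =
      cf φ g i (k / L + s) := by
    intro k
    unfold cf
    rw [setIntegral_eq_integral_of_forall_compl_eq_zero]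
    · refine integral_congr_ae (ae_of_all _ fun x => ?_)
      simp only
      rw [ex_add]; ring
    · intro x hx
      rw [hsupp x hx]; ring
  simp only [e1] at key
  rw [key]
  congr 1
  rw [← lintegral_indicator measurableSet_Ioc]
  refine lintegral_congr fun x => ?_
  by_cases hx : x ∈ Ioc a (a + L)
  · rw [indicator_of_mem hx, enorm_mul, enorm_mul, enorm_ex, mul_one, mul_pow]
    congr 2
    rw [← ofReal_norm, RCLike.norm_conj, ofReal_norm]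
  · rw [indicator_of_notMem hx, hsupp x hx]
    simp

/-- the pieces of the line -/
def piece (m σ : ℤ) : Set ℝ :=
  Ioc (m : ℝ) (m + 1) ∩ {x | (2:ℝ) ^ σ ≤ |x| ∧ |x| < (2:ℝ) ^ (σ + 1)}

lemma measurableSet_shell (σ : ℤ) : MeasurableSet {x : ℝ | (2:ℝ) ^ σ ≤ |x| ∧ |x| < (2:ℝ) ^ (σ + 1)} := by
  have habs : Measurable (fun x : ℝ => |x|) := continuous_abs.measurable
  exact (measurableSet_le measurable_const habs).inter (measurableSet_lt habs measurable_const)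

lemma measurableSet_piece (m σ : ℤ) : MeasurableSet (piece m σ) :=
  measurableSet_Ioc.inter (measurableSet_shell σ)

lemma errZero_piece {φ : ℝ → ℂ} (hφ : Measurable φ) (h2 : MemLp φ 2 volume) {g : ℝ → ℂ}
    (hgm : Measurable g) {C : ℝ} (hC : ∀ x, ‖g x‖ ≤ C) {m σ : ℤ}
    (hsupp : ∀ x, x ∉ piece m σ → g x = 0) : ErrZero φ g := by
  have hC0 : 0 ≤ C := (norm_nonneg _).trans (hC 0)
  have hA : ∀ i : ℕ, ∑' n : ℤ, sq φ g (i + 1) n =
      ∫⁻ x, ‖g x‖ₑ ^ 2 * ‖φ ((2:ℝ) ^ ((i + 1 : ℕ) : ℤ) * x)‖ₑ ^ 2 := by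
    intro i
    have := loc_parseval hφ h2 hgm hC (a := m) (L := 1) one_pos (fun x hx => hsupp x fun h => hx h.1)
      ((i + 1 : ℕ) : ℤ) 0
    simp only [div_one, add_zero, ENNReal.ofReal_one, one_mul] at this
    rw [← this]
    rfl
  have hsh : ∀ i : ℕ, 2 ^ (i + 1) * ∑' n : ℤ, sq φ g (i + 1) n ≤
      ENNReal.ofReal C ^ 2 * ∫⁻ y in {x : ℝ | (2:ℝ) ^ (σ + (i + 1 : ℕ)) ≤ |x| ∧ |x| < (2:ℝ) ^ (σ + (i + 1 : ℕ) + 1)},
        ‖φ y‖ₑ ^ 2 := by
    intro i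
    rw [hA]
    set T : Set ℝ := {x : ℝ | (2:ℝ) ^ (σ + (i + 1 : ℕ)) ≤ |x| ∧ |x| < (2:ℝ) ^ (σ + (i + 1 : ℕ) + 1)} with hT
    have hTm : MeasurableSet T := measurableSet_shell _
    have h5 : ∀ x, ‖g x‖ₑ ^ 2 * ‖φ ((2:ℝ) ^ ((i + 1 : ℕ) : ℤ) * x)‖ₑ ^ 2 ≤
        ENNReal.ofReal C ^ 2 * T.indicator (fun y => ‖φ y‖ₑ ^ 2) ((2:ℝ) ^ ((i + 1 : ℕ) : ℤ) * x) := by
      intro x
      by_cases hx : x ∈ piece m σ
      · have hxT : (2:ℝ) ^ ((i + 1 : ℕ) : ℤ) * x ∈ T := by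
          rw [hT]
          simp only [mem_ofPred_eq]
          have hp : (0:ℝ) < (2:ℝ) ^ ((i + 1 : ℕ) : ℤ) := by positivity
          rw [abs_mul, abs_of_pos hp, zpow_add₀ (by norm_num : (2:ℝ) ≠ 0),
            add_right_comm, zpow_add₀ (by norm_num : (2:ℝ) ≠ 0) (σ + 1)]
          constructor
          · rw [mul_comm]
            exact mul_le_mul_of_nonneg_left hx.2.1 hp.le
          · rw [mul_comm]
            exact mul_lt_mul_of_pos_right hx.2.2 hp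
        rw [indicator_of_mem hxT]
        gcongr
        rw [← ofReal_norm]
        exact ENNReal.ofReal_le_ofReal (hC x)
      · rw [hsupp x hx]
        simp
    calc 2 ^ (i + 1) * ∫⁻ x, ‖g x‖ₑ ^ 2 * ‖φ ((2:ℝ) ^ ((i + 1 : ℕ) : ℤ) * x)‖ₑ ^ 2
        ≤ 2 ^ (i + 1) * ∫⁻ x, ENNReal.ofReal C ^ 2 *
            T.indicator (fun y => ‖φ y‖ₑ ^ 2) ((2:ℝ) ^ ((i + 1 : ℕ) : ℤ) * x) :=
          mul_le_mul' le_rfl (lintegral_mono h5)
      _ = 2 ^ (i + 1) * (ENNReal.ofReal C ^ 2 * (ENNReal.ofReal ((2:ℝ) ^ ((i + 1 : ℕ) : ℤ))⁻¹ *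
            ∫⁻ y, T.indicator (fun y => ‖φ y‖ₑ ^ 2) y)) := by
          have hmT : Measurable (T.indicator (fun y => ‖φ y‖ₑ ^ 2)) :=
            (hφ.enorm.pow_const 2).indicator hTm
          have hmT2 : Measurable (fun x : ℝ => T.indicator (fun y => ‖φ y‖ₑ ^ 2)
              ((2:ℝ) ^ ((i + 1 : ℕ) : ℤ) * x)) := hmT.comp (measurable_const_mul _)
          rw [lintegral_const_mul _ hmT2, lintegral_scale hmT (by positivity)]
      _ = ENNReal.ofReal C ^ 2 * ∫⁻ y in T, ‖φ y‖ₑ ^ 2 := by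
          rw [lintegral_indicator hTm]
          have h6 : (2 : ℝ≥0∞) ^ (i + 1) * ENNReal.ofReal ((2:ℝ) ^ ((i + 1 : ℕ) : ℤ))⁻¹ = 1 := by
            have h7 : (2 : ℝ≥0∞) ^ (i + 1) = ENNReal.ofReal ((2:ℝ) ^ ((i + 1 : ℕ) : ℤ)) := by
              rw [zpow_natCast, ENNReal.ofReal_pow (by norm_num)]; norm_num
            rw [h7, ← ENNReal.ofReal_mul (by positivity), mul_inv_cancel₀ (by positivity)]
            simp
          calc (2 : ℝ≥0∞) ^ (i + 1) * (ENNReal.ofReal C ^ 2 * (ENNReal.ofReal ((2:ℝ) ^ ((i + 1 : ℕ) : ℤ))⁻¹ *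
              ∫⁻ y in T, ‖φ y‖ₑ ^ 2))
              = ((2 : ℝ≥0∞) ^ (i + 1) * ENNReal.ofReal ((2:ℝ) ^ ((i + 1 : ℕ) : ℤ))⁻¹) *
                (ENNReal.ofReal C ^ 2 * ∫⁻ y in T, ‖φ y‖ₑ ^ 2) := by ring
            _ = _ := by rw [h6, one_mul]
  have hdisj : Pairwise (Function.onFun Disjoint (fun i : ℕ =>
      {x : ℝ | (2:ℝ) ^ (σ + (i + 1 : ℕ)) ≤ |x| ∧ |x| < (2:ℝ) ^ (σ + (i + 1 : ℕ) + 1)})) := by
    have hlt : ∀ i j : ℕ, i < j → Disjoint
        {x : ℝ | (2:ℝ) ^ (σ + (i + 1 : ℕ)) ≤ |x| ∧ |x| < (2:ℝ) ^ (σ + (i + 1 : ℕ) + 1)}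
        {x : ℝ | (2:ℝ) ^ (σ + (j + 1 : ℕ)) ≤ |x| ∧ |x| < (2:ℝ) ^ (σ + (j + 1 : ℕ) + 1)} := by
      intro i j hij
      rw [Set.disjoint_left]
      rintro x ⟨_, hx⟩ ⟨hx', _⟩
      have : (2:ℝ) ^ (σ + (i + 1 : ℕ) + 1) ≤ (2:ℝ) ^ (σ + (j + 1 : ℕ)) :=
        zpow_le_zpow_right₀ (by norm_num) (by push_cast; omega)
      linarith
    intro i j hij
    rcases lt_or_gt_of_ne hij with h | h
    · exact hlt i j h
    · exact (hlt j i h).symm
  have hbound : ∑' i : ℕ, 2 ^ (i + 1) * ∑' n : ℤ, sq φ g (i + 1) n ≤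
      ENNReal.ofReal C ^ 2 * ∫⁻ y, ‖φ y‖ₑ ^ 2 := by
    refine (ENNReal.tsum_le_tsum hsh).trans ?_
    rw [ENNReal.tsum_mul_left]
    gcongr
    rw [← lintegral_iUnion (fun i => measurableSet_shell _) hdisj]
    exact setLIntegral_le_lintegral _ _
  have hfin : ENNReal.ofReal C ^ 2 * ∫⁻ y, ‖φ y‖ₑ ^ 2 ≠ ∞ :=
    ENNReal.mul_ne_top (ENNReal.pow_ne_top ENNReal.ofReal_ne_top) (lintegral_enorm_sq_ne_top h2)
  set K := ENNReal.ofReal C ^ 2 * ∫⁻ y, ‖φ y‖ₑ ^ 2 with hK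
  have hlim : Tendsto (fun J : ℕ => K / 2 ^ J) atTop (𝓝 0) := by
    have h8 : Tendsto (fun J : ℕ => ((2 : ℝ≥0∞)⁻¹) ^ J) atTop (𝓝 0) :=
      ENNReal.tendsto_pow_atTop_nhds_zero_of_lt_one (by simp)
    have h9 := ENNReal.Tendsto.const_mul h8 (a := K) (Or.inr hfin)
    rw [mul_zero] at h9
    refine h9.congr fun J => ?_
    rw [div_eq_mul_inv, ENNReal.inv_pow]
  refine tendsto_of_tendsto_of_tendsto_of_le_of_le tendsto_const_nhds hlim (fun _ => zero_le)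
    fun J => ?_
  exact ENNReal.div_le_div_right ((err_le' φ g J).trans hbound) _

end Pool.Agent.Larson
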