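import Mathlib
import Pool.Agent.Larson.Err

/-!
Density: the error term vanishes for every square integrable function; the Calderon identity.
-/

namespace Pool.Agent.Larson

open MeasureTheory Set Filter Topology
open scoped ENNReal ComplexConjugate

lemma exists_piece {x : ℝ} (hx : x ≠ 0) : ∃ p : ℤ × ℤ, x ∈ piece p.1 p.2 := by
  obtain ⟨σ, hσ⟩ := exists_mem_Ico_zpow (abs_pos.2 hx) (one_lt_two (α := ℝ))
  refine ⟨(⌈x⌉ - 1, σ), ⟨?_, ?_⟩, hσ⟩
  · have := Int.ceil_lt_add_one x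
    push_cast; linarith
  · have := Int.le_ceil x
    push_cast; linarith

lemma piece_unique {x : ℝ} {p q : ℤ × ℤ} (hp : x ∈ piece p.1 p.2) (hq : x ∈ piece q.1 q.2) :
    p = q := by
  refine Prod.ext ?_ ?_
  · have h1 := hp.1
    have h2 := hq.1
    have h3 : (p.1 : ℝ) < (q.1 : ℝ) + 1 := h1.1.trans_le h2.2
    have h4 : (q.1 : ℝ) < (p.1 : ℝ) + 1 := h2.1.trans_le h1.2
    have h5 : p.1 < q.1 + 1 := by exact_mod_cast h3
    have h6 : q.1 < p.1 + 1 := by exact_mod_cast h4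
    omega
  · have h1 := hp.2
    have h2 := hq.2
    have h3 : (2:ℝ) ^ p.2 < (2:ℝ) ^ (q.2 + 1) := h1.1.trans_lt h2.2
    have h4 : (2:ℝ) ^ q.2 < (2:ℝ) ^ (p.2 + 1) := h2.1.trans_lt h1.2
    have h5 := (zpow_lt_zpow_iff_right₀ (one_lt_two (α := ℝ))).1 h3
    have h6 := (zpow_lt_zpow_iff_right₀ (one_lt_two (α := ℝ))).1 h4
    omega

lemma errZero_zero (φ : ℝ → ℂ) : ErrZero φ (fun _ => 0) := by
  have : ∀ J, err φ (fun _ => 0) J = 0 := by
    intro J
    unfold err prog sq cf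
    simp
  unfold ErrZero
  simp [this]

/-- truncation to a piece and to bounded values -/
noncomputable def trunc (g : ℝ → ℂ) (n : ℕ) (p : ℤ × ℤ) : ℝ → ℂ :=
  (piece p.1 p.2 ∩ {x | ‖g x‖ ≤ n}).indicator g

lemma measurable_trunc {g : ℝ → ℂ} (hg : Measurable g) (n : ℕ) (p : ℤ × ℤ) :
    Measurable (trunc g n p) :=
  hg.indicator ((measurableSet_piece _ _).inter (measurableSet_le hg.norm measurable_const))

lemma errZero_trunc_sum {φ : ℝ → ℂ} (hφ : Measurable φ) (h2 : MemLp φ 2 volume) {g : ℝ → ℂ}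
    (hgm : Measurable g) (hg : MemLp g 2 volume) (n : ℕ) (F : Finset (ℤ × ℤ)) :
    MemLp (fun x => ∑ p ∈ F, trunc g n p x) 2 volume ∧
      ErrZero φ (fun x => ∑ p ∈ F, trunc g n p x) := by
  classical
  induction F using Finset.induction_on with
  | empty =>
    simp only [Finset.sum_empty]
    exact ⟨MemLp.zero, errZero_zero φ⟩
  | insert p F hp ih =>
    simp only [Finset.sum_insert hp]
    have h3 : MemLp (trunc g n p) 2 volume :=
      hg.indicator ((measurableSet_piece _ _).inter (measurableSet_le hgm.norm measurable_const))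
    have h4 : ErrZero φ (trunc g n p) := by
      refine errZero_piece hφ h2 (measurable_trunc hgm n p) (C := n) (fun x => ?_)
        (m := p.1) (σ := p.2) (fun x hx => ?_)
      · unfold trunc
        by_cases hx : x ∈ piece p.1 p.2 ∩ {x | ‖g x‖ ≤ n}
        · rw [indicator_of_mem hx]; exact hx.2
        · rw [indicator_of_notMem hx]; simp
      · unfold trunc
        rw [indicator_of_notMem]
        exact fun h => hx h.1
    exact ⟨h3.add ih.1, h4.add hφ h2 h3 ih.1 ih.2⟩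

theorem errZero_all {φ : ℝ → ℂ} (hW : IsW φ) {g : ℝ → ℂ}
    (hgm : Measurable g) (hg : MemLp g 2 volume) : ErrZero φ g := by
  classical
  set F : ℕ → Finset (ℤ × ℤ) := fun n => Finset.Icc (-(n:ℤ)) n ×ˢ Finset.Icc (-(n:ℤ)) n with hF
  set f : ℕ → ℝ → ℂ := fun n x => ∑ p ∈ F n, trunc g n p x with hf
  have hval : ∀ n x, (∃ p ∈ F n, x ∈ piece p.1 p.2) ∧ ‖g x‖ ≤ n → f n x = g x := by
    rintro n x ⟨⟨p, hp, hxp⟩, hgx⟩
    rw [hf]
    simp only
    rw [Finset.sum_eq_single p]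
    · unfold trunc
      rw [indicator_of_mem]
      exact ⟨hxp, hgx⟩
    · intro q _ hqp
      unfold trunc
      rw [indicator_of_notMem]
      exact fun h => hqp (piece_unique h.1 hxp)
    · intro h; exact absurd hp h
  have hval0 : ∀ n x, ¬ ((∃ p ∈ F n, x ∈ piece p.1 p.2) ∧ ‖g x‖ ≤ n) → f n x = 0 := by
    intro n x h
    rw [hf]
    simp only
    refine Finset.sum_eq_zero fun p hp => ?_
    unfold trunc
    rw [indicator_of_notMem]
    exact fun h' => h ⟨⟨p, hp, h'.1⟩, h'.2⟩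
  refine ErrZero.of_approx hW hg fun ε hε => ?_
  have hlim : Tendsto (fun n => ∫⁻ x, ‖g x - f n x‖ₑ ^ 2) atTop (𝓝 (∫⁻ _ : ℝ, 0)) := by
    refine tendsto_lintegral_of_dominated_convergence (fun x => ‖g x‖ₑ ^ 2) ?_ ?_
      (lintegral_enorm_sq_ne_top hg) ?_
    · intro n
      have : Measurable (f n) := Finset.measurable_sum _ fun p _ => measurable_trunc hgm n p
      exact ((hgm.sub this).enorm.pow_const 2)
    · intro n
      refine ae_of_all _ fun x => ?_
      by_cases h : (∃ p ∈ F n, x ∈ piece p.1 p.2) ∧ ‖g x‖ ≤ n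
      · simp only [hval n x h]; simp
      · simp only [hval0 n x h]; simp
    · have h0 : ∀ᵐ x : ℝ, x ≠ 0 := by
        simp [ae_iff]
      filter_upwards [h0] with x hx
      obtain ⟨p, hp⟩ := exists_piece hx
      refine tendsto_const_nhds.congr' ?_
      obtain ⟨N1, hN1⟩ := exists_nat_ge ‖g x‖
      filter_upwards [eventually_ge_atTop (max N1 (max p.1.natAbs p.2.natAbs))] with n hn
      rw [hval n x]
      · simp
      · refine ⟨⟨p, ?_, hp⟩, ?_⟩
        · rw [hF]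
          simp only [Finset.mem_product, Finset.mem_Icc]
          have h1 : p.1.natAbs ≤ n := (le_max_left _ _).trans ((le_max_right _ _).trans hn)
          have h2 : p.2.natAbs ≤ n := (le_max_right _ _).trans ((le_max_right _ _).trans hn)
          omega
        · have : N1 ≤ n := (le_max_left _ _).trans hn
          exact hN1.trans (by exact_mod_cast this)
  rw [lintegral_zero] at hlim
  obtain ⟨n, hn⟩ := ((ENNReal.tendsto_nhds_zero.1 hlim) ε hε).exists
  obtain ⟨h1, h2⟩ := errZero_trunc_sum hW.meas hW.memLp hgm hg n (F n)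
  exact ⟨f n, h1, h2, hn⟩

/-- general consequence of the averaged identity in the limit -/
lemma limit_identity {φ : ℝ → ℂ} (hW : IsW φ) {g : ℝ → ℂ} (hgm : Measurable g)
    (hg : MemLp g 2 volume) {c : ℝ≥0∞} (hc : ∀ s : ℤ, low φ g s = c) :
    c + ∑' i : ℕ, ∑' n : ℤ, sq φ g (i + 1) n = ∫⁻ x, ‖g x‖ₑ ^ 2 := by
  have hz := errZero_all hW hgm hg
  have hid : ∀ J : ℕ, c + ∑ i ∈ Finset.range J, ∑' n : ℤ, sq φ g (i + 1) n + err φ g J / 2 ^ J =
      ∫⁻ x, ‖g x‖ₑ ^ 2 := by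
    intro J
    have h := avg_identity hW hg J
    simp only [hc] at h
    simp only [Finset.sum_const, Finset.card_range, nsmul_eq_mul, Nat.cast_pow, Nat.cast_ofNat] at h
    have h2J : (2 ^ J : ℝ≥0∞) ≠ 0 := by positivity
    have h2J' : (2 ^ J : ℝ≥0∞) ≠ ∞ := ENNReal.pow_ne_top (by norm_num)
    have h3 : err φ g J = 2 ^ J * (err φ g J / 2 ^ J) := by
      rw [ENNReal.mul_div_cancel h2J h2J']
    rw [h3, ← mul_add, ← mul_add] at h
    exact (ENNReal.mul_right_inj h2J h2J').1 h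
  have hlim : Tendsto (fun J : ℕ => c + ∑ i ∈ Finset.range J, ∑' n : ℤ, sq φ g (i + 1) n +
      err φ g J / 2 ^ J) atTop (𝓝 (c + ∑' i : ℕ, ∑' n : ℤ, sq φ g (i + 1) n + 0)) :=
    ((ENNReal.tendsto_nat_tsum _).const_add c).add hz
  simp only [hid, add_zero] at hlim
  exact (tendsto_nhds_unique hlim tendsto_const_nhds)

lemma tsum_int_split (F : ℤ → ℝ≥0∞) :
    ∑' j : ℤ, F j = ∑' m : ℕ, F (-(m : ℤ)) + ∑' i : ℕ, F ((i + 1 : ℕ) : ℤ) := by
  rw [← (Equiv.neg ℤ).tsum_eq F, tsum_of_nat_of_neg_add_one ENNReal.summable ENNReal.summable]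
  congr 1

/-- The Calderon identity. -/
theorem calderon {φ : ℝ → ℂ} (hW : IsW φ) :
    ∀ᵐ x : ℝ, ∑' j : ℤ, ‖φ ((2:ℝ) ^ j * x)‖ₑ ^ 2 = 1 := by
  have hSm : Measurable (fun x : ℝ => ∑' j : ℤ, ‖φ ((2:ℝ) ^ j * x)‖ₑ ^ 2) :=
    Measurable.tsum fun j => (hW.meas.comp (measurable_const_mul _)).enorm.pow_const 2
  have hset : ∀ (m σ : ℤ) (E : Set ℝ), MeasurableSet E → E ⊆ piece m σ →
      ∫⁻ x in E, ∑' j : ℤ, ‖φ ((2:ℝ) ^ j * x)‖ₑ ^ 2 = volume E := by
    intro m σ E hE hEp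
    set g : ℝ → ℂ := E.indicator (fun _ => 1) with hg
    have hgm : Measurable g := measurable_const.indicator hE
    have hC : ∀ x, ‖g x‖ ≤ 1 := by
      intro x
      rw [hg]
      by_cases hx : x ∈ E
      · rw [indicator_of_mem hx]; simp
      · rw [indicator_of_notMem hx]; simp
    have hnorm : ∀ x, ‖g x‖ₑ ^ 2 = E.indicator (fun _ => (1 : ℝ≥0∞)) x := by
      intro x
      rw [hg]
      by_cases hx : x ∈ E
      · rw [indicator_of_mem hx, indicator_of_mem hx]; simp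
      · rw [indicator_of_notMem hx, indicator_of_notMem hx]; simp
    have hvol : ∫⁻ x, ‖g x‖ₑ ^ 2 = volume E := by
      simp only [hnorm]
      rw [lintegral_indicator hE, setLIntegral_one]
    have hfin : volume E ≠ ∞ := by
      refine ((measure_mono (hEp.trans inter_subset_left)).trans_lt ?_).ne
      rw [Real.volume_Ioc]
      exact ENNReal.ofReal_lt_top
    have hg2 : MemLp g 2 volume := memLp_of_lintegral hgm.aestronglyMeasurable (by rw [hvol]; exact hfin)
    have hsupp : ∀ x, x ∉ Ioc (m : ℝ) (m + 1) → g x = 0 := by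
      intro x hx
      rw [hg, indicator_of_notMem]
      exact fun h => hx (hEp h).1
    have hint : ∀ j : ℤ, ∫⁻ x, ‖g x‖ₑ ^ 2 * ‖φ ((2:ℝ) ^ j * x)‖ₑ ^ 2 =
        ∫⁻ x in E, ‖φ ((2:ℝ) ^ j * x)‖ₑ ^ 2 := by
      intro j
      rw [← lintegral_indicator hE]
      refine lintegral_congr fun x => ?_
      rw [hnorm]
      by_cases hx : x ∈ E
      · rw [indicator_of_mem hx, indicator_of_mem hx, one_mul]
      · rw [indicator_of_notMem hx, indicator_of_notMem hx, zero_mul]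
    have hlow : ∀ s : ℤ, low φ g s = ∑' n : ℕ, ∫⁻ x in E, ‖φ ((2:ℝ) ^ (-(n : ℤ)) * x)‖ₑ ^ 2 := by
      intro s
      unfold low
      refine tsum_congr fun n => ?_
      rw [ENNReal.tsum_mul_left]
      have hL : (0:ℝ) < (2:ℝ) ^ (n : ℤ) := by positivity
      have hL1 : (1:ℝ) ≤ (2:ℝ) ^ (n : ℤ) := by
        rw [zpow_natCast]; exact one_le_pow₀ (by norm_num)
      have h := loc_parseval hW.meas hW.memLp hgm hC (a := m) hL
        (fun x hx => hsupp x fun h => hx ⟨h.1, h.2.trans (by linarith)⟩) (-(n : ℤ)) s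
      have he : ∀ k : ℤ, (k : ℝ) / (2:ℝ) ^ (n : ℤ) + (s : ℝ) = (2:ℝ) ^ (-(n : ℤ)) * k + s := by
        intro k
        rw [zpow_neg]; field_simp
      simp only [he] at h
      rw [h, ← mul_assoc, ← ENNReal.ofReal_mul (by positivity), zpow_neg,
        inv_mul_cancel₀ hL.ne', ENNReal.ofReal_one, one_mul, ← zpow_neg, hint]
    have hsq : ∀ i : ℕ, ∑' n : ℤ, sq φ g (i + 1) n =
        ∫⁻ x in E, ‖φ ((2:ℝ) ^ ((i + 1 : ℕ) : ℤ) * x)‖ₑ ^ 2 := by
      intro i
      have := loc_parseval hW.meas hW.memLp hgm hC (a := m) (L := 1) one_pos hsupp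
        ((i + 1 : ℕ) : ℤ) 0
      simp only [div_one, add_zero, ENNReal.ofReal_one, one_mul] at this
      rw [← hint, ← this]
      rfl
    have hmain := limit_identity hW hgm hg2 hlow
    simp only [hsq] at hmain
    rw [hvol] at hmain
    have hmj : ∀ j : ℤ, Measurable (fun x : ℝ => ‖φ ((2:ℝ) ^ j * x)‖ₑ ^ 2) := fun j =>
      (hW.meas.comp (measurable_const_mul _)).enorm.pow_const 2
    rw [lintegral_tsum (fun j => (hmj j).aemeasurable), tsum_int_split]
    exact hmain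
  have hpiece : ∀ p : ℤ × ℤ, ∀ᵐ x : ℝ, x ∈ piece p.1 p.2 →
      ∑' j : ℤ, ‖φ ((2:ℝ) ^ j * x)‖ₑ ^ 2 = 1 := by
    intro p
    rw [← ae_restrict_iff' (measurableSet_piece _ _)]
    refine ae_eq_of_forall_setLIntegral_eq_of_sigmaFinite hSm measurable_const (fun s hs _ => ?_)
    rw [Measure.restrict_restrict hs, hset p.1 p.2 _ (hs.inter (measurableSet_piece _ _)) inter_subset_right]
    simp
  have h0 : ∀ᵐ x : ℝ, x ≠ 0 := by
    simp [ae_iff]
  filter_upwards [ae_all_iff.2 hpiece, h0] with x hx hx0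
  obtain ⟨p, hp⟩ := exists_piece hx0
  exact hx p hp

end Pool.Agent.Larson
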