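import Mathlib

/-!
A measurable Cantor-Schroeder-Bernstein argument for integer translations and dyadic dilations
of the line: a translation tile packing by dilations and a dilation tile packing by translations
combine to a simultaneous tile.
-/

namespace Pool.Agent.Larson

open MeasureTheory Set

/-- Saturation under integer translations. -/
def tsat (S : Set ℝ) : Set ℝ := {x | ∃ k : ℤ, x - (k : ℝ) ∈ S}

/-- Saturation under dyadic dilations. -/
def dsat (S : Set ℝ) : Set ℝ := {x | ∃ j : ℤ, (2 : ℝ) ^ j * x ∈ S}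

lemma measurableSet_tsat {S : Set ℝ} (hS : MeasurableSet S) : MeasurableSet (tsat S) := by
  have : tsat S = ⋃ k : ℤ, (fun x : ℝ => x - (k : ℝ)) ⁻¹' S := by
    ext x; simp [tsat]
  rw [this]
  exact MeasurableSet.iUnion fun k => (measurable_id.sub_const _) hS

lemma measurableSet_dsat {S : Set ℝ} (hS : MeasurableSet S) : MeasurableSet (dsat S) := by
  have : dsat S = ⋃ j : ℤ, (fun x : ℝ => (2 : ℝ) ^ j * x) ⁻¹' S := by
    ext x; simp [dsat]
  rw [this]
  exact MeasurableSet.iUnion fun j => (measurable_id.const_mul _) hS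

/-- The chain of translation invariant sets in the Cantor-Schroeder-Bernstein argument. -/
def chainA (W1 W2 : Set ℝ) : ℕ → Set ℝ
  | 0 => {x | ∀ k : ℤ, x - (k : ℝ) ∉ W2}
  | n + 1 => tsat (W2 ∩ dsat (W1 ∩ chainA W1 W2 n))

lemma measurableSet_chainA {W1 W2 : Set ℝ} (h1 : MeasurableSet W1) (h2 : MeasurableSet W2)
    (n : ℕ) : MeasurableSet (chainA W1 W2 n) := by
  induction n with
  | zero =>
    have : chainA W1 W2 0 = (tsat W2)ᶜ := by
      ext x; simp [chainA, tsat]
    rw [this]; exact (measurableSet_tsat h2).compl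
  | succ n ih => exact measurableSet_tsat (h2.inter (measurableSet_dsat (h1.inter ih)))

lemma chainA_sub {W1 W2 : Set ℝ} (n : ℕ) (x : ℝ) (k : ℤ) :
    x - (k : ℝ) ∈ chainA W1 W2 n ↔ x ∈ chainA W1 W2 n := by
  cases n with
  | zero =>
    simp only [chainA, mem_ofPred_eq]
    constructor
    · intro h l
      have := h (l - k)
      push_cast at this
      rwa [show x - (k : ℝ) - ((l : ℝ) - k) = x - l by ring] at this
    · intro h l
      have := h (l + k)
      push_cast at this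
      rwa [add_comm (l : ℝ), ← sub_sub] at this
  | succ n =>
    simp only [chainA, tsat, mem_ofPred_eq]
    constructor
    · rintro ⟨l, hl⟩
      refine ⟨k + l, ?_⟩
      push_cast
      rwa [← sub_sub]
    · rintro ⟨l, hl⟩
      refine ⟨l - k, ?_⟩
      push_cast
      rwa [show x - (k : ℝ) - ((l : ℝ) - k) = x - l by ring]

/-- **Cantor-Schroeder-Bernstein for wavelet sets.** -/
theorem csb {X W1 W2 : Set ℝ}
    (hXT : ∀ x ∈ X, ∀ k : ℤ, x - (k : ℝ) ∈ X) (hXD : ∀ x ∈ X, ∀ j : ℤ, (2 : ℝ) ^ j * x ∈ X)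
    (hm1 : MeasurableSet W1) (hm2 : MeasurableSet W2)
    (hT1 : ∀ x ∈ X, ∃! k : ℤ, x - (k : ℝ) ∈ W1)
    (hD1 : ∀ x ∈ W1, ∀ j : ℤ, (2 : ℝ) ^ j * x ∈ W1 → j = 0)
    (hT2 : ∀ x ∈ W2, ∀ k : ℤ, x - (k : ℝ) ∈ W2 → k = 0)
    (hD2 : ∀ x ∈ X, ∃! j : ℤ, (2 : ℝ) ^ (-j) * x ∈ W2) :
    ∃ W : Set ℝ, MeasurableSet W ∧ W ⊆ W1 ∪ W2 ∧
      (∀ x ∈ X, ∃! k : ℤ, x - (k : ℝ) ∈ W) ∧
      (∀ x ∈ X, ∃! j : ℤ, (2 : ℝ) ^ (-j) * x ∈ W) := by
  set A : Set ℝ := ⋃ n, chainA W1 W2 n with hA
  have hAm : MeasurableSet A := MeasurableSet.iUnion fun n => measurableSet_chainA hm1 hm2 n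
  have hAsub : ∀ (x : ℝ) (k : ℤ), x - (k : ℝ) ∈ A ↔ x ∈ A := by
    intro x k
    simp only [hA, mem_iUnion, chainA_sub]
  refine ⟨(W1 ∩ A) ∪ (W2 \ A), (hm1.inter hAm).union (hm2.diff hAm), ?_, ?_, ?_⟩
  · rintro x (hx | hx)
    · exact Or.inl hx.1
    · exact Or.inr hx.1
  · intro x hx
    by_cases hxA : x ∈ A
    · obtain ⟨k, hk, huniq⟩ := hT1 x hx
      refine ⟨k, Or.inl ⟨hk, (hAsub x k).2 hxA⟩, ?_⟩
      rintro l (hl | hl)
      · exact huniq l hl.1
      · exact absurd ((hAsub x l).2 hxA) hl.2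
    · have h0 : x ∉ chainA W1 W2 0 := fun h => hxA (mem_iUnion.2 ⟨0, h⟩)
      simp only [chainA, mem_ofPred_eq, not_forall, not_not] at h0
      obtain ⟨k, hk⟩ := h0
      refine ⟨k, Or.inr ⟨hk, fun h => hxA ((hAsub x k).1 h)⟩, ?_⟩
      rintro l (hl | hl)
      · exact absurd ((hAsub x l).1 hl.2) hxA
      · have := hT2 _ hk (l - k) (by
          push_cast
          rw [show x - (k : ℝ) - ((l : ℝ) - k) = x - l by ring]; exact hl.1)
        omega
  · intro x hx
    obtain ⟨j0, hj0, huniq⟩ := hD2 x hx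
    have hj0' : (2 : ℝ) ^ (-j0) * x ∈ W2 := hj0
    have hcomp : ∀ i j : ℤ, (2 : ℝ) ^ i * ((2 : ℝ) ^ j * x) = (2 : ℝ) ^ (i + j) * x := by
      intro i j
      rw [zpow_add₀ (by norm_num : (2 : ℝ) ≠ 0)]; ring
    set y := (2 : ℝ) ^ (-j0) * x with hy
    by_cases hyA : y ∈ A
    · obtain ⟨n, hn⟩ := mem_iUnion.1 hyA
      cases n with
      | zero =>
        exfalso
        have := hn 0
        simp at this
        exact this hj0'
      | succ n =>
        obtain ⟨k, hk2, hkd⟩ := hn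
        have hk0 : k = 0 := hT2 y hj0' k hk2
        subst hk0
        obtain ⟨j, hj⟩ := hkd
        simp only [Int.cast_zero, sub_zero] at hj
        rw [hy, hcomp] at hj
        refine ⟨j0 - j, Or.inl ⟨?_, mem_iUnion.2 ⟨n, ?_⟩⟩, ?_⟩
        · have := hj.1
          rwa [show j + -j0 = -(j0 - j) by ring] at this
        · have := hj.2
          rwa [show j + -j0 = -(j0 - j) by ring] at this
        · rintro i (hi | hi)
          · have h1 : (2 : ℝ) ^ (j + -j0) * x ∈ W1 := hj.1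
            have h2 := hD1 _ h1 (-i - (j + -j0)) (by
              rw [hcomp, show -i - (j + -j0) + (j + -j0) = -i by ring]; exact hi.1)
            omega
          · have hi0 := huniq i hi.1
            subst hi0
            exact absurd hyA hi.2
    · refine ⟨j0, Or.inr ⟨hj0', hyA⟩, ?_⟩
      rintro i (hi | hi)
      · exfalso
        obtain ⟨n, hn⟩ := mem_iUnion.1 hi.2
        apply hyA
        refine mem_iUnion.2 ⟨n + 1, 0, ?_⟩
        simp only [Int.cast_zero, sub_zero]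
        refine ⟨hj0', j0 - i, ?_⟩
        rw [hy, hcomp, show j0 - i + -j0 = -i by ring]
        exact ⟨hi.1, hn⟩
      · exact huniq i hi.1

end Pool.Agent.Larson
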