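import Mathlib

/-!
Measurable selection of a matching in a measurable field of countable, fractionally matched
bipartite graphs (used for the wavelet-set problem).
-/

namespace Pool.Agent.Larson

open MeasureTheory Set
open scoped ENNReal

/-- The discrete measurable structure on finite sets of naturals. -/
local instance instMSFinset : MeasurableSpace (Finset ℕ) := ⊤

local instance instDMSFinset : DiscreteMeasurableSpace (Finset ℕ) := ⟨fun _ => trivial⟩

/-- Hall condition for a family of finite sets indexed by `ℕ`. -/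
def HallCond (t : ℕ → Finset ℕ) : Prop := ∀ s : Finset ℕ, s.card ≤ (s.biUnion t).card

lemma hallCond_iff (t : ℕ → Finset ℕ) :
    HallCond t ↔ ∃ f : ℕ → ℕ, Function.Injective f ∧ ∀ x, f x ∈ t x :=
  Finset.all_card_le_biUnion_card_iff_exists_injective t

/-- The least admissible value at position `n`. -/
noncomputable def pick (t : ℕ → Finset ℕ) (n : ℕ) : ℕ :=
  sInf {b | b ∈ t n ∧ HallCond (Function.update t n {b})}

/-- Successively fix the first `n` values. -/
noncomputable def refineFam (t : ℕ → Finset ℕ) : ℕ → (ℕ → Finset ℕ)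
  | 0 => t
  | n + 1 => Function.update (refineFam t n) n {pick (refineFam t n) n}

lemma pick_spec {t : ℕ → Finset ℕ} (ht : HallCond t) (n : ℕ) :
    pick t n ∈ t n ∧ HallCond (Function.update t n {pick t n}) := by
  obtain ⟨f, hf, hft⟩ := (hallCond_iff t).1 ht
  have hne : {b | b ∈ t n ∧ HallCond (Function.update t n {b})}.Nonempty := by
    refine ⟨f n, hft n, ?_⟩
    rw [hallCond_iff]
    refine ⟨f, hf, fun x => ?_⟩
    by_cases hx : x = n
    · subst hx; simp
    · simp [Function.update_of_ne hx, hft x]
  exact Nat.sInf_mem hne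

lemma refineFam_hall {t : ℕ → Finset ℕ} (ht : HallCond t) (n : ℕ) :
    HallCond (refineFam t n) := by
  induction n with
  | zero => exact ht
  | succ n ih => exact (pick_spec ih n).2

lemma refineFam_of_le (t : ℕ → Finset ℕ) {n i : ℕ} (h : n ≤ i) :
    refineFam t n i = t i := by
  induction n with
  | zero => rfl
  | succ n ih =>
    have : i ≠ n := by omega
    simp only [refineFam]
    rw [Function.update_of_ne this, ih (by omega)]

lemma refineFam_of_lt (t : ℕ → Finset ℕ) {n i : ℕ} (h : i < n) :
    refineFam t n i = {pick (refineFam t i) i} := by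
  induction n with
  | zero => omega
  | succ n ih =>
    simp only [refineFam]
    by_cases hi : i = n
    · subst hi; simp
    · rw [Function.update_of_ne hi, ih (by omega)]

/-- The selected injection. -/
noncomputable def sel (t : ℕ → Finset ℕ) (n : ℕ) : ℕ := pick (refineFam t n) n

lemma sel_mem {t : ℕ → Finset ℕ} (ht : HallCond t) (n : ℕ) : sel t n ∈ t n := by
  have := (pick_spec (refineFam_hall ht n) n).1
  rwa [refineFam_of_le t le_rfl] at this

lemma sel_injective {t : ℕ → Finset ℕ} (ht : HallCond t) : Function.Injective (sel t) := by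
  have key : ∀ i j, i < j → sel t i ≠ sel t j := by
    intro i j hij
    obtain ⟨g, hg, hgt⟩ := (hallCond_iff _).1 (refineFam_hall ht (j + 1))
    have h1 : g i = sel t i := by
      have := hgt i
      rw [refineFam_of_lt t (by omega : i < j + 1)] at this
      simpa [sel] using this
    have h2 : g j = sel t j := by
      have := hgt j
      rw [refineFam_of_lt t (by omega : j < j + 1)] at this
      simpa [sel] using this
    rw [← h1, ← h2]
    intro h
    exact absurd (hg h) (by omega)
  intro i j h
  by_contra hne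
  rcases lt_or_gt_of_ne hne with h' | h'
  · exact key i j h' h
  · exact key j i h' h.symm

section Meas

variable {Z : Type*} [MeasurableSpace Z]

lemma measurable_biUnion {t : Z → ℕ → Finset ℕ} (ht : ∀ n, Measurable (fun z => t z n))
    (s : Finset ℕ) : Measurable (fun z => s.biUnion (t z)) := by
  classical
  induction s using Finset.induction_on with
  | empty => simp
  | insert a s ha ih =>
    have : (fun z => (insert a s).biUnion (t z)) = fun z => t z a ∪ s.biUnion (t z) := by
      funext z; simp
    rw [this]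
    exact (measurable_of_countable (fun p : Finset ℕ × Finset ℕ => p.1 ∪ p.2)).comp
      ((ht a).prodMk ih)

lemma measurableSet_hall {t : Z → ℕ → Finset ℕ} (ht : ∀ n, Measurable (fun z => t z n)) :
    MeasurableSet {z | HallCond (t z)} := by
  have : {z | HallCond (t z)} = ⋂ s : Finset ℕ, {z | s.card ≤ (s.biUnion (t z)).card} := by
    ext z; simp [HallCond]
  rw [this]
  refine MeasurableSet.iInter fun s => ?_
  exact (measurable_biUnion ht s) (MeasurableSet.of_discrete (s := {u : Finset ℕ | s.card ≤ u.card}))

lemma measurable_sInf_nat {p : Z → ℕ → Prop} (hp : ∀ n, MeasurableSet {z | p z n}) :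
    Measurable (fun z => sInf {n | p z n}) := by
  classical
  refine measurable_to_countable' fun m => ?_
  have : (fun z => sInf {n | p z n}) ⁻¹' {m} =
      ({z | p z m} ∩ ⋂ k ∈ Finset.range m, {z | p z k}ᶜ) ∪
        (if m = 0 then ⋂ k, {z | p z k}ᶜ else ∅) := by
    ext z
    simp only [mem_preimage, mem_singleton_iff, mem_union, mem_inter_iff, mem_ofPred_eq,
      mem_iInter, mem_compl_iff, Finset.mem_range]
    constructor
    · intro h
      by_cases hne : {n | p z n}.Nonempty
      · left
        have h1 := Nat.sInf_mem hne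
        rw [h] at h1
        refine ⟨h1, fun k hk hpk => ?_⟩
        have := Nat.sInf_le (s := {n | p z n}) hpk
        omega
      · right
        rw [not_nonempty_iff_eq_empty] at hne
        have h0 : m = 0 := by rw [← h, hne]; simp
        rw [if_pos h0]
        simp only [mem_iInter, mem_compl_iff, mem_ofPred_eq]
        intro k hk
        have : k ∈ ({n | p z n} : Set ℕ) := hk
        rw [hne] at this
        exact this
    · rintro (⟨h1, h2⟩ | h)
      · have hle := Nat.sInf_le (s := {n | p z n}) h1
        have hmem := Nat.sInf_mem (s := {n | p z n}) ⟨m, h1⟩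
        by_contra hne
        exact h2 _ (lt_of_le_of_ne hle hne) hmem
      · by_cases h0 : m = 0
        · rw [if_pos h0] at h
          simp only [mem_iInter, mem_compl_iff, mem_ofPred_eq] at h
          have : {n | p z n} = ∅ := by
            ext k; simp [h k]
          rw [this, h0]; simp
        · rw [if_neg h0] at h
          exact absurd h (notMem_empty z)
  rw [this]
  refine MeasurableSet.union ?_ ?_
  · refine (hp m).inter ?_
    exact Finset.measurableSet_biInter _ fun k _ => (hp k).compl
  · split_ifs
    · exact MeasurableSet.iInter fun k => (hp k).compl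
    · exact MeasurableSet.empty

lemma measurable_pick {t : Z → ℕ → Finset ℕ} (ht : ∀ n, Measurable (fun z => t z n)) (n : ℕ) :
    Measurable (fun z => pick (t z) n) := by
  unfold pick
  refine measurable_sInf_nat fun b => ?_
  have h1 : MeasurableSet {z | b ∈ t z n} :=
    (ht n) (MeasurableSet.of_discrete (s := {u : Finset ℕ | b ∈ u}))
  have h2 : MeasurableSet {z | HallCond (Function.update (t z) n {b})} := by
    refine measurableSet_hall (t := fun z => Function.update (t z) n {b}) fun m => ?_
    by_cases hm : m = n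
    · subst hm; simp
    · simpa [Function.update_of_ne hm] using ht m
  exact h1.inter h2

lemma measurable_refineFam {t : Z → ℕ → Finset ℕ} (ht : ∀ n, Measurable (fun z => t z n))
    (n : ℕ) : ∀ m, Measurable (fun z => refineFam (t z) n m) := by
  induction n with
  | zero => exact ht
  | succ n ih =>
    intro m
    simp only [refineFam]
    by_cases hm : m = n
    · subst hm
      simp only [Function.update_self]
      exact (measurable_of_countable (fun k : ℕ => ({k} : Finset ℕ))).comp (measurable_pick ih m)
    · simpa [Function.update_of_ne hm] using ih m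

lemma measurable_sel {t : Z → ℕ → Finset ℕ} (ht : ∀ n, Measurable (fun z => t z n)) (n : ℕ) :
    Measurable (fun z => sel (t z) n) :=
  measurable_pick (measurable_refineFam ht n) n

/-- The finite sets of candidates: for a row `a` of total weight one, finitely many columns
carrying almost all of the weight (coded as even numbers); for other rows a private dummy. -/
noncomputable def cand (ε : ℕ → ℝ≥0∞) (X : ℕ → ℕ → ℝ≥0∞) (a : ℕ) : Finset ℕ :=
  open Classical in
  if ∑' b, X a b = 1 then
    ((Finset.range (sInf {M : ℕ | 1 ≤ ∑ b ∈ Finset.range M, X a b + ε a})).filter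
      (fun b => X a b ≠ 0)).image (fun b => 2 * b)
  else {2 * a + 1}

lemma cand_spec {ε : ℕ → ℝ≥0∞} (hε : ∀ a, 0 < ε a) {X : ℕ → ℕ → ℝ≥0∞} {a : ℕ}
    (h : ∑' b, X a b = 1) :
    1 ≤ ∑ b ∈ (Finset.range (sInf {M : ℕ | 1 ≤ ∑ b ∈ Finset.range M, X a b + ε a})), X a b
      + ε a := by
  have hne : {M : ℕ | 1 ≤ ∑ b ∈ Finset.range M, X a b + ε a}.Nonempty := by
    have ht : Filter.Tendsto (fun M => ∑ b ∈ Finset.range M, X a b + ε a) Filter.atTop
        (nhds (1 + ε a)) := by
      refine Filter.Tendsto.add_const _ ?_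
      rw [← h]
      exact ENNReal.tendsto_nat_tsum _
    have hlt : (1 : ℝ≥0∞) < 1 + ε a := by
      exact ENNReal.lt_add_right ENNReal.one_ne_top (hε a).ne'
    obtain ⟨M, hM⟩ := (ht.eventually (lt_mem_nhds hlt)).exists
    exact ⟨M, hM.le⟩
  exact Nat.sInf_mem hne

lemma cand_hall {ε : ℕ → ℝ≥0∞} (hε : ∀ a, 0 < ε a) (hε1 : ∑' a, ε a < 1)
    {X : ℕ → ℕ → ℝ≥0∞} (hcol : ∀ b, ∑' a, X a b ≤ 1) : HallCond (cand ε X) := by
  classical
  intro s
  set s1 := s.filter (fun a => ∑' b, X a b = 1) with hs1
  set s2 := s.filter (fun a => ¬ ∑' b, X a b = 1) with hs2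
  have hcard : s.card = s1.card + s2.card := by
    rw [hs1, hs2]; exact (Finset.card_filter_add_card_filter_not _).symm
  -- the reduced candidate sets
  set t' : ℕ → Finset ℕ := fun a =>
    (Finset.range (sInf {M : ℕ | 1 ≤ ∑ b ∈ Finset.range M, X a b + ε a})).filter
      (fun b => X a b ≠ 0) with ht'
  have h1 : s1.card ≤ (s1.biUnion t').card := by
    have hN : ∑ a ∈ s1, ∑ b ∈ t' a, X a b ≤ ((s1.biUnion t').card : ℝ≥0∞) := by
      calc ∑ a ∈ s1, ∑ b ∈ t' a, X a b
          ≤ ∑ a ∈ s1, ∑ b ∈ s1.biUnion t', X a b := by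
            refine Finset.sum_le_sum fun a ha => ?_
            refine Finset.sum_le_sum_of_subset ?_
            exact Finset.subset_biUnion_of_mem t' ha
        _ = ∑ b ∈ s1.biUnion t', ∑ a ∈ s1, X a b := Finset.sum_comm
        _ ≤ ∑ b ∈ s1.biUnion t', 1 := by
            refine Finset.sum_le_sum fun b _ => ?_
            exact (ENNReal.sum_le_tsum s1).trans (hcol b)
        _ = ((s1.biUnion t').card : ℝ≥0∞) := by simp
    have hS : (s1.card : ℝ≥0∞) ≤ ∑ a ∈ s1, ∑ b ∈ t' a, X a b + ∑ a ∈ s1, ε a := by
      rw [← Finset.sum_add_distrib]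
      have : (s1.card : ℝ≥0∞) = ∑ a ∈ s1, 1 := by simp
      rw [this]
      refine Finset.sum_le_sum fun a ha => ?_
      have hrow : ∑' b, X a b = 1 := (Finset.mem_filter.1 ha).2
      have := cand_spec hε hrow
      refine this.trans (le_of_eq ?_)
      congr 1
      rw [ht']
      simp only
      rw [Finset.sum_filter]
      refine Finset.sum_congr rfl fun b _ => ?_
      by_cases hb : X a b = 0
      · simp [hb]
      · simp [hb]
    have hE : ∑ a ∈ s1, ε a < 1 := (ENNReal.sum_le_tsum s1).trans_lt hε1
    have hlt : (s1.card : ℝ≥0∞) < ((s1.biUnion t').card : ℝ≥0∞) + 1 := by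
      refine hS.trans_lt ?_
      refine ENNReal.add_lt_add_of_le_of_lt ?_ hN hE
      exact (hN.trans_lt (ENNReal.natCast_lt_top _)).ne
    have : s1.card < (s1.biUnion t').card + 1 := by exact_mod_cast hlt
    omega
  have hc1 : ∀ a ∈ s1, cand ε X a = (t' a).image (fun b => 2 * b) := by
    intro a ha
    have hrow : ∑' b, X a b = 1 := (Finset.mem_filter.1 ha).2
    rw [cand, if_pos hrow]
  have hc2 : ∀ a ∈ s2, cand ε X a = {2 * a + 1} := by
    intro a ha
    have hrow : ¬ ∑' b, X a b = 1 := (Finset.mem_filter.1 ha).2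
    rw [cand, if_neg hrow]
  have hsub : (s1.biUnion t').image (fun b => 2 * b) ∪ s2.image (fun a => 2 * a + 1) ⊆
      s.biUnion (cand ε X) := by
    intro x hx
    rw [Finset.mem_union, Finset.mem_image, Finset.mem_image] at hx
    rw [Finset.mem_biUnion]
    rcases hx with ⟨b, hb, rfl⟩ | ⟨a, ha, rfl⟩
    · rw [Finset.mem_biUnion] at hb
      obtain ⟨a, ha, hab⟩ := hb
      refine ⟨a, (Finset.mem_filter.1 ha).1, ?_⟩
      rw [hc1 a ha]
      exact Finset.mem_image_of_mem _ hab
    · refine ⟨a, (Finset.mem_filter.1 ha).1, ?_⟩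
      rw [hc2 a ha]; simp
  have hdisj : Disjoint ((s1.biUnion t').image (fun b => 2 * b)) (s2.image (fun a => 2 * a + 1)) := by
    rw [Finset.disjoint_left]
    intro x hx hx'
    rw [Finset.mem_image] at hx hx'
    obtain ⟨b, _, rfl⟩ := hx
    obtain ⟨a, _, h⟩ := hx'
    omega
  calc s.card = s1.card + s2.card := hcard
    _ ≤ (s1.biUnion t').card + s2.card := by omega
    _ = ((s1.biUnion t').image (fun b => 2 * b)).card + (s2.image (fun a => 2 * a + 1)).card := by
        rw [Finset.card_image_of_injective _ (fun a b h => by simpa using h),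
          Finset.card_image_of_injective _ (fun a b h => by simpa using h)]
    _ = ((s1.biUnion t').image (fun b => 2 * b) ∪ s2.image (fun a => 2 * a + 1)).card :=
        (Finset.card_union_of_disjoint hdisj).symm
    _ ≤ (s.biUnion (cand ε X)).card := Finset.card_le_card hsub

lemma measurable_cand (ε : ℕ → ℝ≥0∞) {X : Z → ℕ → ℕ → ℝ≥0∞}
    (hX : ∀ a b, Measurable (fun z => X z a b)) (a : ℕ) :
    Measurable (fun z => cand ε (X z) a) := by
  classical
  unfold cand
  refine Measurable.ite ?_ ?_ measurable_const
  · exact (Measurable.tsum fun b => hX a b) (measurableSet_singleton 1)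
  · have hM : Measurable (fun z => sInf {M : ℕ | 1 ≤ ∑ b ∈ Finset.range M, X z a b + ε a}) := by
      refine measurable_sInf_nat fun M => ?_
      exact measurableSet_le measurable_const
        ((Finset.measurable_sum _ fun b _ => hX a b).add_const _)
    refine measurable_to_countable' fun T => ?_
    have : (fun z => ((Finset.range (sInf {M : ℕ | 1 ≤ ∑ b ∈ Finset.range M, X z a b + ε a})).filter
      (fun b => X z a b ≠ 0)).image (fun b => 2 * b)) ⁻¹' {T} =
        ⋂ x : ℕ, {z | (∃ b : ℕ, (b < sInf {M : ℕ | 1 ≤ ∑ b ∈ Finset.range M, X z a b + ε a} ∧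
          X z a b ≠ 0) ∧ 2 * b = x) ↔ x ∈ T} := by
      ext z
      simp only [mem_preimage, mem_singleton_iff, mem_iInter, mem_ofPred_eq]
      rw [Finset.ext_iff]
      simp only [Finset.mem_image, Finset.mem_filter, Finset.mem_range]
    rw [this]
    refine MeasurableSet.iInter fun x => ?_
    have hmem : MeasurableSet {z | ∃ b : ℕ, (b < sInf {M : ℕ | 1 ≤ ∑ b ∈ Finset.range M, X z a b + ε a} ∧
          X z a b ≠ 0) ∧ 2 * b = x} := by
      have : {z | ∃ b : ℕ, (b < sInf {M : ℕ | 1 ≤ ∑ b ∈ Finset.range M, X z a b + ε a} ∧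
          X z a b ≠ 0) ∧ 2 * b = x} = ⋃ b : ℕ,
          (({z | b < sInf {M : ℕ | 1 ≤ ∑ b ∈ Finset.range M, X z a b + ε a}} ∩
            {z | X z a b ≠ 0}) ∩ {_z | 2 * b = x}) := by
        ext z
        simp
      rw [this]
      refine MeasurableSet.iUnion fun b => ?_
      refine (MeasurableSet.inter ?_ ?_).inter (MeasurableSet.const _)
      · exact hM (MeasurableSet.of_discrete (s := {m : ℕ | b < m}))
      · exact (hX a b) (measurableSet_singleton (0 : ℝ≥0∞)).compl
    by_cases hx : x ∈ T
    · simpa [hx] using hmem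
    · have h' := hmem.compl
      simpa [hx, compl_ofPred] using h'

/-- **Measurable matching saturating the rows of weight one.** -/
theorem exists_measurable_matching {X : Z → ℕ → ℕ → ℝ≥0∞}
    (hX : ∀ a b, Measurable (fun z => X z a b)) (hcol : ∀ z b, ∑' a, X z a b ≤ 1) :
    ∃ κ : Z → ℕ → ℕ, (∀ a, Measurable (fun z => κ z a)) ∧
      (∀ z a, ∑' b, X z a b = 1 → X z a (κ z a) ≠ 0) ∧
      (∀ z a a', ∑' b, X z a b = 1 → ∑' b, X z a' b = 1 → κ z a = κ z a' → a = a') := by
  classical
  obtain ⟨ε, hε, hε1⟩ := ENNReal.exists_pos_sum_of_countable' one_ne_zero ℕ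
  have hH : ∀ z, HallCond (cand ε (X z)) := fun z => cand_hall hε hε1 (hcol z)
  refine ⟨fun z a => sel (cand ε (X z)) a / 2, fun a => ?_, fun z a ha => ?_,
    fun z a a' ha ha' h => ?_⟩
  · exact (measurable_of_countable (fun n : ℕ => n / 2)).comp
      (measurable_sel (fun n => measurable_cand ε hX n) a)
  · have := sel_mem (hH z) a
    rw [cand, if_pos ha, Finset.mem_image] at this
    obtain ⟨b, hb, hb'⟩ := this
    have hb3 : 2 * b = sel (cand ε (X z)) a := hb'
    have hb4 : X z a (sel (cand ε (X z)) a / 2) ≠ 0 := by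
      rw [← hb3, Nat.mul_div_cancel_left _ (by norm_num)]
      exact (Finset.mem_filter.1 hb).2
    exact hb4
  · have h1 := sel_mem (hH z) a
    have h2 := sel_mem (hH z) a'
    rw [cand, if_pos ha, Finset.mem_image] at h1
    rw [cand, if_pos ha', Finset.mem_image] at h2
    obtain ⟨b, hb, hb'⟩ := h1
    obtain ⟨b2, hb2, hb2'⟩ := h2
    apply sel_injective (hH z)
    have h3 : sel (cand ε (X z)) a / 2 = sel (cand ε (X z)) a' / 2 := h
    have hb3 : 2 * b = sel (cand ε (X z)) a := hb'
    have hb4 : 2 * b2 = sel (cand ε (X z)) a' := hb2'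
    rw [← hb3, ← hb4] at h3 ⊢
    omega

end Meas

end Pool.Agent.Larson
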