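import Mathlib
import Pool.Agent.Larson.Hall
import Pool.Agent.Larson.CSB

/-!
The non-MRA case: if the dimension function vanishes somewhere along every dyadic orbit, the
support graph splits into canonically indexed components, and a measurable matching exists.
-/

namespace Pool.Agent.Larson

open MeasureTheory Set
open scoped ENNReal

/-- General index version of the measurable matching theorem. -/
theorem exists_measurable_matching' {Z A B : Type*} [MeasurableSpace Z] [MeasurableSpace B]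
    (eA : A ≃ ℕ) (eB : B ≃ ℕ) {X : Z → A → B → ℝ≥0∞}
    (hX : ∀ a b, Measurable (fun z => X z a b)) (hcol : ∀ z b, ∑' a, X z a b ≤ 1) :
    ∃ κ : Z → A → B, (∀ a, Measurable (fun z => κ z a)) ∧
      (∀ z a, ∑' b, X z a b = 1 → X z a (κ z a) ≠ 0) ∧
      (∀ z a a', ∑' b, X z a b = 1 → ∑' b, X z a' b = 1 → κ z a = κ z a' → a = a') := by
  obtain ⟨κ, h1, h2, h3⟩ := exists_measurable_matching (Z := Z)
    (X := fun z n m => X z (eA.symm n) (eB.symm m)) (fun a b => hX _ _)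
    (fun z b => by
      have := eA.symm.tsum_eq (fun a => X z a (eB.symm b))
      rw [this]; exact hcol z _)
  have hrow : ∀ z n, ∑' m, X z (eA.symm n) (eB.symm m) = ∑' b, X z (eA.symm n) b :=
    fun z n => eB.symm.tsum_eq (fun b => X z (eA.symm n) b)
  refine ⟨fun z a => eB.symm (κ z (eA a)), fun a => ?_, fun z a ha => ?_, fun z a a' ha ha' h => ?_⟩
  · exact (measurable_of_countable eB.symm).comp (h1 (eA a))
  · have := h2 z (eA a) (by rw [hrow]; simpa using ha)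
    simpa using this
  · have hh := eB.symm.injective h
    have := h3 z (eA a) (eA a') (by rw [hrow]; simpa using ha) (by rw [hrow]; simpa using ha') hh
    exact eA.injective this

/-- The (unnormalised) dimension function of a nonnegative function on the line. -/
noncomputable def dimF (f : ℝ → ℝ≥0∞) (x : ℝ) : ℝ≥0∞ :=
  ∑' i : ℕ, ∑' k : ℤ, f ((2 : ℝ) ^ (i + 1) * (x + k))

lemma measurable_dimF {f : ℝ → ℝ≥0∞} (hf : Measurable f) : Measurable (dimF f) := by
  unfold dimF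
  refine Measurable.tsum fun i => Measurable.tsum fun k => ?_
  exact hf.comp ((measurable_id.add_const _).const_mul _)

lemma dimF_add_int (f : ℝ → ℝ≥0∞) (x : ℝ) (l : ℤ) : dimF f (x + l) = dimF f x := by
  unfold dimF
  congr 1; funext i
  rw [← (Equiv.addLeft l).tsum_eq (fun k : ℤ => f ((2 : ℝ) ^ (i + 1) * (x + k)))]
  congr 1; funext k
  simp only [Equiv.coe_addLeft]
  push_cast
  rw [add_assoc]

lemma dimF_sub_int (f : ℝ → ℝ≥0∞) (x : ℝ) (l : ℤ) : dimF f (x - l) = dimF f x := by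
  have := dimF_add_int f x (-l)
  push_cast at this
  rwa [← sub_eq_add_neg] at this

lemma le_dimF (f : ℝ → ℝ≥0∞) (x : ℝ) (i : ℕ) (k : ℤ) :
    f ((2 : ℝ) ^ (i + 1) * (x + k)) ≤ dimF f x := by
  unfold dimF
  exact (ENNReal.le_tsum (f := fun k : ℤ => f ((2 : ℝ) ^ (i + 1) * (x + k))) k).trans
    (ENNReal.le_tsum (f := fun i : ℕ => ∑' k : ℤ, f ((2 : ℝ) ^ (i + 1) * (x + k))) i)

lemma le_dimF_zpow (f : ℝ → ℝ≥0∞) (x : ℝ) {n : ℤ} (hn : 0 < n) :
    f ((2 : ℝ) ^ n * x) ≤ dimF f x := by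
  obtain ⟨i, hi⟩ : ∃ i : ℕ, n = (i : ℤ) + 1 := ⟨(n - 1).toNat, by omega⟩
  have := le_dimF f x i 0
  simp only [Int.cast_zero, add_zero] at this
  rw [hi]
  have h2 : (2 : ℝ) ^ ((i : ℤ) + 1) = (2 : ℝ) ^ (i + 1) := by
    rw [← zpow_natCast]; push_cast; rfl
  rwa [h2]

/-- first time the dimension function vanishes along the forward dyadic orbit -/
noncomputable def jj (f : ℝ → ℝ≥0∞) (x : ℝ) : ℕ := sInf {n : ℕ | dimF f ((2 : ℝ) ^ n * x) = 0}

lemma measurable_jj {f : ℝ → ℝ≥0∞} (hf : Measurable f) : Measurable (jj f) := by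
  unfold jj
  refine measurable_sInf_nat fun n => ?_
  exact ((measurable_dimF hf).comp (measurable_id.const_mul _)) (measurableSet_singleton 0)

lemma jj_sub_int (f : ℝ → ℝ≥0∞) (x : ℝ) (l : ℤ) : jj f (x - l) = jj f x := by
  unfold jj
  congr 1
  ext n
  simp only [mem_ofPred_eq]
  have : (2 : ℝ) ^ n * (x - l) = (2 : ℝ) ^ n * x - ((2 ^ n * l : ℤ) : ℝ) := by push_cast; ring
  rw [this, dimF_sub_int]

lemma jj_spec {f : ℝ → ℝ≥0∞} {x : ℝ} (h : ∃ n : ℕ, dimF f ((2 : ℝ) ^ n * x) = 0) :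
    dimF f ((2 : ℝ) ^ (jj f x) * x) = 0 := Nat.sInf_mem (s := {n : ℕ | dimF f ((2 : ℝ) ^ n * x) = 0}) h

lemma jj_min {f : ℝ → ℝ≥0∞} {x : ℝ} {n : ℕ} (h : n < jj f x) :
    dimF f ((2 : ℝ) ^ n * x) ≠ 0 := Nat.notMem_of_lt_sInf (s := {n : ℕ | dimF f ((2 : ℝ) ^ n * x) = 0}) h

/-- if `f x ≠ 0`, then no earlier (negative) time is a zero either -/
lemma jj_min_int {f : ℝ → ℝ≥0∞} {x : ℝ} (hx : f x ≠ 0) {n : ℤ} (h : n < jj f x) :
    dimF f ((2 : ℝ) ^ n * x) ≠ 0 := by
  rcases lt_or_ge n 0 with hn | hn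
  · intro h0
    have := le_dimF_zpow f ((2 : ℝ) ^ n * x) (n := -n) (by omega)
    rw [← mul_assoc, ← zpow_add₀ (by norm_num : (2 : ℝ) ≠ 0), h0] at this
    simp at this
    exact hx this
  · obtain ⟨m, rfl⟩ := Int.eq_ofNat_of_zero_le hn
    have : m < jj f x := by exact_mod_cast h
    have := jj_min this
    simpa using this

/-- the matrix entry at the row `(j, r)` and column `k`, over the base point `z` -/
noncomputable def entry (f : ℝ → ℝ≥0∞) (X : Set ℝ) (z : ℝ) (a : ℕ × ℕ) (k : ℤ) : ℝ≥0∞ :=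
  open Classical in
  if (z ∈ X ∧ dimF f z = 0) ∧ k % (2 ^ a.1 : ℤ) = (a.2 : ℤ) then
    f ((2 : ℝ) ^ (-(a.1 : ℤ)) * (z + k)) else 0

lemma measurable_entry {f : ℝ → ℝ≥0∞} (hf : Measurable f) {X : Set ℝ} (hX : MeasurableSet X)
    (a : ℕ × ℕ) (k : ℤ) : Measurable (fun z => entry f X z a k) := by
  classical
  unfold entry
  refine Measurable.ite ?_ ?_ measurable_const
  · exact (hX.inter ((measurable_dimF hf) (measurableSet_singleton 0))).inter
      (MeasurableSet.const _)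
  · exact hf.comp ((measurable_id.add_const _).const_mul _)

lemma two_zpow_neg_mul (j : ℕ) (x : ℝ) : (2 : ℝ) ^ (-(j : ℤ)) * ((2 : ℝ) ^ j * x) = x := by
  rw [← mul_assoc, ← zpow_natCast, ← zpow_add₀ (by norm_num : (2 : ℝ) ≠ 0)]
  simp

lemma entry_row_sum {f : ℝ → ℝ≥0∞} {X : Set ℝ}
    (hXT : ∀ x ∈ X, ∀ k : ℤ, x - (k : ℝ) ∈ X) (hXD : ∀ x ∈ X, ∀ j : ℤ, (2 : ℝ) ^ j * x ∈ X)
    (h1 : ∀ x ∈ X, ∑' k : ℤ, f (x + k) = 1)
    {z : ℝ} (hz : z ∈ X ∧ dimF f z = 0) {a : ℕ × ℕ} (ha : a.2 < 2 ^ a.1) :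
    ∑' k, entry f X z a k = 1 := by
  have hg : Function.Injective (fun l : ℤ => (a.2 : ℤ) + 2 ^ a.1 * l) := by
    intro l l' h
    have h2 : (2 ^ a.1 : ℤ) * l = 2 ^ a.1 * l' := by simpa using h
    exact mul_left_cancel₀ (by positivity) h2
  have hsupp : Function.support (entry f X z a) ⊆
      range (fun l : ℤ => (a.2 : ℤ) + 2 ^ a.1 * l) := by
    intro k hk
    rw [Function.mem_support, entry] at hk
    have hk2 : k % (2 ^ a.1 : ℤ) = (a.2 : ℤ) := by
      by_contra hne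
      apply hk
      rw [if_neg]
      exact fun h => hne h.2
    refine ⟨k / 2 ^ a.1, ?_⟩
    simp only
    rw [← hk2]
    exact Int.emod_add_mul_ediv k _
  rw [← hg.tsum_eq hsupp]
  have hx : (2 : ℝ) ^ (-(a.1 : ℤ)) * (z + a.2) ∈ X := by
    refine hXD _ ?_ _
    have := hXT z hz.1 (-(a.2 : ℤ))
    simpa using this
  rw [← h1 _ hx]
  congr 1; funext l
  rw [entry, if_pos]
  · congr 1
    push_cast
    rw [mul_add, mul_add, mul_add, two_zpow_neg_mul]
    ring
  · refine ⟨hz, ?_⟩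
    rw [Int.add_mul_emod_self_left]
    exact Int.emod_eq_of_lt (by positivity) (by exact_mod_cast ha)

lemma entry_row_sum_le {f : ℝ → ℝ≥0∞} {X : Set ℝ}
    (hXT : ∀ x ∈ X, ∀ k : ℤ, x - (k : ℝ) ∈ X) (hXD : ∀ x ∈ X, ∀ j : ℤ, (2 : ℝ) ^ j * x ∈ X)
    (h1 : ∀ x ∈ X, ∑' k : ℤ, f (x + k) = 1) (z : ℝ) (a : ℕ × ℕ) :
    ∑' k, entry f X z a k ≤ 1 := by
  by_cases h : (z ∈ X ∧ dimF f z = 0) ∧ a.2 < 2 ^ a.1
  · exact (entry_row_sum hXT hXD h1 h.1 h.2).le
  · have : ∀ k, entry f X z a k = 0 := by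
      intro k
      rw [entry, if_neg]
      rintro ⟨hz, hk⟩
      apply h
      refine ⟨hz, ?_⟩
      have := Int.emod_lt_of_pos k (b := (2 ^ a.1 : ℤ)) (by positivity)
      rw [hk] at this
      exact_mod_cast this
    simp [this]

lemma entry_col_sum {f : ℝ → ℝ≥0∞} {X : Set ℝ}
    (hXT : ∀ x ∈ X, ∀ k : ℤ, x - (k : ℝ) ∈ X)
    (h2 : ∀ x ∈ X, ∑' j : ℤ, f ((2 : ℝ) ^ j * x) = 1)
    {z : ℝ} (hz : z ∈ X ∧ dimF f z = 0) (k : ℤ) :
    ∑' a, entry f X z a k = 1 := by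
  have hg : Function.Injective (fun j : ℕ => ((j, (k % (2 ^ j : ℤ)).toNat) : ℕ × ℕ)) := by
    intro l l' h
    exact (Prod.ext_iff.1 h).1
  have hsupp : Function.support (fun a => entry f X z a k) ⊆
      range (fun j : ℕ => ((j, (k % (2 ^ j : ℤ)).toNat) : ℕ × ℕ)) := by
    intro a hk
    rw [Function.mem_support, entry] at hk
    have hk2 : k % (2 ^ a.1 : ℤ) = (a.2 : ℤ) := by
      by_contra hne
      apply hk
      rw [if_neg]
      exact fun h => hne h.2
    refine ⟨a.1, ?_⟩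
    simp only
    rw [hk2]
    simp
  rw [← hg.tsum_eq hsupp]
  have hx : z + k ∈ X := by
    have := hXT z hz.1 (-k)
    simpa using this
  have hd : dimF f (z + k) = 0 := by rw [dimF_add_int]; exact hz.2
  rw [← h2 _ hx]
  -- restrict the sum over `ℤ` to nonpositive exponents
  have hg' : Function.Injective (fun j : ℕ => (-(j : ℤ))) := by
    intro l l' h
    simpa using h
  have hsupp' : Function.support (fun j : ℤ => f ((2 : ℝ) ^ j * (z + k))) ⊆
      range (fun j : ℕ => (-(j : ℤ))) := by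
    intro j hj
    rw [Function.mem_support] at hj
    have hj0 : j ≤ 0 := by
      by_contra hpos
      push Not at hpos
      have := le_dimF_zpow f (z + k) hpos
      rw [hd] at this
      simp at this
      exact hj this
    exact ⟨(-j).toNat, by simp only; omega⟩
  rw [← hg'.tsum_eq hsupp']
  congr 1; funext j
  rw [entry, if_pos]
  refine ⟨hz, ?_⟩
  simp only
  rw [Int.toNat_of_nonneg]
  exact Int.emod_nonneg _ (by positivity)

lemma entry_col_sum_le {f : ℝ → ℝ≥0∞} {X : Set ℝ}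
    (hXT : ∀ x ∈ X, ∀ k : ℤ, x - (k : ℝ) ∈ X)
    (h2 : ∀ x ∈ X, ∑' j : ℤ, f ((2 : ℝ) ^ j * x) = 1) (z : ℝ) (k : ℤ) :
    ∑' a, entry f X z a k ≤ 1 := by
  by_cases h : z ∈ X ∧ dimF f z = 0
  · exact (entry_col_sum hXT h2 h k).le
  · have : ∀ a, entry f X z a k = 0 := by
      intro k
      rw [entry, if_neg]
      rintro ⟨hz, _⟩
      exact h hz
    simp [this]

/-- base point of a translation orbit -/
noncomputable def zz (f : ℝ → ℝ≥0∞) (x : ℝ) : ℝ := Int.fract ((2 : ℝ) ^ (jj f x) * x)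

/-- integer coordinate over the base point -/
noncomputable def kk (f : ℝ → ℝ≥0∞) (x : ℝ) : ℤ := ⌊(2 : ℝ) ^ (jj f x) * x⌋

/-- row index of a translation orbit -/
noncomputable def rr (f : ℝ → ℝ≥0∞) (x : ℝ) : ℕ × ℕ :=
  (jj f x, (kk f x % (2 ^ (jj f x) : ℤ)).toNat)

lemma zz_add_kk (f : ℝ → ℝ≥0∞) (x : ℝ) : zz f x + kk f x = (2 : ℝ) ^ (jj f x) * x :=
  Int.fract_add_floor _

lemma zz_sub_int (f : ℝ → ℝ≥0∞) (x : ℝ) (l : ℤ) : zz f (x - l) = zz f x := by
  unfold zz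
  rw [jj_sub_int]
  have : (2 : ℝ) ^ (jj f x) * (x - l) = (2 : ℝ) ^ (jj f x) * x - ((2 ^ (jj f x) * l : ℤ) : ℝ) := by
    push_cast; ring
  rw [this, Int.fract_sub_intCast]

lemma kk_sub_int (f : ℝ → ℝ≥0∞) (x : ℝ) (l : ℤ) :
    kk f (x - l) = kk f x - 2 ^ (jj f x) * l := by
  unfold kk
  rw [jj_sub_int]
  have : (2 : ℝ) ^ (jj f x) * (x - l) = (2 : ℝ) ^ (jj f x) * x - ((2 ^ (jj f x) * l : ℤ) : ℝ) := by
    push_cast; ring
  rw [this, Int.floor_sub_intCast]

lemma rr_sub_int (f : ℝ → ℝ≥0∞) (x : ℝ) (l : ℤ) : rr f (x - l) = rr f x := by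
  unfold rr
  rw [kk_sub_int, jj_sub_int, Int.sub_mul_emod_self_left]

lemma measurable_zz {f : ℝ → ℝ≥0∞} (hf : Measurable f) : Measurable (zz f) := by
  have h1 : Measurable (fun p : ℕ × ℝ => Int.fract ((2 : ℝ) ^ p.1 * p.2)) :=
    measurable_from_prod_countable_right fun n =>
      measurable_fract.comp (by fun_prop)
  exact h1.comp ((measurable_jj hf).prodMk measurable_id)

lemma measurable_kk {f : ℝ → ℝ≥0∞} (hf : Measurable f) : Measurable (kk f) := by
  have h1 : Measurable (fun p : ℕ × ℝ => ⌊(2 : ℝ) ^ p.1 * p.2⌋) :=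
    measurable_from_prod_countable_right fun n =>
      Int.measurable_floor.comp (by fun_prop)
  exact h1.comp ((measurable_jj hf).prodMk measurable_id)

lemma measurable_rr {f : ℝ → ℝ≥0∞} (hf : Measurable f) : Measurable (rr f) := by
  have h1 : Measurable (fun p : ℕ × ℤ => ((p.1, (p.2 % (2 ^ p.1 : ℤ)).toNat) : ℕ × ℕ)) :=
    measurable_of_countable _
  exact h1.comp ((measurable_jj hf).prodMk (measurable_kk hf))

lemma rr_lt (f : ℝ → ℝ≥0∞) (x : ℝ) : (rr f x).2 < 2 ^ (rr f x).1 := by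
  unfold rr
  simp only
  have h1 := Int.emod_lt_of_pos (kk f x) (b := (2 ^ (jj f x) : ℤ)) (by positivity)
  have h2 := Int.emod_nonneg (kk f x) (b := (2 ^ (jj f x) : ℤ)) (by positivity)
  zify
  rw [Int.toNat_of_nonneg h2]
  exact h1

lemma rr_cast (f : ℝ → ℝ≥0∞) (x : ℝ) :
    ((rr f x).2 : ℤ) = kk f x % (2 ^ (jj f x) : ℤ) := by
  unfold rr
  simp only
  rw [Int.toNat_of_nonneg]
  exact Int.emod_nonneg _ (by positivity)

/-- **The non-MRA case.** -/
theorem caseA {f : ℝ → ℝ≥0∞} (hf : Measurable f) {X : Set ℝ} (hXm : MeasurableSet X)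
    (hXT : ∀ x ∈ X, ∀ k : ℤ, x - (k : ℝ) ∈ X) (hXD : ∀ x ∈ X, ∀ j : ℤ, (2 : ℝ) ^ j * x ∈ X)
    (h1 : ∀ x ∈ X, ∑' k : ℤ, f (x + k) = 1)
    (h2 : ∀ x ∈ X, ∑' j : ℤ, f ((2 : ℝ) ^ j * x) = 1)
    (h3 : ∀ x ∈ X, ∃ n : ℕ, dimF f ((2 : ℝ) ^ n * x) = 0) :
    ∃ W : Set ℝ, MeasurableSet W ∧
      (∀ x ∈ X, ∃! k : ℤ, x - (k : ℝ) ∈ W) ∧
      (∀ x ∈ X, ∃! j : ℤ, (2 : ℝ) ^ (-j) * x ∈ W) ∧ (∀ x ∈ W, f x ≠ 0) := by
  classical
  obtain ⟨κ, κm, κ1, κ2⟩ := exists_measurable_matching' (Z := ℝ) (A := ℕ × ℕ) (B := ℤ)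
    Nat.pairEquiv Equiv.intEquivNat (X := fun z a k => entry f X z a k)
    (fun a k => measurable_entry hf hXm a k) (fun z k => entry_col_sum_le hXT h2 z k)
  obtain ⟨lam, lm, l1, l2⟩ := exists_measurable_matching' (Z := ℝ) (A := ℤ) (B := ℕ × ℕ)
    Equiv.intEquivNat Nat.pairEquiv (X := fun z k a => entry f X z a k)
    (fun k a => measurable_entry hf hXm a k) (fun z a => entry_row_sum_le hXT hXD h1 z a)
  -- base points are good
  have hz : ∀ x ∈ X, zz f x ∈ X ∧ dimF f (zz f x) = 0 := by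
    intro x hx
    have hy : (2 : ℝ) ^ (jj f x) * x ∈ X := by
      have := hXD x hx (jj f x)
      simpa using this
    have h : zz f x = (2 : ℝ) ^ (jj f x) * x - (⌊(2 : ℝ) ^ (jj f x) * x⌋ : ℤ) := rfl
    refine ⟨?_, ?_⟩
    · rw [h]; exact hXT _ hy _
    · rw [h, dimF_sub_int]; exact jj_spec (h3 x hx)
  have hback : ∀ x, (2 : ℝ) ^ (-(jj f x : ℤ)) * (zz f x + kk f x) = x := by
    intro x
    rw [zz_add_kk, two_zpow_neg_mul]
  have hcomp : ∀ (i j : ℤ) (x : ℝ), (2 : ℝ) ^ i * ((2 : ℝ) ^ j * x) = (2 : ℝ) ^ (i + j) * x := by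
    intro i j x
    rw [zpow_add₀ (by norm_num : (2 : ℝ) ≠ 0)]; ring
  set W1 : Set ℝ := {x | x ∈ X ∧ κ (zz f x) (rr f x) = kk f x} with hW1
  set W2 : Set ℝ := {x | (x ∈ X ∧ f x ≠ 0) ∧ (lam (zz f x) (kk f x)).1 = jj f x} with hW2
  have hW1m : MeasurableSet W1 := by
    refine hXm.inter ?_
    have hκ : Measurable (fun p : ℝ × (ℕ × ℕ) => κ p.1 p.2) :=
      measurable_from_prod_countable_left κm
    exact measurableSet_eq_fun (hκ.comp ((measurable_zz hf).prodMk (measurable_rr hf)))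
      (measurable_kk hf)
  have hW2m : MeasurableSet W2 := by
    refine (hXm.inter (hf (measurableSet_singleton 0)).compl).inter ?_
    have hl : Measurable (fun p : ℝ × ℤ => lam p.1 p.2) :=
      measurable_from_prod_countable_left lm
    exact measurableSet_eq_fun
      ((measurable_fst.comp hl).comp ((measurable_zz hf).prodMk (measurable_kk hf)))
      (measurable_jj hf)
  have hf1 : ∀ x ∈ W1, f x ≠ 0 := by
    intro x hx
    have h := κ1 (zz f x) (rr f x) (entry_row_sum hXT hXD h1 (hz x hx.1) (rr_lt f x))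
    rw [hx.2, entry] at h
    have h' : f ((2 : ℝ) ^ (-((rr f x).1 : ℤ)) * (zz f x + kk f x)) ≠ 0 := by
      intro h0
      apply h
      rw [h0]; simp
    have h4 : ((rr f x).1 : ℤ) = jj f x := rfl
    rw [h4, hback] at h'
    exact h'
  have hT1 : ∀ x ∈ X, ∃! k : ℤ, x - (k : ℝ) ∈ W1 := by
    intro x hx
    have h := κ1 (zz f x) (rr f x) (entry_row_sum hXT hXD h1 (hz x hx) (rr_lt f x))
    have hmod : κ (zz f x) (rr f x) % (2 ^ (jj f x) : ℤ) = kk f x % (2 ^ (jj f x) : ℤ) := by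
      by_contra hne
      apply h
      rw [entry, if_neg]
      rintro ⟨_, h5⟩
      apply hne
      rw [← rr_cast]
      exact h5
    have hdvd : (2 ^ (jj f x) : ℤ) ∣ kk f x - κ (zz f x) (rr f x) :=
      Int.ModEq.dvd hmod
    obtain ⟨l, hl⟩ := hdvd
    have hiff : ∀ m : ℤ, x - (m : ℝ) ∈ W1 ↔ κ (zz f x) (rr f x) = kk f x - 2 ^ (jj f x) * m := by
      intro m
      simp only [hW1, mem_ofPred_eq]
      rw [zz_sub_int, rr_sub_int, kk_sub_int]
      exact ⟨fun h => h.2, fun h => ⟨hXT x hx m, h⟩⟩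
    refine ⟨l, ?_, ?_⟩
    · exact (hiff l).2 (by omega)
    · intro m hm
      have hm' := (hiff m).1 hm
      have : (2 ^ (jj f x) : ℤ) * m = 2 ^ (jj f x) * l := by omega
      exact mul_left_cancel₀ (by positivity) this
  have hD1 : ∀ x ∈ W1, ∀ m : ℤ, (2 : ℝ) ^ m * x ∈ W1 → m = 0 := by
    intro x hx m hm
    have hfx := hf1 x hx
    have hfx' := hf1 _ hm
    set x' := (2 : ℝ) ^ m * x with hx'
    have e1 : dimF f ((2 : ℝ) ^ ((jj f x : ℤ)) * x) = 0 := by
      have := jj_spec (h3 x hx.1); simpa using this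
    have e2 : dimF f ((2 : ℝ) ^ ((jj f x' : ℤ)) * x') = 0 := by
      have := jj_spec (h3 x' hm.1); simpa using this
    have c1 : (jj f x : ℤ) ≤ jj f x' + m := by
      by_contra hlt
      push Not at hlt
      apply jj_min_int hfx hlt
      rw [← hcomp]; exact e2
    have c2 : (jj f x' : ℤ) ≤ jj f x - m := by
      by_contra hlt
      push Not at hlt
      apply jj_min_int hfx' hlt
      rw [hx', hcomp, sub_add_cancel]; exact e1
    have hJ : (jj f x : ℤ) = jj f x' + m := by omega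
    have hy : (2 : ℝ) ^ (jj f x') * x' = (2 : ℝ) ^ (jj f x) * x := by
      rw [hx', ← zpow_natCast, hcomp, ← hJ, zpow_natCast]
    have hzz : zz f x' = zz f x := by unfold zz; rw [hy]
    have hkk : kk f x' = kk f x := by unfold kk; rw [hy]
    have hr : rr f x = rr f x' := by
      refine κ2 (zz f x) _ _ (entry_row_sum hXT hXD h1 (hz x hx.1) (rr_lt f x))
        (entry_row_sum hXT hXD h1 (hz x hx.1) (rr_lt f x')) ?_
      rw [hx.2, ← hkk, ← hzz]
      exact hm.2.symm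
    have hjj : jj f x = jj f x' := congrArg Prod.fst hr
    omega
  have hT2 : ∀ x ∈ W2, ∀ l : ℤ, x - (l : ℝ) ∈ W2 → l = 0 := by
    intro x hx l hl
    have hx2 : (lam (zz f x) (kk f x)).1 = jj f x := hx.2
    have hl2 : (lam (zz f (x - l)) (kk f (x - l))).1 = jj f (x - l) := hl.2
    rw [zz_sub_int, kk_sub_int, jj_sub_int] at hl2
    have s1 := entry_col_sum hXT h2 (hz x hx.1.1) (kk f x)
    have s2 := entry_col_sum hXT h2 (hz x hx.1.1) (kk f x - 2 ^ jj f x * l)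
    have n1 := l1 (zz f x) (kk f x) s1
    have n2 := l1 (zz f x) (kk f x - 2 ^ jj f x * l) s2
    have m1 : kk f x % (2 ^ (jj f x) : ℤ) = ((lam (zz f x) (kk f x)).2 : ℤ) := by
      by_contra hne
      apply n1
      rw [entry, if_neg]
      rintro ⟨_, h5⟩
      rw [hx2] at h5
      exact hne h5
    have m2 : (kk f x - 2 ^ jj f x * l) % (2 ^ (jj f x) : ℤ) =
        ((lam (zz f x) (kk f x - 2 ^ jj f x * l)).2 : ℤ) := by
      by_contra hne
      apply n2
      rw [entry, if_neg]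
      rintro ⟨_, h5⟩
      rw [hl2] at h5
      exact hne h5
    rw [Int.sub_mul_emod_self_left] at m2
    have heq : lam (zz f x) (kk f x) = lam (zz f x) (kk f x - 2 ^ jj f x * l) := by
      refine Prod.ext ?_ ?_
      · rw [hx2, hl2]
      · have : ((lam (zz f x) (kk f x)).2 : ℤ) =
          ((lam (zz f x) (kk f x - 2 ^ jj f x * l)).2 : ℤ) := by rw [← m1, ← m2]
        exact_mod_cast this
    have := l2 (zz f x) _ _ s1 s2 heq
    have h0 : (2 ^ jj f x : ℤ) * l = 0 := by omega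
    rcases mul_eq_zero.1 h0 with h | h
    · exact absurd h (by positivity)
    · exact h
  have hD2 : ∀ x ∈ X, ∃! m : ℤ, (2 : ℝ) ^ (-m) * x ∈ W2 := by
    intro x hx
    -- the least zero of the dimension function along the orbit
    obtain ⟨j0, hj0⟩ : ∃ j0 : ℤ, f ((2 : ℝ) ^ j0 * x) ≠ 0 := by
      by_contra hcon
      push Not at hcon
      have := h2 x hx
      simp [hcon] at this
    obtain ⟨n0, hn0, hmin⟩ := Int.exists_least_of_bdd
      (P := fun n : ℤ => dimF f ((2 : ℝ) ^ n * x) = 0)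
      ⟨j0, fun n hn => by
        by_contra hlt
        push Not at hlt
        have := le_dimF_zpow f ((2 : ℝ) ^ n * x) (n := j0 - n) (by omega)
        rw [hcomp, sub_add_cancel, hn] at this
        simp at this
        exact hj0 this⟩
      (by
        obtain ⟨n, hn⟩ := h3 x hx
        exact ⟨(n : ℤ), by simpa using hn⟩)
    set y := (2 : ℝ) ^ n0 * x with hy
    have hyX : y ∈ X := hXD x hx n0
    have hzy : Int.fract y ∈ X ∧ dimF f (Int.fract y) = 0 := by
      have h : Int.fract y = y - (⌊y⌋ : ℤ) := rfl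
      refine ⟨?_, ?_⟩
      · rw [h]; exact hXT _ hyX _
      · rw [h, dimF_sub_int]; exact hn0
    set a := lam (Int.fract y) ⌊y⌋ with ha
    have n1 := l1 (Int.fract y) ⌊y⌋ (entry_col_sum hXT h2 hzy ⌊y⌋)
    rw [← ha] at n1
    have hfx' : f ((2 : ℝ) ^ (-(a.1 : ℤ)) * y) ≠ 0 := by
      intro h0
      apply n1
      rw [entry, Int.fract_add_floor, h0]; simp
    -- characterisation of the stopping time on the orbit
    have hchar : ∀ x'' : ℝ, ∀ m : ℤ, x'' = (2 : ℝ) ^ (-m) * x → f x'' ≠ 0 →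
        (jj f x'' : ℤ) - m = n0 := by
      intro x'' m hx'' hfx''
      have hX'' : x'' ∈ X := by rw [hx'']; exact hXD x hx _
      have e2 : dimF f ((2 : ℝ) ^ ((jj f x'' : ℤ)) * x'') = 0 := by
        have := jj_spec (h3 x'' hX''); simpa using this
      rw [hx'', hcomp, ← hx''] at e2
      have c1 := hmin _ e2
      have c2 : ¬ (n0 + m < jj f x'') := by
        intro hlt
        apply jj_min_int hfx'' hlt
        rw [hx'', hcomp, show n0 + m + -m = n0 by ring]; exact hn0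
      omega
    have key : ∀ m : ℤ, (2 : ℝ) ^ (-m) * x ∈ W2 ↔ m = a.1 - n0 := by
      intro m
      constructor
      · intro hm
        have hJ := hchar _ m rfl hm.1.2
        have hm2 := hm.2
        set x'' := (2 : ℝ) ^ (-m) * x with hx''
        have hyy : (2 : ℝ) ^ (jj f x'') * x'' = y := by
          rw [hx'', ← zpow_natCast, hcomp, ← hx'', hy]
          congr 2
        have hzz : zz f x'' = Int.fract y := by unfold zz; rw [hyy]
        have hkk : kk f x'' = ⌊y⌋ := by unfold kk; rw [hyy]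
        rw [hzz, hkk, ← ha] at hm2
        omega
      · rintro rfl
        have hx'' : (2 : ℝ) ^ (-((a.1 : ℤ) - n0)) * x = (2 : ℝ) ^ (-(a.1 : ℤ)) * y := by
          rw [hy, hcomp]; congr 2; ring
        have hfx2 : f ((2 : ℝ) ^ (-((a.1 : ℤ) - n0)) * x) ≠ 0 := by rw [hx'']; exact hfx'
        have hJ := hchar _ ((a.1 : ℤ) - n0) rfl hfx2
        set x'' := (2 : ℝ) ^ (-((a.1 : ℤ) - n0)) * x with hx3
        have hyy : (2 : ℝ) ^ (jj f x'') * x'' = y := by
          rw [hx3, ← zpow_natCast, hcomp, ← hx3, hy]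
          congr 2
        have hzz : zz f x'' = Int.fract y := by unfold zz; rw [hyy]
        have hkk : kk f x'' = ⌊y⌋ := by unfold kk; rw [hyy]
        refine ⟨⟨hXD x hx _, hfx2⟩, ?_⟩
        rw [hzz, hkk, ← ha]
        omega
    exact ⟨a.1 - n0, (key _).2 rfl, fun m hm => (key m).1 hm⟩
  obtain ⟨W, hWm, hWsub, hWT, hWD⟩ := csb hXT hXD hW1m hW2m hT1 hD1 hT2 hD2
  refine ⟨W, hWm, hWT, hWD, fun x hx => ?_⟩
  rcases hWsub hx with h | h
  · exact hf1 x h
  · exact h.1.2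

end Pool.Agent.Larson
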