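import Mathlib
import Pool.Agent.Larson.Per

/-!
The MRA case: the scaling energy is multiplied by a periodic factor under dilation, and the
(least) place of its maximum over translation orbits produces a wavelet set.
-/

namespace Pool.Agent.Larson

open MeasureTheory Set
open scoped ENNReal

/-- the energy of all the coarser scales -/
noncomputable def eF (f : ℝ → ℝ≥0∞) (x : ℝ) : ℝ≥0∞ := ∑' i : ℕ, f ((2 : ℝ) ^ (i + 1) * x)

lemma measurable_eF {f : ℝ → ℝ≥0∞} (hf : Measurable f) : Measurable (eF f) := by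
  unfold eF
  exact Measurable.tsum fun i => hf.comp (measurable_id.const_mul _)

lemma eF_split (f : ℝ → ℝ≥0∞) (x : ℝ) : eF f x = f (2 * x) + eF f (2 * x) := by
  unfold eF
  have h := tsum_eq_zero_add' (f := fun i : ℕ => f ((2 : ℝ) ^ (i + 1) * x))
    ENNReal.summable
  rw [h]
  congr 1
  · norm_num
  · refine tsum_congr fun i => ?_
    congr 1
    ring

/-- the periodic factor -/
noncomputable def gF (f : ℝ → ℝ≥0∞) (x : ℝ) : ℝ≥0∞ := ∑' k : ℤ, f (2 * (x + k))

lemma gF_add_int (f : ℝ → ℝ≥0∞) (x : ℝ) (l : ℤ) : gF f (x + l) = gF f x := by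
  unfold gF
  rw [← (Equiv.addLeft l).tsum_eq (fun k : ℤ => f (2 * (x + k)))]
  congr 1; funext k
  simp only [Equiv.coe_addLeft]
  push_cast
  rw [add_assoc]

/-- the transversal of (least) maximisers -/
def maxSet (e : ℝ → ℝ≥0∞) (X : Set ℝ) : Set ℝ :=
  {x | x ∈ X ∧ ∀ k : ℤ, e (x + k) ≤ e x ∧ (k < 0 → e (x + k) < e x)}

lemma measurableSet_maxSet {e : ℝ → ℝ≥0∞} (he : Measurable e) {X : Set ℝ} (hX : MeasurableSet X) :
    MeasurableSet (maxSet e X) := by
  have : maxSet e X = X ∩ ⋂ k : ℤ, ({x | e (x + k) ≤ e x} ∩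
      (if k < 0 then {x | e (x + k) < e x} else univ)) := by
    ext x
    simp only [maxSet, mem_ofPred_eq, mem_inter_iff, mem_iInter]
    constructor
    · rintro ⟨h1, h2⟩
      refine ⟨h1, fun k => ⟨(h2 k).1, ?_⟩⟩
      split_ifs with hk
      · exact (h2 k).2 hk
      · trivial
    · rintro ⟨h1, h2⟩
      refine ⟨h1, fun k => ⟨(h2 k).1, fun hk => ?_⟩⟩
      have := (h2 k).2
      rw [if_pos hk] at this
      exact this
  rw [this]
  refine hX.inter (MeasurableSet.iInter fun k => ?_)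
  have hk : Measurable (fun x : ℝ => e (x + k)) := he.comp (measurable_id.add_const _)
  refine (measurableSet_le hk he).inter ?_
  split_ifs
  · exact measurableSet_lt hk he
  · exact MeasurableSet.univ

lemma maxSet_unique {e : ℝ → ℝ≥0∞} {X : Set ℝ} {x : ℝ} (hx : x ∈ maxSet e X) {k : ℤ}
    (hk : x + (k : ℝ) ∈ maxSet e X) : k = 0 := by
  by_contra hne
  rcases lt_or_gt_of_ne hne with h | h
  · have h1 := (hx.2 k).2 h
    have h2 := (hk.2 (-k)).1
    push_cast at h2
    rw [add_neg_cancel_right] at h2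
    exact absurd h1 (not_lt.2 h2)
  · have h1 := (hk.2 (-k)).2 (by omega)
    have h2 := (hx.2 k).1
    push_cast at h1
    rw [add_neg_cancel_right] at h1
    exact absurd h1 (not_lt.2 h2)

lemma maxSet_exists {e : ℝ → ℝ≥0∞} {X : Set ℝ}
    (hXT : ∀ x ∈ X, ∀ k : ℤ, x - (k : ℝ) ∈ X) {x : ℝ} (hx : x ∈ X)
    (h1 : ∑' k : ℤ, e (x + k) = 1) : ∃ k : ℤ, x - (k : ℝ) ∈ maxSet e X := by
  classical
  obtain ⟨k0, hk0⟩ : ∃ k : ℤ, e (x + k) ≠ 0 := by
    by_contra hcon
    push Not at hcon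
    simp [hcon] at h1
  have hfin : {k : ℤ | e (x + k0) ≤ e (x + k)}.Finite :=
    ENNReal.finite_const_le_of_tsum_ne_top (by rw [h1]; exact ENNReal.one_ne_top) hk0
  obtain ⟨k1, hk1m, hk1⟩ := hfin.toFinset.exists_max_image (fun k : ℤ => e (x + k))
    ⟨k0, by simp⟩
  have hmax : ∀ k : ℤ, e (x + k) ≤ e (x + k1) := by
    intro k
    by_cases hk : e (x + k0) ≤ e (x + k)
    · exact hk1 k (by simpa using hk)
    · push Not at hk
      exact hk.le.trans (by simpa using hk1m)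
  have hfin2 : {k : ℤ | e (x + k1) ≤ e (x + k)}.Finite := by
    refine ENNReal.finite_const_le_of_tsum_ne_top (by rw [h1]; exact ENNReal.one_ne_top) ?_
    intro h0
    have := hmax k0
    rw [h0] at this
    simp at this
    exact hk0 this
  obtain ⟨k2, hk2m, hk2⟩ := hfin2.toFinset.exists_min_image (fun k : ℤ => k) ⟨k1, by simp⟩
  have hk2m' : e (x + k1) ≤ e (x + k2) := by simpa using hk2m
  refine ⟨-k2, hXT x hx _, fun k => ⟨?_, fun hk => ?_⟩⟩
  · push_cast
    rw [sub_neg_eq_add]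
    have := hmax (k2 + k)
    push_cast at this
    rw [← add_assoc] at this
    exact this.trans hk2m'
  · push_cast
    rw [sub_neg_eq_add]
    by_contra hcon
    push Not at hcon
    have : k2 + k ∈ hfin2.toFinset := by
      simp only [Finite.mem_toFinset, mem_ofPred_eq]
      push_cast
      rw [← add_assoc]
      exact hk2m'.trans hcon
    have := hk2 _ this
    omega

lemma exists_eF_large {f : ℝ → ℝ≥0∞} {x : ℝ} (h3 : ∑' j : ℤ, f ((2 : ℝ) ^ j * x) = 1) :
    ∃ j : ℤ, 1 / 2 < eF f ((2 : ℝ) ^ (-j) * x) := by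
  classical
  have hlt : (1 / 2 : ℝ≥0∞) < ∑' j : ℤ, f ((2 : ℝ) ^ j * x) := by
    rw [h3, one_div]; exact ENNReal.one_half_lt_one
  rw [ENNReal.tsum_eq_iSup_sum, lt_iSup_iff] at hlt
  obtain ⟨F, hF⟩ := hlt
  obtain ⟨m, hm⟩ : ∃ m : ℤ, ∀ i ∈ F, m ≤ i := by
    obtain ⟨m, hm⟩ := F.bddBelow
    exact ⟨m, fun i hi => hm hi⟩
  refine ⟨1 - m, hF.trans_le ?_⟩
  have hinj : Set.InjOn (fun i : ℤ => (i - m).toNat) F := by
    intro i hi i' hi' h
    have h1 := hm i hi
    have h2 := hm i' hi'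
    simp only at h
    omega
  have : ∑ i ∈ F, f ((2 : ℝ) ^ i * x) =
      ∑ n ∈ F.image (fun i : ℤ => (i - m).toNat), f ((2 : ℝ) ^ (n + 1) * ((2 : ℝ) ^ (-(1 - m)) * x)) := by
    rw [Finset.sum_image hinj]
    refine Finset.sum_congr rfl fun i hi => ?_
    have h1 := hm i hi
    rw [← mul_assoc]
    congr 2
    rw [← zpow_natCast, ← zpow_add₀ (by norm_num : (2 : ℝ) ≠ 0)]
    congr 1
    push_cast
    rw [Int.toNat_of_nonneg (by omega)]
    ring
  rw [this]
  exact ENNReal.sum_le_tsum _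

/-- **The MRA case.** -/
theorem caseB {f : ℝ → ℝ≥0∞} (hf : Measurable f) {X : Set ℝ} (hXm : MeasurableSet X)
    (hXT : ∀ x ∈ X, ∀ k : ℤ, x - (k : ℝ) ∈ X) (hXD : ∀ x ∈ X, ∀ j : ℤ, (2 : ℝ) ^ j * x ∈ X)
    (h1 : ∀ x ∈ X, ∑' k : ℤ, eF f (x + k) = 1)
    (h2 : ∀ x ∈ X, f (2 * x) = gF f x * eF f x)
    (h3 : ∀ x ∈ X, ∑' j : ℤ, f ((2 : ℝ) ^ j * x) = 1) :
    ∃ W : Set ℝ, MeasurableSet W ∧
      (∀ x ∈ X, ∃! k : ℤ, x - (k : ℝ) ∈ W) ∧
      (∀ᵐ x : ℝ, x ∈ X → ∃! j : ℤ, (2 : ℝ) ^ (-j) * x ∈ W) ∧ (∀ x ∈ W, f x ≠ 0) := by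
  classical
  set e := eF f with he
  set S := maxSet e X with hS
  have hSm : MeasurableSet S := measurableSet_maxSet (measurable_eF hf) hXm
  have hXT' : ∀ x ∈ X, ∀ k : ℤ, x + (k : ℝ) ∈ X := by
    intro x hx k
    have := hXT x hx (-k)
    simpa using this
  have hpos : ∀ x ∈ S, e x ≠ 0 := by
    intro x hx h0
    have h := h1 x hx.1
    have : ∀ k : ℤ, e (x + k) = 0 := by
      intro k
      have := (hx.2 k).1
      rw [h0] at this
      simpa using this
    simp [this] at h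
  have hle : ∀ x ∈ X, e x ≤ 1 := by
    intro x hx
    rw [← h1 x hx]
    have := ENNReal.le_tsum (f := fun k : ℤ => e (x + k)) 0
    simpa using this
  have hG : ∀ y ∈ X, gF f y ≤ 1 := by
    intro y hy
    rw [← h1 y hy]
    unfold gF
    refine ENNReal.tsum_le_tsum fun k => ?_
    rw [he, eF_split f (y + k)]
    exact le_self_add
  have hscale : ∀ y ∈ X, ∀ k : ℤ, e (2 * (y + k)) = (1 - gF f y) * e (y + k) := by
    intro y hy k
    have ha := eF_split f (y + k)
    rw [h2 _ (hXT' y hy k), gF_add_int] at ha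
    have hfin : gF f y * e (y + k) ≠ ∞ :=
      ENNReal.mul_ne_top ((hG y hy).trans_lt ENNReal.one_lt_top).ne
        ((hle _ (hXT' y hy k)).trans_lt ENNReal.one_lt_top).ne
    rw [ENNReal.sub_mul (fun _ _ => ((hle _ (hXT' y hy k)).trans_lt ENNReal.one_lt_top).ne), one_mul]
    refine ENNReal.eq_sub_of_add_eq hfin ?_
    rw [add_comm]
    exact ha.symm
  have hhalf : ∀ x ∈ S, (2 : ℝ) ^ (-1 : ℤ) * x ∈ S := by
    intro x hx
    set y := (2 : ℝ) ^ (-1 : ℤ) * x with hy
    have hyX : y ∈ X := hXD x hx.1 (-1)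
    have h2y : 2 * y = x := by rw [hy, zpow_neg_one]; ring
    have hex : e x = (1 - gF f y) * e y := by
      have := hscale y hyX 0
      simp only [Int.cast_zero, add_zero] at this
      rwa [h2y] at this
    have hG0 : 1 - gF f y ≠ 0 := by
      intro h0
      rw [h0, zero_mul] at hex
      exact hpos x hx hex
    have hGt : 1 - gF f y ≠ ∞ := (tsub_le_self.trans_lt ENNReal.one_lt_top).ne
    refine ⟨hyX, fun k => ⟨?_, fun hk => ?_⟩⟩
    · have h := (hx.2 (2 * k)).1
      have h4 : x + ((2 * k : ℤ) : ℝ) = 2 * (y + k) := by rw [← h2y]; push_cast; ring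
      rw [h4, hscale y hyX k, hex] at h
      exact (ENNReal.mul_le_mul_iff_right hG0 hGt).1 h
    · have h := (hx.2 (2 * k)).2 (by omega)
      have h4 : x + ((2 * k : ℤ) : ℝ) = 2 * (y + k) := by rw [← h2y]; push_cast; ring
      rw [h4, hscale y hyX k, hex] at h
      exact (ENNReal.mul_lt_mul_iff_right hG0 hGt).1 h
  have hcomp : ∀ (i j : ℤ) (x : ℝ), (2 : ℝ) ^ i * ((2 : ℝ) ^ j * x) = (2 : ℝ) ^ (i + j) * x := by
    intro i j x
    rw [zpow_add₀ (by norm_num : (2 : ℝ) ≠ 0)]; ring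
  have hhalfn : ∀ x ∈ S, ∀ n : ℕ, (2 : ℝ) ^ (-(n : ℤ)) * x ∈ S := by
    intro x hx n
    induction n with
    | zero => simpa using hx
    | succ n ih =>
      have := hhalf _ ih
      rw [hcomp] at this
      push_cast
      rwa [show -((n : ℤ) + 1) = -1 + -(n : ℤ) by ring]
  have huniq : ∀ (x : ℝ) (k l : ℤ), x - (k : ℝ) ∈ S → x - (l : ℝ) ∈ S → k = l := by
    intro x k l hk hl
    have := maxSet_unique hk (k := k - l) (by
      push_cast
      rw [show x - (k : ℝ) + ((k : ℝ) - l) = x - l by ring]; exact hl)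
    omega
  refine ⟨{x | x ∈ X ∧ ((2 : ℝ) ^ (-1 : ℤ) * x ∈ S ∧ x ∉ S)}, ?_, ?_, ?_, ?_⟩
  · exact hXm.inter (((measurable_id.const_mul _) hSm).inter hSm.compl)
  · intro x hx
    obtain ⟨ks, hks⟩ := maxSet_exists (e := e) hXT hx (h1 x hx)
    have hx2 : (2 : ℝ) ^ (-1 : ℤ) * x ∈ X := hXD x hx _
    have hx3 : (2 : ℝ) ^ (-1 : ℤ) * (x - (1 : ℤ)) ∈ X := hXD _ (hXT x hx 1) _
    obtain ⟨k0, hk0⟩ := maxSet_exists (e := e) hXT hx2 (h1 _ hx2)
    obtain ⟨k1, hk1⟩ := maxSet_exists (e := e) hXT hx3 (h1 _ hx3)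
    have hP : ∀ k : ℤ, (2 : ℝ) ^ (-1 : ℤ) * (x - k) ∈ S ↔ k = 2 * k0 ∨ k = 2 * k1 + 1 := by
      intro k
      constructor
      · intro hk
        rcases Int.even_or_odd' k with ⟨m, hm | hm⟩
        · left
          have : (2 : ℝ) ^ (-1 : ℤ) * (x - k) = (2 : ℝ) ^ (-1 : ℤ) * x - m := by
            rw [hm]; push_cast; norm_num; ring
          rw [this] at hk
          rw [hm, huniq _ _ _ hk hk0]
        · right
          have : (2 : ℝ) ^ (-1 : ℤ) * (x - k) = (2 : ℝ) ^ (-1 : ℤ) * (x - (1 : ℤ)) - m := by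
            rw [hm]; push_cast; norm_num; ring
          rw [this] at hk
          rw [hm, huniq _ _ _ hk hk1]
      · rintro (rfl | rfl)
        · have : (2 : ℝ) ^ (-1 : ℤ) * (x - ((2 * k0 : ℤ) : ℝ)) = (2 : ℝ) ^ (-1 : ℤ) * x - k0 := by
            push_cast; norm_num; ring
          rw [this]; exact hk0
        · have : (2 : ℝ) ^ (-1 : ℤ) * (x - ((2 * k1 + 1 : ℤ) : ℝ)) =
              (2 : ℝ) ^ (-1 : ℤ) * (x - (1 : ℤ)) - k1 := by
            push_cast; norm_num; ring
          rw [this]; exact hk1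
    have hks' : ks = 2 * k0 ∨ ks = 2 * k1 + 1 := (hP ks).1 (hhalf _ hks)
    have hmem : ∀ k : ℤ, (x - (k : ℝ) ∈ {x | x ∈ X ∧ ((2 : ℝ) ^ (-1 : ℤ) * x ∈ S ∧ x ∉ S)}) ↔
        (k = 2 * k0 ∨ k = 2 * k1 + 1) ∧ k ≠ ks := by
      intro k
      simp only [mem_ofPred_eq]
      rw [hP]
      constructor
      · rintro ⟨_, h, h'⟩
        refine ⟨h, ?_⟩
        rintro rfl
        exact h' hks
      · rintro ⟨h, h'⟩
        refine ⟨hXT x hx k, h, fun h4 => h' (huniq x k ks h4 hks)⟩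
    rcases hks' with h | h
    · refine ⟨2 * k1 + 1, (hmem _).2 ⟨Or.inr rfl, by omega⟩, fun k hk => ?_⟩
      have := (hmem k).1 hk
      omega
    · refine ⟨2 * k0, (hmem _).2 ⟨Or.inl rfl, by omega⟩, fun k hk => ?_⟩
      have := (hmem k).1 hk
      omega
  · -- the exceptional set is null
    have hvS : volume S ≤ 1 := volume_le_one_of_pack hSm fun x hx k hk => maxSet_unique hx hk
    have hnull : volume {x : ℝ | ∀ j : ℤ, (2 : ℝ) ^ j * x ∈ S} = 0 := by
      have hb : ∀ n : ℕ, volume {x : ℝ | ∀ j : ℤ, (2 : ℝ) ^ j * x ∈ S} ≤ ENNReal.ofReal (1 / 2) ^ n := by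
        intro n
        calc volume {x : ℝ | ∀ j : ℤ, (2 : ℝ) ^ j * x ∈ S}
            ≤ volume ((fun x : ℝ => (2 : ℝ) ^ n * x) ⁻¹' S) := by
              refine measure_mono fun x hx => ?_
              have := hx n
              simpa using this
          _ = ENNReal.ofReal ((2 : ℝ) ^ n)⁻¹ * volume S := volume_preimage_mul _ (by positivity)
          _ ≤ ENNReal.ofReal ((2 : ℝ) ^ n)⁻¹ * 1 := by gcongr
          _ = ENNReal.ofReal (1 / 2) ^ n := by
              rw [mul_one, ← ENNReal.ofReal_pow (by norm_num)]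
              congr 1
              rw [one_div, inv_pow]
      have hlim : Filter.Tendsto (fun n : ℕ => ENNReal.ofReal (1 / 2) ^ n) Filter.atTop (nhds 0) := by
        refine ENNReal.tendsto_pow_atTop_nhds_zero_of_lt_one ?_
        rw [ENNReal.ofReal_lt_one]; norm_num
      exact le_antisymm (ge_of_tendsto' hlim hb) zero_le
    have hae : ∀ᵐ x : ℝ, x ∉ {x : ℝ | ∀ j : ℤ, (2 : ℝ) ^ j * x ∈ S} :=
      measure_eq_zero_iff_ae_notMem.1 hnull
    filter_upwards [hae] with x hxn hx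
    simp only [not_forall] at hxn
    obtain ⟨j1, hj1⟩ := hxn
    -- the set of good exponents is an up-set
    have hup : ∀ i j : ℤ, i ≤ j → (2 : ℝ) ^ (-i) * x ∈ S → (2 : ℝ) ^ (-j) * x ∈ S := by
      intro i j hij hi
      have := hhalfn _ hi (j - i).toNat
      rw [hcomp] at this
      rwa [show -(((j - i).toNat : ℕ) : ℤ) + -i = -j by omega] at this
    obtain ⟨j2, hj2⟩ := exists_eF_large (h3 x hx)
    have hj2S : (2 : ℝ) ^ (-j2) * x ∈ S := by
      set y := (2 : ℝ) ^ (-j2) * x with hy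
      have hyX : y ∈ X := hXD x hx _
      have hlt : ∀ k : ℤ, k ≠ 0 → e (y + k) < e y := by
        intro k hk
        have hsum := h1 y hyX
        have h5 : e (y + k) + e y ≤ 1 := by
          rw [← hsum]
          have := ENNReal.sum_le_tsum (f := fun k : ℤ => e (y + k)) {k, 0}
          rw [Finset.sum_pair hk] at this
          simpa using this
        by_contra hcon
        push Not at hcon
        have h6 : 1 / 2 < e (y + k) := hj2.trans_le hcon
        have h7 : (1 : ℝ≥0∞) < e (y + k) + e y := by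
          calc (1 : ℝ≥0∞) = 1 / 2 + 1 / 2 := by simp [ENNReal.inv_two_add_inv_two]
            _ < e (y + k) + e y := ENNReal.add_lt_add h6 hj2
        exact absurd h5 (not_le.2 h7)
      refine ⟨hyX, fun k => ⟨?_, fun hk => hlt k hk.ne⟩⟩
      by_cases hk : k = 0
      · rw [hk]; simp
      · exact (hlt k hk).le
    obtain ⟨j0, hj0, hmin⟩ := Int.exists_least_of_bdd
      (P := fun j : ℤ => (2 : ℝ) ^ (-j) * x ∈ S)
      ⟨-j1, fun j hj => by
        by_contra hlt
        push Not at hlt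
        apply hj1
        have := hup j (-j1) hlt.le hj
        rwa [neg_neg] at this⟩ ⟨j2, hj2S⟩
    have hmem : ∀ j : ℤ, ((2 : ℝ) ^ (-j) * x ∈ {x | x ∈ X ∧ ((2 : ℝ) ^ (-1 : ℤ) * x ∈ S ∧ x ∉ S)}) ↔
        j = j0 - 1 := by
      intro j
      simp only [mem_ofPred_eq]
      rw [hcomp, show -1 + -j = -(j + 1) by ring]
      constructor
      · rintro ⟨_, ha, hb⟩
        have h8 := hmin _ ha
        have h9 : ¬ j0 ≤ j := fun h => hb (hup _ _ h hj0)
        omega
      · rintro rfl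
        refine ⟨hXD x hx _, ?_, fun h => ?_⟩
        · rwa [sub_add_cancel]
        · have := hmin _ h; omega
    exact ⟨j0 - 1, (hmem _).2 rfl, fun j hj => (hmem j).1 hj⟩
  · rintro x ⟨hx, hyS, hxS⟩ hfx
    set y := (2 : ℝ) ^ (-1 : ℤ) * x with hy
    have hyX : y ∈ X := hXD x hx (-1)
    have h2y : 2 * y = x := by rw [hy, zpow_neg_one]; ring
    have hg : gF f y = 0 := by
      have := h2 y hyX
      rw [h2y, hfx] at this
      rcases mul_eq_zero.1 this.symm with h | h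
      · exact h
      · exact absurd h (hpos y hyS)
    have hsc : ∀ k : ℤ, e (x + ((2 * k : ℤ) : ℝ)) = e (y + k) := by
      intro k
      have h4 : x + ((2 * k : ℤ) : ℝ) = 2 * (y + k) := by rw [← h2y]; push_cast; ring
      rw [h4, hscale y hyX k, hg]; simp
    have hex : e x = e y := by
      have := hsc 0
      simpa using this
    have hodd : ∀ m : ℤ, e (x + ((2 * m + 1 : ℤ) : ℝ)) = 0 := by
      intro m
      have hs := h1 x hx
      have hs2 := h1 y hyX
      have hinj : Function.Injective (fun k : ℤ => 2 * k) := fun a b h => by simpa using h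
      have h5 : ∑' k : ℤ, e (x + ((2 * k : ℤ) : ℝ)) + e (x + ((2 * m + 1 : ℤ) : ℝ)) ≤
          ∑' k : ℤ, e (x + k) := by
        have hsplit : ∑' k : ℤ, e (x + k) =
            ∑' k : (range (fun k : ℤ => 2 * k)), e (x + ((k : ℤ) : ℝ)) +
            ∑' k : ((range (fun k : ℤ => 2 * k))ᶜ : Set ℤ), e (x + ((k : ℤ) : ℝ)) :=
          (ENNReal.summable.tsum_add_tsum_compl ENNReal.summable).symm
        rw [hsplit]
        refine add_le_add (le_of_eq ?_) ?_
        · exact (tsum_range (fun k : ℤ => e (x + (k : ℝ))) hinj).symm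
        · have hmem : (2 * m + 1) ∈ ((range (fun k : ℤ => 2 * k))ᶜ : Set ℤ) := by
            rintro ⟨k, hk⟩
            simp only at hk
            omega
          exact ENNReal.le_tsum (f := fun k : ((range (fun k : ℤ => 2 * k))ᶜ : Set ℤ) =>
            e (x + ((k : ℤ) : ℝ))) ⟨2 * m + 1, hmem⟩
      have h6 : ∑' k : ℤ, e (x + ((2 * k : ℤ) : ℝ)) = 1 := by
        rw [← hs2]; exact tsum_congr hsc
      rw [h6, hs] at h5
      have h7 : (1 : ℝ≥0∞) + e (x + ((2 * m + 1 : ℤ) : ℝ)) ≤ 1 + 0 := by simpa using h5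
      have := (ENNReal.add_le_add_iff_left ENNReal.one_ne_top).1 h7
      simpa using this
    apply hxS
    refine ⟨hx, fun k => ?_⟩
    rcases Int.even_or_odd' k with ⟨m, hm | hm⟩
    · rw [hm, hsc, hex]
      exact ⟨(hyS.2 m).1, fun h => (hyS.2 m).2 (by omega)⟩
    · rw [hm, hodd]
      have : 0 < e x := by rw [hex]; exact pos_iff_ne_zero.2 (hpos y hyS)
      exact ⟨zero_le, fun _ => this⟩

end Pool.Agent.Larson
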