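import Mathlib
import Pool.Agent.Larson.Calderon
import Pool.Agent.Larson.CaseA
import Pool.Agent.Larson.CaseB

/-!
The bracket inequality: the vectors of all positive scales over a point form a Parseval frame of
their span; consequences for the dimension function.
-/

namespace Pool.Agent.Larson

open MeasureTheory Set Filter Topology
open scoped ENNReal ComplexConjugate

/-- the bracket of two scales -/
noncomputable def Br (φ : ℝ → ℂ) (i j : ℕ) (x : ℝ) : ℂ :=
  ∑' k : ℤ, φ ((2:ℝ) ^ (i + 1) * (x + k)) * conj (φ ((2:ℝ) ^ (j + 1) * (x + k)))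

/-- the squared norm of a scale -/
noncomputable def Nr (φ : ℝ → ℂ) (i : ℕ) (x : ℝ) : ℝ≥0∞ :=
  ∑' k : ℤ, ‖φ ((2:ℝ) ^ (i + 1) * (x + k))‖ₑ ^ 2

lemma measurable_Br {φ : ℝ → ℂ} (hφ : Measurable φ) (i j : ℕ) : Measurable (Br φ i j) := by
  unfold Br
  refine Measurable.tsum fun k => ?_
  refine Measurable.mul ?_ ?_
  · exact hφ.comp ((measurable_id.add_const _).const_mul _)
  · exact Complex.continuous_conj.measurable.comp
      (hφ.comp ((measurable_id.add_const _).const_mul _))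

lemma measurable_Nr {φ : ℝ → ℂ} (hφ : Measurable φ) (i : ℕ) : Measurable (Nr φ i) := by
  unfold Nr
  refine Measurable.tsum fun k => ?_
  exact (hφ.comp ((measurable_id.add_const _).const_mul _)).enorm.pow_const 2

lemma integral_periodize {K : ℝ → ℂ} (hK : Integrable K) :
    ∫ x, K x = ∫ x in Ico (0 : ℝ) 1, ∑' k : ℤ, K (x + k) := by
  have h1 : ∫ x, K x = ∑' k : ℤ, ∫ x in Ico (k : ℝ) (k + 1), K x := by
    have h := hasSum_integral_iUnion (f := K) (μ := volume)
      (s := fun k : ℤ => Ico (k : ℝ) (k + 1)) (fun k => measurableSet_Ico)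
      (pairwise_disjoint_Ico_intCast ℝ) (by rw [iUnion_Ico_intCast]; exact hK.integrableOn)
    rw [iUnion_Ico_intCast, setIntegral_univ] at h
    exact h.tsum_eq.symm
  have h2 : ∀ k : ℤ, ∫ x in Ico (k : ℝ) (k + 1), K x = ∫ x in Ico (0 : ℝ) 1, K (x + k) := by
    intro k
    have hpre : (fun x : ℝ => x + (k : ℝ)) ⁻¹' (Ico (k : ℝ) (k + 1)) = Ico (0 : ℝ) 1 := by
      ext x; simp
    have := (measurePreserving_add_right (volume : Measure ℝ) (k : ℝ)).setIntegral_preimage_emb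
      (MeasurableEquiv.addRight (k : ℝ)).measurableEmbedding K (Ico (k : ℝ) (k + 1))
    rw [hpre] at this
    exact this.symm
  rw [h1, integral_tsum]
  · exact tsum_congr h2
  · intro k
    exact ((hK.comp_add_right (k : ℝ)).aestronglyMeasurable).restrict
  · rw [← lintegral_eq_tsum_shift (fun x => ‖K x‖ₑ)]
    exact hK.2.ne

/-- orthogonality between positive and nonpositive scales -/
lemma cf_scale_zero {φ : ℝ → ℂ} (hW : IsW φ) (i m : ℕ) (k : ℤ) :
    cf φ (fun x => φ ((2:ℝ) ^ (i + 1) * x)) (-(m : ℤ)) ((2:ℝ) ^ (-(m : ℤ)) * k) = 0 := by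
  have h := hW.orth (-((i : ℤ) + 1)) 0 (m : ℤ) k
  rw [if_neg (by omega), inner_Fw] at h
  have h2 : ((Real.sqrt ((2:ℝ) ^ (-(m:ℤ))) : ℝ) : ℂ) ≠ 0 := by
    rw [Ne, Complex.ofReal_eq_zero, Real.sqrt_eq_zero (by positivity)]
    positivity
  have h3 := (mul_eq_zero.1 h).resolve_left h2
  have h4 : cf φ (Fw φ (-((i : ℤ) + 1)) 0) (-(m : ℤ)) ((2:ℝ) ^ (-(m : ℤ)) * k) =
      ((Real.sqrt ((2:ℝ) ^ (i + 1)) : ℝ) : ℂ) *
        cf φ (fun x => φ ((2:ℝ) ^ (i + 1) * x)) (-(m : ℤ)) ((2:ℝ) ^ (-(m : ℤ)) * k) := by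
    unfold cf
    rw [← integral_const_mul]
    refine integral_congr_ae (ae_of_all _ fun x => ?_)
    simp only
    rw [Fw_eq]
    have h5 : (2:ℝ) ^ (-(-((i : ℤ) + 1))) = (2:ℝ) ^ (i + 1) := by
      rw [neg_neg, ← zpow_natCast]; push_cast; rfl
    rw [h5]
    simp only [Int.cast_zero, mul_zero, neg_zero, ex_zero, mul_one]
    ring
  rw [h4] at h3
  have h6 : ((Real.sqrt ((2:ℝ) ^ (i + 1)) : ℝ) : ℂ) ≠ 0 := by
    rw [Ne, Complex.ofReal_eq_zero, Real.sqrt_eq_zero (by positivity)]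
    positivity
  exact (mul_eq_zero.1 h3).resolve_left h6

/-- the test function -/
noncomputable def tf (φ : ℝ → ℂ) (i : ℕ) (s : Set ℝ) : ℝ → ℂ :=
  (perSet s).indicator (fun x => φ ((2:ℝ) ^ (i + 1) * x))

lemma measurable_tf {φ : ℝ → ℂ} (hφ : Measurable φ) (i : ℕ) {s : Set ℝ} (hs : MeasurableSet s) :
    Measurable (tf φ i s) :=
  (hφ.comp (measurable_const_mul _)).indicator (measurableSet_perSet hs)

lemma memLp_tf {φ : ℝ → ℂ} (hW : IsW φ) (i : ℕ) {s : Set ℝ} (hs : MeasurableSet s) :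
    MemLp (tf φ i s) 2 volume :=
  (memLp_scale hW.meas hW.memLp (a := (2:ℝ) ^ (i + 1)) (by positivity)).indicator
    (measurableSet_perSet hs)

lemma low_tf {φ : ℝ → ℂ} (hW : IsW φ) (i : ℕ) {s : Set ℝ} (hs : MeasurableSet s) (r : ℤ) :
    low φ (tf φ i s) r = 0 := by
  unfold low
  simp only [ENNReal.tsum_eq_zero]
  intro m k
  have hb := memLp_scale hW.meas hW.memLp (a := (2:ℝ) ^ (i + 1)) (by positivity)
  have h0 : cf φ (tf φ i s) (-(m : ℤ)) ((2:ℝ) ^ (-(m : ℤ)) * k + r) = 0 := by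
    have h1 : cf φ (tf φ i s) (-(m : ℤ)) ((2:ℝ) ^ (-(m : ℤ)) * k + r) =
        ∫ x in perSet s, φ ((2:ℝ) ^ (i + 1) * x) * conj (φ ((2:ℝ) ^ (-(m : ℤ)) * x)) *
          ex ((2:ℝ) ^ (-(m : ℤ)) * k + r) x := by
      unfold cf tf
      rw [← integral_indicator (measurableSet_perSet hs)]
      refine integral_congr_ae (ae_of_all _ fun x => ?_)
      simp only
      by_cases hx : x ∈ perSet s
      · rw [indicator_of_mem hx, indicator_of_mem hx]
      · rw [indicator_of_notMem hx, indicator_of_notMem hx]; ring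
    rw [h1]
    refine setIntegral_perSet_eq_zero
      (integrable_cf hW.meas hW.memLp hb (-(m : ℤ)) ((2:ℝ) ^ (-(m : ℤ)) * k + r)) ?_ hs
    intro n
    have h2 := cf_scale_zero hW i m (k + 2 ^ m * (r + n))
    rw [← h2]
    unfold cf
    refine integral_congr_ae (ae_of_all _ fun x => ?_)
    simp only
    rw [mul_assoc _ (ex ((2:ℝ) ^ (-(m : ℤ)) * k + r) x) (ex n x), ← ex_add]
    congr 2
    push_cast
    have h3 : (2:ℝ) ^ (-(m : ℤ)) * (2:ℝ) ^ m = 1 := by
      rw [zpow_neg, zpow_natCast]; exact inv_mul_cancel₀ (by positivity)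
    linear_combination (-((r:ℝ) + n)) * h3
  rw [h0]
  simp

lemma sq_tf_le {φ : ℝ → ℂ} (hW : IsW φ) (i j : ℕ) {s : Set ℝ} (hs : MeasurableSet s) :
    ∑' n : ℤ, sq φ (tf φ i s) (j + 1) n ≤
      ∫⁻ x in s, ‖Br φ i j x‖ₑ ^ 2 ∂(volume.restrict (Ico (0 : ℝ) 1)) := by
  have hb := memLp_scale hW.meas hW.memLp (a := (2:ℝ) ^ (i + 1)) (by positivity)
  have hcf : ∀ n : ℤ, cf φ (tf φ i s) ((j + 1 : ℕ) : ℤ) n =
      ∫ x in Ioc (0 : ℝ) (0 + 1), s.indicator (Br φ i j) x * ex (n / 1) x := by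
    intro n
    have hint := integrable_cf hW.meas hW.memLp (memLp_tf hW i hs) ((j + 1 : ℕ) : ℤ) n
    unfold cf
    rw [integral_periodize hint, zero_add, ← integral_Ico_eq_integral_Ioc]
    refine setIntegral_congr_fun measurableSet_Ico fun x hx => ?_
    simp only [div_one]
    have h1 : ∀ k : ℤ, tf φ i s (x + k) * conj (φ ((2:ℝ) ^ ((j + 1 : ℕ) : ℤ) * (x + k))) * ex n (x + k) =
        (s.indicator (fun _ => (1 : ℂ)) x * ex n x) *
          (φ ((2:ℝ) ^ (i + 1) * (x + k)) * conj (φ ((2:ℝ) ^ (j + 1) * (x + k)))) := by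
      intro k
      rw [ex_int_add, zpow_natCast]
      unfold tf
      by_cases hxs : x ∈ s
      · rw [indicator_of_mem hxs, indicator_of_mem]
        · ring
        · rw [add_int_mem_perSet, mem_perSet_of_mem_Ico hx]; exact hxs
      · rw [indicator_of_notMem hxs, indicator_of_notMem]
        · ring
        · rw [add_int_mem_perSet, mem_perSet_of_mem_Ico hx]; exact hxs
    rw [tsum_congr h1, tsum_mul_left]
    by_cases hxs : x ∈ s
    · rw [indicator_of_mem hxs, indicator_of_mem hxs]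
      unfold Br
      ring
    · rw [indicator_of_notMem hxs, indicator_of_notMem hxs]
      ring
  have hrw : ∫⁻ x in s, ‖Br φ i j x‖ₑ ^ 2 ∂(volume.restrict (Ico (0 : ℝ) 1)) =
      ∫⁻ x in Ioc (0 : ℝ) (0 + 1), ‖s.indicator (Br φ i j) x‖ₑ ^ 2 := by
    rw [zero_add, restrict_Ico_eq_restrict_Ioc, ← lintegral_indicator hs]
    refine lintegral_congr fun x => ?_
    by_cases hxs : x ∈ s
    · rw [indicator_of_mem hxs, indicator_of_mem hxs]
    · rw [indicator_of_notMem hxs, indicator_of_notMem hxs]; simp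
  rw [hrw]
  by_cases htop : ∫⁻ x in Ioc (0 : ℝ) (0 + 1), ‖s.indicator (Br φ i j) x‖ₑ ^ 2 = ∞
  · rw [htop]; exact le_top
  · have hm : Measurable (s.indicator (Br φ i j)) := (measurable_Br hW.meas i j).indicator hs
    have hL : MemLp (s.indicator (Br φ i j)) 2 (volume.restrict (Ioc (0 : ℝ) (0 + 1))) :=
      memLp_of_lintegral hm.aestronglyMeasurable htop
    have hp := parseval_Ioc (a := 0) one_pos hL
    rw [ENNReal.ofReal_one, one_mul] at hp
    rw [← hp]
    refine le_of_eq (tsum_congr fun n => ?_)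
    unfold sq
    rw [hcf n]

/-- The bracket inequality. -/
lemma bracket_ineq {φ : ℝ → ℂ} (hW : IsW φ) (i : ℕ) :
    ∀ᵐ x ∂(volume.restrict (Ico (0 : ℝ) 1)), Nr φ i x ≤ ∑' j : ℕ, ‖Br φ i j x‖ₑ ^ 2 := by
  refine ae_le_of_forall_setLIntegral_le_of_sigmaFinite (measurable_Nr hW.meas i) fun s hs _ => ?_
  have hlim := limit_identity hW (measurable_tf hW.meas i hs) (memLp_tf hW i hs) (c := 0)
    (fun r => low_tf hW i hs r)
  rw [zero_add] at hlim
  have h1 : ∫⁻ x, ‖tf φ i s x‖ₑ ^ 2 = ∫⁻ x in s, Nr φ i x ∂(volume.restrict (Ico (0 : ℝ) 1)) := by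
    unfold Nr
    have hm : Measurable (fun x : ℝ => ‖φ ((2:ℝ) ^ (i + 1) * x)‖ₑ ^ 2) :=
      (hW.meas.comp (measurable_const_mul _)).enorm.pow_const 2
    rw [← setLIntegral_perSet hm hs, ← lintegral_indicator (measurableSet_perSet hs)]
    refine lintegral_congr fun x => ?_
    unfold tf
    by_cases hx : x ∈ perSet s
    · rw [indicator_of_mem hx, indicator_of_mem hx]
    · rw [indicator_of_notMem hx, indicator_of_notMem hx]; simp
  rw [← h1, ← hlim, lintegral_tsum]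
  · exact ENNReal.tsum_le_tsum fun j => sq_tf_le hW i j hs
  · intro j
    exact ((measurable_Br hW.meas i j).enorm.pow_const 2).aemeasurable

end Pool.Agent.Larson
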