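import Mathlib
import Pool.Agent.Larson.Bracket

/-!
Cauchy-Schwarz in `ℓ²(ℤ)` and the dichotomy for the dimension function.
-/

namespace Pool.Agent.Larson

open MeasureTheory Set Filter Topology
open scoped ENNReal ComplexConjugate

lemma exists_l2 {v : ℤ → ℂ} (hv : ∑' k, ‖v k‖ₑ ^ 2 ≠ ∞) :
    ∃ V : lp (fun _ : ℤ => ℂ) 2, (∀ k, V k = v k) ∧ ENNReal.ofReal (‖V‖ ^ 2) = ∑' k, ‖v k‖ₑ ^ 2 := by
  have hs : Summable (fun k => ‖v k‖ ^ 2) := by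
    have := ENNReal.summable_toReal hv
    simpa [ENNReal.toReal_pow] using this
  have hm : Memℓp v 2 := by
    refine memℓp_gen ?_
    simpa using hs
  refine ⟨⟨v, hm⟩, fun k => rfl, ?_⟩
  have h1 := lp.norm_rpow_eq_tsum (p := 2) (by simp) (⟨v, hm⟩ : lp (fun _ : ℤ => ℂ) 2)
  simp only [ENNReal.toReal_ofNat, Real.rpow_ofNat] at h1
  rw [h1, ENNReal.ofReal_tsum_of_nonneg (fun k => by positivity) hs]
  refine tsum_congr fun k => ?_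
  rw [ENNReal.ofReal_pow (norm_nonneg _), ofReal_norm]

lemma inner_l2 (V W : lp (fun _ : ℤ => ℂ) 2) : inner ℂ W V = ∑' k, V k * conj (W k) := by
  rw [lp.inner_eq_tsum]
  refine tsum_congr fun k => ?_
  rw [RCLike.inner_apply]

lemma cs_le {v w : ℤ → ℂ} (hv : ∑' k, ‖v k‖ₑ ^ 2 ≠ ∞) (hw : ∑' k, ‖w k‖ₑ ^ 2 ≠ ∞) :
    ‖∑' k, v k * conj (w k)‖ₑ ^ 2 ≤ (∑' k, ‖v k‖ₑ ^ 2) * ∑' k, ‖w k‖ₑ ^ 2 := by
  obtain ⟨V, hV, hV2⟩ := exists_l2 hv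
  obtain ⟨W, hW, hW2⟩ := exists_l2 hw
  have h1 : ∑' k, v k * conj (w k) = inner ℂ W V := by
    rw [inner_l2]; exact tsum_congr fun k => by rw [hV, hW]
  rw [h1, ← hV2, ← hW2, ← ENNReal.ofReal_mul (by positivity), ← ofReal_norm,
    ← ENNReal.ofReal_pow (norm_nonneg _)]
  refine ENNReal.ofReal_le_ofReal ?_
  have := norm_inner_le_norm (𝕜 := ℂ) W V
  calc ‖inner ℂ W V‖ ^ 2 ≤ (‖W‖ * ‖V‖) ^ 2 := by gcongr
    _ = ‖V‖ ^ 2 * ‖W‖ ^ 2 := by ring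

lemma cs_eq {v w : ℤ → ℂ} (hv : ∑' k, ‖v k‖ₑ ^ 2 ≠ ∞) (hw : ∑' k, ‖w k‖ₑ ^ 2 ≠ ∞)
    (hv0 : ∑' k, ‖v k‖ₑ ^ 2 ≠ 0)
    (h : ‖∑' k, v k * conj (w k)‖ₑ ^ 2 = (∑' k, ‖v k‖ₑ ^ 2) * ∑' k, ‖w k‖ₑ ^ 2) :
    ∃ c : ℂ, ∀ k, w k = c * v k := by
  obtain ⟨V, hV, hV2⟩ := exists_l2 hv
  obtain ⟨W, hW, hW2⟩ := exists_l2 hw
  have h1 : ∑' k, v k * conj (w k) = inner ℂ W V := by
    rw [inner_l2]; exact tsum_congr fun k => by rw [hV, hW]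
  rw [h1, ← hV2, ← hW2, ← ENNReal.ofReal_mul (by positivity), ← ofReal_norm,
    ← ENNReal.ofReal_pow (norm_nonneg _)] at h
  have h2 : ‖inner ℂ W V‖ ^ 2 = ‖V‖ ^ 2 * ‖W‖ ^ 2 :=
    (ENNReal.ofReal_eq_ofReal_iff (by positivity) (by positivity)).1 h
  have h3 : ‖inner ℂ V W‖ = ‖V‖ * ‖W‖ := by
    rw [norm_inner_symm]
    have : ‖inner ℂ W V‖ ^ 2 = (‖V‖ * ‖W‖) ^ 2 := by rw [h2]; ring
    exact (pow_left_inj₀ (norm_nonneg _) (by positivity) two_ne_zero).1 this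
  have hV0 : V ≠ 0 := by
    rintro rfl
    apply hv0
    rw [← hV2]; simp
  have h4 := ((norm_inner_eq_norm_tfae ℂ V W).out 0 2).1 h3
  obtain ⟨r, hr⟩ := h4.resolve_left hV0
  refine ⟨r, fun k => ?_⟩
  rw [← hW, ← hV, hr]
  simp

/-- the energy density -/
noncomputable def en (φ : ℝ → ℂ) (x : ℝ) : ℝ≥0∞ := ‖φ x‖ₑ ^ 2

lemma measurable_en {φ : ℝ → ℂ} (hφ : Measurable φ) : Measurable (en φ) := hφ.enorm.pow_const 2

lemma dimF_eq (φ : ℝ → ℂ) (x : ℝ) : dimF (en φ) x = ∑' i : ℕ, Nr φ i x := rfl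

lemma dimF_eq' (f : ℝ → ℝ≥0∞) (x : ℝ) : dimF f x = ∑' k : ℤ, eF f (x + k) := by
  unfold dimF eF
  exact ENNReal.tsum_comm

lemma Nr_le_dimF (φ : ℝ → ℂ) (i : ℕ) (x : ℝ) : Nr φ i x ≤ dimF (en φ) x :=
  ENNReal.le_tsum i

/-- pointwise consequences of the bracket inequality -/
lemma dim_ge_one {φ : ℝ → ℂ} {x : ℝ} (hfin : dimF (en φ) x ≠ ∞)
    (hbr : ∀ i, Nr φ i x ≤ ∑' j : ℕ, ‖Br φ i j x‖ₑ ^ 2) (h0 : dimF (en φ) x ≠ 0) :
    1 ≤ dimF (en φ) x := by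
  have hNfin : ∀ i, Nr φ i x ≠ ∞ := fun i => ((Nr_le_dimF φ i x).trans_lt hfin.lt_top).ne
  obtain ⟨i, hi⟩ : ∃ i, Nr φ i x ≠ 0 := by
    by_contra hcon
    push Not at hcon
    apply h0
    rw [dimF_eq]
    simp [hcon]
  have h1 : Nr φ i x ≤ Nr φ i x * dimF (en φ) x := by
    calc Nr φ i x ≤ ∑' j : ℕ, ‖Br φ i j x‖ₑ ^ 2 := hbr i
      _ ≤ ∑' j : ℕ, Nr φ i x * Nr φ j x := by
          refine ENNReal.tsum_le_tsum fun j => ?_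
          exact cs_le (hNfin i) (hNfin j)
      _ = Nr φ i x * dimF (en φ) x := by rw [ENNReal.tsum_mul_left, dimF_eq]
  have h2 : Nr φ i x * 1 ≤ Nr φ i x * dimF (en φ) x := by rwa [mul_one]
  exact (ENNReal.mul_le_mul_iff_right hi (hNfin i)).1 h2

lemma scaling_of_dim_one {φ : ℝ → ℂ} {x : ℝ} (h1 : dimF (en φ) x = 1)
    (hbr : Nr φ 0 x ≤ ∑' j : ℕ, ‖Br φ 0 j x‖ₑ ^ 2) :
    en φ (2 * x) = gF (en φ) x * eF (en φ) x := by
  have hN0 : Nr φ 0 x = gF (en φ) x := by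
    unfold Nr gF en
    simp
  have hNfin : ∀ i, Nr φ i x ≠ ∞ := fun i =>
    ((Nr_le_dimF φ i x).trans_lt (by rw [h1]; exact ENNReal.one_lt_top)).ne
  have hx0 : en φ (2 * x) ≤ Nr φ 0 x := by
    rw [hN0]
    unfold gF
    have := ENNReal.le_tsum (f := fun k : ℤ => en φ (2 * (x + k))) 0
    simpa using this
  by_cases hz : Nr φ 0 x = 0
  · rw [← hN0, hz, zero_mul]
    rw [hz] at hx0
    simpa using hx0
  · -- all the Cauchy-Schwarz inequalities are equalities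
    have hle : ∀ j, ‖Br φ 0 j x‖ₑ ^ 2 ≤ Nr φ 0 x * Nr φ j x := fun j => cs_le (hNfin 0) (hNfin j)
    have hsum : ∑' j, Nr φ 0 x * Nr φ j x = Nr φ 0 x := by
      rw [ENNReal.tsum_mul_left, ← dimF_eq, h1, mul_one]
    have heq : ∀ j, ‖Br φ 0 j x‖ₑ ^ 2 = Nr φ 0 x * Nr φ j x := by
      intro j
      by_contra hne
      have hlt : ‖Br φ 0 j x‖ₑ ^ 2 < Nr φ 0 x * Nr φ j x := lt_of_le_of_ne (hle j) hne
      have hfin : ∑' j : ℕ, ‖Br φ 0 j x‖ₑ ^ 2 ≠ ∞ := by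
        refine ((ENNReal.tsum_le_tsum hle).trans_lt ?_).ne
        rw [hsum]; exact (hNfin 0).lt_top
      have := ENNReal.tsum_lt_tsum hfin hle hlt
      rw [hsum] at this
      exact absurd hbr (not_le.2 this)
    have hc : ∀ j, ∃ c : ℂ, ∀ k : ℤ, φ ((2:ℝ) ^ (j + 1) * (x + k)) =
        c * φ ((2:ℝ) ^ (0 + 1) * (x + k)) := fun j =>
      cs_eq (v := fun k : ℤ => φ ((2:ℝ) ^ (0 + 1) * (x + k)))
        (w := fun k : ℤ => φ ((2:ℝ) ^ (j + 1) * (x + k))) (hNfin 0) (hNfin j) hz (heq j)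
    choose c hc using hc
    have hNj : ∀ j, Nr φ j x = ‖c j‖ₑ ^ 2 * Nr φ 0 x := by
      intro j
      unfold Nr
      rw [← ENNReal.tsum_mul_left]
      refine tsum_congr fun k => ?_
      rw [hc j k, enorm_mul, mul_pow]
    have hej : ∀ j : ℕ, en φ ((2:ℝ) ^ (j + 1) * x) = ‖c j‖ₑ ^ 2 * en φ (2 * x) := by
      intro j
      have := hc j 0
      simp only [Int.cast_zero, add_zero, zero_add, pow_one] at this
      unfold en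
      rw [this, enorm_mul, mul_pow]
    have hcsum : (∑' j, ‖c j‖ₑ ^ 2) * Nr φ 0 x = 1 := by
      rw [← ENNReal.tsum_mul_right, ← h1, dimF_eq]
      exact tsum_congr fun j => (hNj j).symm
    rw [← hN0]
    unfold eF
    rw [tsum_congr hej, ENNReal.tsum_mul_right]
    calc en φ (2 * x) = 1 * en φ (2 * x) := (one_mul _).symm
      _ = ((∑' j, ‖c j‖ₑ ^ 2) * Nr φ 0 x) * en φ (2 * x) := by rw [hcsum]
      _ = _ := by ring

/-- the integral of the dimension function over a period is `1` -/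
lemma lintegral_dim {φ : ℝ → ℂ} (hφ : Measurable φ) (h1 : ∫⁻ x, en φ x = 1) :
    ∫⁻ x in Ico (0 : ℝ) 1, dimF (en φ) x = 1 := by
  have hm : ∀ i : ℕ, Measurable (fun x : ℝ => en φ ((2:ℝ) ^ (i + 1) * x)) := fun i =>
    (measurable_en hφ).comp (measurable_const_mul _)
  have hN : ∀ i : ℕ, ∫⁻ x in Ico (0 : ℝ) 1, Nr φ i x = (2 : ℝ≥0∞)⁻¹ ^ (i + 1) := by
    intro i
    have h2 := lintegral_periodize (hm i)
    have h3 : ∫⁻ x in Ico (0 : ℝ) 1, Nr φ i x = ∫⁻ x, en φ ((2:ℝ) ^ (i + 1) * x) := h2.symm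
    rw [h3, lintegral_scale (measurable_en hφ) (by positivity), h1, mul_one, ← inv_pow,
      ENNReal.ofReal_pow (by norm_num)]
    congr 1
    rw [ENNReal.ofReal_inv_of_pos (by norm_num)]
    simp
  have h4 : ∫⁻ x in Ico (0 : ℝ) 1, dimF (en φ) x = ∑' i : ℕ, ∫⁻ x in Ico (0 : ℝ) 1, Nr φ i x := by
    simp only [dimF_eq]
    rw [lintegral_tsum fun i => (measurable_Nr hφ i).aemeasurable]
  rw [h4, tsum_congr hN]
  have h5 : ∀ i : ℕ, (2 : ℝ≥0∞)⁻¹ ^ (i + 1) = (2 : ℝ≥0∞)⁻¹ * (2 : ℝ≥0∞)⁻¹ ^ i := by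
    intro i; rw [pow_succ]; ring
  rw [tsum_congr h5, ENNReal.tsum_mul_left, ENNReal.tsum_geometric]
  have h6 : (1 : ℝ≥0∞) - 2⁻¹ = 2⁻¹ := ENNReal.one_sub_inv_two
  rw [h6, inv_inv]
  exact ENNReal.inv_mul_cancel (by norm_num) (by norm_num)

end Pool.Agent.Larson
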