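import Mathlib
import Pool.Agent.Larson.Dichotomy

/-!
Assembly: every orthonormal dyadic wavelet has a wavelet set inside its frequency support.
-/

namespace Pool.Agent.Larson

open MeasureTheory Set Filter Topology
open scoped ENNReal ComplexConjugate

/-- ergodicity of doubling, transferred to the line -/
lemma exists_zero_of_ergodic {D : ℝ → ℝ≥0∞} (hD : Measurable D)
    (hper : ∀ (x : ℝ) (k : ℤ), D (x + k) = D x) (hne : ¬ ∀ᵐ x : ℝ, D x ≠ 0) :
    ∀ᵐ x : ℝ, ∃ n : ℕ, D ((2:ℝ) ^ n * x) = 0 := by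
  have : Fact ((0 : ℝ) < 1) := ⟨one_pos⟩
  set rep : AddCircle (1 : ℝ) → ℝ :=
    fun y => ((AddCircle.measurableEquivIco 1 0 y : Ico (0 : ℝ) (0 + 1)) : ℝ) with hrep
  have hrepm : Measurable rep :=
    measurable_subtype_coe.comp (AddCircle.measurableEquivIco 1 0).measurable
  have hrepc : ∀ x : ℝ, rep (x : AddCircle (1 : ℝ)) = Int.fract x := by
    intro x
    have h9 := AddCircle.coe_equivIco_mk_apply (1 : ℝ) x
    rw [div_one, mul_one] at h9
    exact h9
  have hDrep : ∀ x : ℝ, D (rep (x : AddCircle (1 : ℝ))) = D x := by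
    intro x
    rw [hrepc]
    have := hper (Int.fract x) ⌊x⌋
    rw [Int.fract_add_floor] at this
    exact this.symm
  set E : Set (AddCircle (1 : ℝ)) := {y | ∃ n : ℕ, D (rep ((2 ^ n : ℕ) • y)) = 0} with hE
  have hEm : MeasurableSet E := by
    have : E = ⋃ n : ℕ, (fun y : AddCircle (1 : ℝ) => D (rep ((2 ^ n : ℕ) • y))) ⁻¹' {0} := by
      ext y; simp [hE]
    rw [this]
    refine MeasurableSet.iUnion fun n => ?_
    have hc : Continuous (fun y : AddCircle (1 : ℝ) => (2 ^ n : ℕ) • y) := continuous_nsmul _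
    exact (hD.comp (hrepm.comp hc.measurable)) (measurableSet_singleton 0)
  have hcoe : ∀ (n : ℕ) (x : ℝ), D (rep ((2 ^ n : ℕ) • (x : AddCircle (1 : ℝ)))) = D ((2:ℝ) ^ n * x) := by
    intro n x
    rw [← hDrep ((2:ℝ) ^ n * x)]
    congr 2
    have : (2:ℝ) ^ n * x = (2 ^ n : ℕ) • x := by rw [nsmul_eq_mul]; push_cast; rfl
    rw [this]
    rfl
  have hsub : (fun y : AddCircle (1 : ℝ) => (2 : ℕ) • y) ⁻¹' E ⊆ E := by
    rintro y ⟨n, hn⟩
    refine ⟨n + 1, ?_⟩
    rw [smul_smul, ← pow_succ] at hn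
    exact hn
  have herg := AddCircle.ergodic_nsmul (T := (1 : ℝ)) (n := 2) (by norm_num)
  have hmp := AddCircle.measurePreserving_mk (1 : ℝ) 0
  rw [zero_add] at hmp
  rcases herg.ae_empty_or_univ_of_preimage_ae_le hEm.nullMeasurableSet
    (LE.le.eventuallyLE hsub) with h | h
  · exfalso
    apply hne
    have h1 : ∀ᵐ y : AddCircle (1 : ℝ), y ∉ E :=
      measure_eq_zero_iff_ae_notMem.1 (ae_eq_empty.1 h)
    have h2 := hmp.quasiMeasurePreserving.ae h1
    rw [← restrict_Ico_eq_restrict_Ioc] at h2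
    refine ae_of_ae_Ico (fun x k h => by rwa [hper] at h) ?_
    filter_upwards [h2] with x hx h0
    apply hx
    refine ⟨0, ?_⟩
    have := hcoe 0 x
    simp only [pow_zero, one_mul] at this ⊢
    exact this.trans h0
  · have h1 : ∀ᵐ y : AddCircle (1 : ℝ), y ∈ E := eventuallyEq_univ.1 h
    have h2 := hmp.quasiMeasurePreserving.ae h1
    rw [← restrict_Ico_eq_restrict_Ioc] at h2
    refine ae_of_ae_Ico (P := fun x => ∃ n : ℕ, D ((2:ℝ) ^ n * x) = 0) ?_ ?_
    · rintro x k ⟨n, hn⟩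
      refine ⟨n, ?_⟩
      have : (2:ℝ) ^ n * (x + k) = (2:ℝ) ^ n * x + ((2 ^ n * k : ℤ) : ℝ) := by push_cast; ring
      rwa [this, hper] at hn
    · filter_upwards [h2] with x hx
      obtain ⟨n, hn⟩ := hx
      exact ⟨n, by rw [← hcoe]; exact hn⟩

/-- the invariant core of a set under the dyadic affine group -/
def core (Y : Set ℝ) : Set ℝ := {x | ∀ (n : ℤ) (q : ℚ), (2:ℝ) ^ n * x + (q : ℝ) ∈ Y}

lemma measurableSet_core {Y : Set ℝ} (hY : MeasurableSet Y) : MeasurableSet (core Y) := by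
  have : core Y = ⋂ n : ℤ, ⋂ q : ℚ, (fun x : ℝ => (2:ℝ) ^ n * x + (q : ℝ)) ⁻¹' Y := by
    ext x; simp [core]
  rw [this]
  exact MeasurableSet.iInter fun n => MeasurableSet.iInter fun q =>
    ((measurable_id.const_mul _).add_const _) hY

lemma ae_mem_core {Y : Set ℝ} (hY : ∀ᵐ x : ℝ, x ∈ Y) : ∀ᵐ x : ℝ, x ∈ core Y := by
  unfold core
  simp only [mem_ofPred_eq]
  rw [ae_all_iff]
  intro n
  rw [ae_all_iff]
  intro q
  have h1 : Measure.QuasiMeasurePreserving (fun x : ℝ => (2:ℝ) ^ n * x) volume volume := by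
    refine ⟨measurable_const_mul _, ?_⟩
    rw [Real.map_volume_mul_left (by positivity)]
    exact Measure.smul_absolutelyContinuous
  have h2 := (measurePreserving_add_right (volume : Measure ℝ) (q : ℝ)).quasiMeasurePreserving
  exact (h2.comp h1).ae hY

lemma core_sub_int {Y : Set ℝ} : ∀ x ∈ core Y, ∀ k : ℤ, x - (k : ℝ) ∈ core Y := by
  intro x hx k n q
  have := hx n (q - 2 ^ n * k)
  push_cast at this
  convert this using 1
  ring

lemma core_zpow_mul {Y : Set ℝ} : ∀ x ∈ core Y, ∀ j : ℤ, (2:ℝ) ^ j * x ∈ core Y := by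
  intro x hx j n q
  have := hx (n + j) q
  rwa [zpow_add₀ (by norm_num : (2:ℝ) ≠ 0), mul_assoc] at this

lemma core_subset {Y : Set ℝ} : core Y ⊆ Y := by
  intro x hx
  have := hx 0 0
  simpa using this

/-- a measurable invariant conull set on which an almost sure property holds -/
lemma exists_core {P : ℝ → Prop} (hP : ∀ᵐ x : ℝ, P x) :
    ∃ X : Set ℝ, MeasurableSet X ∧ (∀ᵐ x : ℝ, x ∈ X) ∧
      (∀ x ∈ X, ∀ k : ℤ, x - (k : ℝ) ∈ X) ∧ (∀ x ∈ X, ∀ j : ℤ, (2:ℝ) ^ j * x ∈ X) ∧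
      ∀ x ∈ X, P x := by
  set Y : Set ℝ := (toMeasurable volume {x | ¬ P x})ᶜ with hY
  have hYm : MeasurableSet Y := (measurableSet_toMeasurable _ _).compl
  have hYae : ∀ᵐ x : ℝ, x ∈ Y := by
    have h0 : volume {x | ¬ P x} = 0 := hP
    have h1 : volume (toMeasurable volume {x | ¬ P x}) = 0 := by rw [measure_toMeasurable, h0]
    exact measure_eq_zero_iff_ae_notMem.1 h1
  refine ⟨core Y, measurableSet_core hYm, ae_mem_core hYae, core_sub_int, core_zpow_mul, ?_⟩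
  intro x hx
  have h2 := core_subset hx
  by_contra hcon
  exact h2 (subset_toMeasurable _ _ hcon)

lemma Br_add_int (φ : ℝ → ℂ) (i j : ℕ) (x : ℝ) (l : ℤ) : Br φ i j (x + l) = Br φ i j x := by
  unfold Br
  rw [← (Equiv.addLeft l).tsum_eq (fun k : ℤ => φ ((2:ℝ) ^ (i + 1) * (x + k)) *
    conj (φ ((2:ℝ) ^ (j + 1) * (x + k))))]
  refine tsum_congr fun k => ?_
  simp only [Equiv.coe_addLeft]
  push_cast
  rw [add_assoc]

lemma Nr_add_int (φ : ℝ → ℂ) (i : ℕ) (x : ℝ) (l : ℤ) : Nr φ i (x + l) = Nr φ i x := by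
  unfold Nr
  rw [← (Equiv.addLeft l).tsum_eq (fun k : ℤ => ‖φ ((2:ℝ) ^ (i + 1) * (x + k))‖ₑ ^ 2)]
  refine tsum_congr fun k => ?_
  simp only [Equiv.coe_addLeft]
  push_cast
  rw [add_assoc]

/-- **Main theorem**, for measurable representatives. -/
theorem main_measurable {φ : ℝ → ℂ} (hW : IsW φ) :
    ∃ W : Set ℝ, MeasurableSet W ∧
      (∀ᵐ x : ℝ, ∃! k : ℤ, x - (k : ℝ) ∈ W) ∧
      (∀ᵐ x : ℝ, ∃! j : ℤ, (2:ℝ) ^ (-j) * x ∈ W) ∧ (∀ x ∈ W, φ x ≠ 0) := by
  have hφ := hW.meas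
  have hen := measurable_en hφ
  -- correlations at scale zero
  have hcorr : ∀ n : ℤ, ∫ x, (φ x * conj (φ x)) * ex n x = if n = 0 then 1 else 0 := by
    intro n
    have h := hW.orth 0 0 0 n
    have h2 : (if (0:ℤ) = 0 ∧ (0:ℤ) = n then (1:ℂ) else 0) = if n = 0 then 1 else 0 := by
      by_cases hn : n = 0
      · simp [hn]
      · rw [if_neg hn, if_neg]
        rintro ⟨_, h⟩
        exact hn h.symm
    rw [h2] at h
    rw [← h]
    refine integral_congr_ae (ae_of_all _ fun x => ?_)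
    simp only
    rw [Fw_eq, Fw_eq]
    simp only [neg_zero, zpow_zero, Real.sqrt_one, Complex.ofReal_one, one_mul, Int.cast_zero,
      ex_zero, map_mul, conj_ex, neg_neg]
    ring
  have hint1 : ∫⁻ x, en φ x = 1 := by
    have h0 := hcorr 0
    simp only [Int.cast_zero, ex_zero, mul_one, if_true] at h0
    have h1 : ∫ x, ‖φ x‖ ^ 2 = 1 := by
      have h2 : ∫ x, ((‖φ x‖ ^ 2 : ℝ) : ℂ) = 1 := by
        rw [← h0]
        refine integral_congr_ae (ae_of_all _ fun x => ?_)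
        simp only
        rw [Complex.mul_conj, Complex.normSq_eq_norm_sq]
      rw [integral_complex_ofReal] at h2
      exact_mod_cast h2
    have h3 : ENNReal.ofReal (∫ x, ‖φ x‖ ^ 2) = ∫⁻ x, en φ x := by
      rw [ofReal_integral_eq_lintegral_ofReal]
      · refine lintegral_congr fun x => ?_
        unfold en
        rw [ENNReal.ofReal_pow (norm_nonneg _), ofReal_norm]
      · exact (memLp_two_iff_integrable_sq_norm hW.memLp.1).1 hW.memLp
      · exact ae_of_all _ fun x => by positivity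
    rw [← h3, h1]; simp
  have hrow : ∀ᵐ x : ℝ, ∑' k : ℤ, en φ (x + k) = 1 :=
    ae_tsum_eq_one hφ (lintegral_enorm_sq_ne_top hW.memLp) hcorr
  have hcol : ∀ᵐ x : ℝ, ∑' j : ℤ, en φ ((2:ℝ) ^ j * x) = 1 := calderon hW
  have hbr : ∀ᵐ x : ℝ, ∀ i, Nr φ i x ≤ ∑' j : ℕ, ‖Br φ i j x‖ₑ ^ 2 := by
    rw [ae_all_iff]
    intro i
    refine ae_of_ae_Ico ?_ (bracket_ineq hW i)
    intro x k h
    rw [Nr_add_int] at h
    simpa only [Br_add_int] using h
  have hdimI := lintegral_dim hφ hint1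
  have hdfin : ∀ᵐ x : ℝ, dimF (en φ) x ≠ ∞ := by
    refine ae_of_ae_Ico (fun x k h => by rwa [dimF_add_int] at h) ?_
    have := ae_lt_top (measurable_dimF hen) (by rw [hdimI]; exact ENNReal.one_ne_top)
    filter_upwards [this] with x hx using hx.ne
  by_cases hD : ∀ᵐ x : ℝ, dimF (en φ) x ≠ 0
  · -- MRA case
    have hge : ∀ᵐ x : ℝ, 1 ≤ dimF (en φ) x := by
      filter_upwards [hD, hdfin, hbr] with x h0 hf hb
      exact dim_ge_one hf hb h0
    have hone : ∀ᵐ x : ℝ, dimF (en φ) x = 1 := by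
      refine ae_of_ae_Ico (fun x k h => by rwa [dimF_add_int] at h) ?_
      have h1 : (fun _ : ℝ => (1 : ℝ≥0∞)) ≤ᵐ[volume.restrict (Ico (0:ℝ) 1)] dimF (en φ) :=
        ae_restrict_of_ae hge
      have h2 := ae_eq_of_ae_le_of_lintegral_le h1 (by simp) (measurable_dimF hen).aemeasurable
        (by rw [hdimI]; simp)
      filter_upwards [h2] with x hx using hx.symm
    have hall : ∀ᵐ x : ℝ, (∑' k : ℤ, eF (en φ) (x + k) = 1 ∧
        en φ (2 * x) = gF (en φ) x * eF (en φ) x) ∧ ∑' j : ℤ, en φ ((2:ℝ) ^ j * x) = 1 := by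
      filter_upwards [hone, hbr, hcol] with x h1 hb hc
      exact ⟨⟨by rw [← dimF_eq']; exact h1, scaling_of_dim_one h1 (hb 0)⟩, hc⟩
    obtain ⟨X, hXm, hXae, hXT, hXD, hXP⟩ := exists_core hall
    obtain ⟨W, hWm, hWT, hWD, hWs⟩ := caseB hen hXm hXT hXD (fun x hx => (hXP x hx).1.1)
      (fun x hx => (hXP x hx).1.2) (fun x hx => (hXP x hx).2)
    refine ⟨W, hWm, ?_, ?_, ?_⟩
    · filter_upwards [hXae] with x hx using hWT x hx
    · filter_upwards [hXae, hWD] with x hx h using h hx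
    · intro x hx h0
      apply hWs x hx
      unfold en
      rw [h0]; simp
  · -- non-MRA case
    have hzero := exists_zero_of_ergodic (measurable_dimF hen) (fun x k => dimF_add_int _ x k) hD
    have hall : ∀ᵐ x : ℝ, (∑' k : ℤ, en φ (x + k) = 1 ∧
        ∑' j : ℤ, en φ ((2:ℝ) ^ j * x) = 1) ∧ ∃ n : ℕ, dimF (en φ) ((2:ℝ) ^ n * x) = 0 := by
      filter_upwards [hrow, hcol, hzero] with x h1 h2 h3
      exact ⟨⟨h1, h2⟩, h3⟩
    obtain ⟨X, hXm, hXae, hXT, hXD, hXP⟩ := exists_core hall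
    obtain ⟨W, hWm, hWT, hWD, hWs⟩ := caseA hen hXm hXT hXD (fun x hx => (hXP x hx).1.1)
      (fun x hx => (hXP x hx).1.2) (fun x hx => (hXP x hx).2)
    refine ⟨W, hWm, ?_, ?_, ?_⟩
    · filter_upwards [hXae] with x hx using hWT x hx
    · filter_upwards [hXae] with x hx using hWD x hx
    · intro x hx h0
      apply hWs x hx
      unfold en
      rw [h0]; simp

end Pool.Agent.Larson
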