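import Mathlib
import Pool.Agent.Larson.Main

/-!
The time side: the Fourier transform of the dyadic wavelet system of an element of `L²(ℝ)`.
-/

namespace Pool.Agent.Larson

open MeasureTheory Set Filter Topology FourierTransform SchwartzMap
open scoped ENNReal ComplexConjugate

/-- `L²(ℝ)` -/
abbrev HH : Type := Lp ℂ 2 (volume : Measure ℝ)

lemma eLpNorm_eq_of_lintegral {f g : ℝ → ℂ} (h : ∫⁻ x, ‖f x‖ₑ ^ 2 = ∫⁻ x, ‖g x‖ₑ ^ 2) :
    eLpNorm f 2 volume = eLpNorm g 2 volume := by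
  have hf := eLpNorm_nnreal_pow_eq_lintegral (p := 2) (μ := (volume : Measure ℝ)) (f := f)
    two_ne_zero
  have hg := eLpNorm_nnreal_pow_eq_lintegral (p := 2) (μ := (volume : Measure ℝ)) (f := g)
    two_ne_zero
  have h3 : ((2 : NNReal) : ℝ≥0∞) = 2 := by norm_num
  rw [h3] at hf hg
  simp only [NNReal.coe_ofNat] at hf hg
  have h4 : ∀ k : ℝ → ℂ, ∫⁻ x, ‖k x‖ₑ ^ 2 = ∫⁻ x, ‖k x‖ₑ ^ (2 : ℝ) := by
    intro k
    refine lintegral_congr fun x => ?_
    simp
  rw [h4, h4] at h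
  rw [← hf, ← hg] at h
  exact ENNReal.rpow_left_injective (by norm_num : (2 : ℝ) ≠ 0) h

/-- operators on functions which induce linear isometries of `L²` -/
structure IsoOp (T : (ℝ → ℂ) → ℝ → ℂ) : Prop where
  add : ∀ f g x, T (fun y => f y + g y) x = T f x + T g x
  smul : ∀ (c : ℂ) f x, T (fun y => c * f y) x = c * T f x
  congr : ∀ f g : ℝ → ℂ, f =ᵐ[volume] g → T f =ᵐ[volume] T g
  meas : ∀ f, Measurable f → Measurable (T f)
  isom : ∀ f, Measurable f → ∫⁻ x, ‖T f x‖ₑ ^ 2 = ∫⁻ x, ‖f x‖ₑ ^ 2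

lemma IsoOp.memLp {T : (ℝ → ℂ) → ℝ → ℂ} (h : IsoOp T) (f : HH) : MemLp (T f) 2 volume := by
  have hfm : Measurable (f : ℝ → ℂ) := (Lp.stronglyMeasurable f).measurable
  refine memLp_of_lintegral (h.meas _ hfm).aestronglyMeasurable ?_
  rw [h.isom _ hfm]
  exact lintegral_enorm_sq_ne_top (Lp.memLp f)

/-- the induced isometry -/
noncomputable def IsoOp.op {T : (ℝ → ℂ) → ℝ → ℂ} (h : IsoOp T) : HH →ₗᵢ[ℂ] HH where
  toFun f := (h.memLp f).toLp
  map_add' f g := by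
    refine Lp.ext ?_
    have h1 : T ((f + g : HH) : ℝ → ℂ) =ᵐ[volume] T (fun y => f y + g y) :=
      h.congr _ _ (Lp.coeFn_add f g)
    filter_upwards [(h.memLp (f + g)).coeFn_toLp, (h.memLp f).coeFn_toLp, (h.memLp g).coeFn_toLp,
      Lp.coeFn_add (h.memLp f).toLp (h.memLp g).toLp, h1] with x e1 e2 e3 e4 e5
    rw [e1, e4, Pi.add_apply, e2, e3, e5, h.add]
  map_smul' c f := by
    refine Lp.ext ?_
    have h1 : T ((c • f : HH) : ℝ → ℂ) =ᵐ[volume] T (fun y => c * f y) :=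
      h.congr _ _ (Lp.coeFn_smul c f)
    filter_upwards [(h.memLp (c • f)).coeFn_toLp, (h.memLp f).coeFn_toLp,
      Lp.coeFn_smul c (h.memLp f).toLp, h1] with x e1 e2 e4 e5
    rw [e1, RingHom.id_apply, e4, Pi.smul_apply, e2, e5, h.smul, smul_eq_mul]
  norm_map' f := by
    change ‖(h.memLp f).toLp‖ = ‖f‖
    rw [Lp.norm_toLp, Lp.norm_def]
    congr 1
    exact eLpNorm_eq_of_lintegral (h.isom _ (Lp.stronglyMeasurable f).measurable)

lemma IsoOp.op_ae {T : (ℝ → ℂ) → ℝ → ℂ} (h : IsoOp T) (f : HH) :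
    (h.op f : ℝ → ℂ) =ᵐ[volume] T f := (h.memLp f).coeFn_toLp

/-- the time side operator -/
noncomputable def Tw (j k : ℤ) (f : ℝ → ℂ) (x : ℝ) : ℂ :=
  (((2 : ℝ) ^ ((j : ℝ) / 2) : ℝ) : ℂ) * f ((2 : ℝ) ^ j * x - k)

lemma qmp_affine (a : ℝ) (ha : 0 < a) (b : ℝ) :
    Measure.QuasiMeasurePreserving (fun x : ℝ => a * x - b) volume volume := by
  have h1 : Measure.QuasiMeasurePreserving (fun x : ℝ => a * x) volume volume := by
    refine ⟨measurable_const_mul _, ?_⟩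
    rw [Real.map_volume_mul_left ha.ne']
    exact Measure.smul_absolutelyContinuous
  exact (measurePreserving_sub_right (volume : Measure ℝ) b).quasiMeasurePreserving.comp h1

lemma lintegral_affine {g : ℝ → ℝ≥0∞} (hg : Measurable g) {a : ℝ} (ha : 0 < a) (b : ℝ) :
    ∫⁻ x, g (a * x - b) = ENNReal.ofReal a⁻¹ * ∫⁻ x, g x := by
  have h1 := lintegral_scale (g := fun y => g (y - b)) (hg.comp (measurable_id.sub_const _)) ha
  rw [h1, lintegral_sub_right_eq_self]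

lemma tw_isoOp (j k : ℤ) : IsoOp (Tw j k) where
  add f g x := by unfold Tw; ring
  smul c f x := by unfold Tw; ring
  congr f g h := by
    have := (qmp_affine ((2 : ℝ) ^ j) (by positivity) k).ae_eq_comp h
    filter_upwards [this] with x hx
    unfold Tw
    simp only [Function.comp] at hx
    rw [hx]
  meas f hf := measurable_const.mul (hf.comp ((measurable_const_mul _).sub_const _))
  isom f hf := by
    have h1 : ∀ x, ‖Tw j k f x‖ₑ ^ 2 = ENNReal.ofReal ((2 : ℝ) ^ j) *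
        (fun y => ‖f y‖ₑ ^ 2) ((2 : ℝ) ^ j * x - k) := by
      intro x
      unfold Tw
      rw [enorm_mul, mul_pow]
      congr 1
      rw [← ofReal_norm, Complex.norm_real, Real.norm_of_nonneg (by positivity),
        ← ENNReal.ofReal_pow (by positivity), ← Real.rpow_natCast, ← Real.rpow_mul (by norm_num)]
      congr 1
      rw [show ((j : ℝ) / 2 * ((2 : ℕ) : ℝ)) = (j : ℝ) by push_cast; ring, Real.rpow_intCast]
    have hm : Measurable (fun x : ℝ => (fun y => ‖f y‖ₑ ^ 2) ((2 : ℝ) ^ j * x - k)) :=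
      (hf.enorm.pow_const 2).comp ((measurable_const_mul _).sub_const _)
    rw [lintegral_congr h1, lintegral_const_mul _ hm, lintegral_affine (hf.enorm.pow_const 2)
      (by positivity), ← mul_assoc, ← ENNReal.ofReal_mul (by positivity),
      mul_inv_cancel₀ (by positivity), ENNReal.ofReal_one, one_mul]

lemma fw_isoOp (j k : ℤ) : IsoOp (fun f => Fw f j k) where
  add f g x := by unfold Fw; ring
  smul c f x := by unfold Fw; ring
  congr f g h := by
    have h1 : Measure.QuasiMeasurePreserving (fun x : ℝ => (2:ℝ) ^ (-j) * x) volume volume := by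
      refine ⟨measurable_const_mul _, ?_⟩
      rw [Real.map_volume_mul_left (by positivity)]
      exact Measure.smul_absolutelyContinuous
    filter_upwards [h1.ae_eq_comp h] with x hx
    simp only [Function.comp] at hx
    unfold Fw
    rw [hx]
  meas f hf := by
    have : Fw f j k = fun ξ => ((Real.sqrt ((2:ℝ) ^ (-j)) : ℝ) : ℂ) *
        ex (-((2:ℝ) ^ (-j) * k)) ξ * f (((2:ℝ) ^ (-j)) * ξ) := funext fun ξ => Fw_eq f j k ξ
    rw [this]
    exact (measurable_const.mul (measurable_ex _)).mul (hf.comp (measurable_const_mul _))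
  isom f hf := by
    have h1 : ∀ x, ‖Fw f j k x‖ₑ ^ 2 = ENNReal.ofReal ((2 : ℝ) ^ (-j)) *
        (fun y => ‖f y‖ₑ ^ 2) ((2 : ℝ) ^ (-j) * x) := by
      intro x
      rw [Fw_eq, enorm_mul, enorm_mul, enorm_ex, mul_one, mul_pow]
      congr 1
      rw [← ofReal_norm, Complex.norm_real, Real.norm_of_nonneg (Real.sqrt_nonneg _),
        ← ENNReal.ofReal_pow (Real.sqrt_nonneg _), Real.sq_sqrt (by positivity)]
    have hm : Measurable (fun x : ℝ => (fun y => ‖f y‖ₑ ^ 2) ((2 : ℝ) ^ (-j) * x)) :=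
      (hf.enorm.pow_const 2).comp (measurable_const_mul _)
    rw [lintegral_congr h1, lintegral_const_mul _ hm, lintegral_scale (hf.enorm.pow_const 2)
      (by positivity), ← mul_assoc, ← ENNReal.ofReal_mul (by positivity),
      mul_inv_cancel₀ (by positivity), ENNReal.ofReal_one, one_mul]

/-- the time side operator on Schwartz functions -/
noncomputable def Sw (j k : ℤ) (f : 𝓢(ℝ, ℂ)) : 𝓢(ℝ, ℂ) :=
  (((2 : ℝ) ^ ((j : ℝ) / 2) : ℝ) : ℂ) •
    (compCLMOfContinuousLinearEquiv ℂ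
      (ContinuousLinearEquiv.smulLeft (Units.mk0 ((2 : ℝ) ^ j) (by positivity)) : ℝ ≃L[ℝ] ℝ)
        f).compSubConstCLM ℂ ((2 : ℝ) ^ (-j) * k)

lemma Sw_apply (j k : ℤ) (f : 𝓢(ℝ, ℂ)) (x : ℝ) : Sw j k f x = Tw j k f x := by
  have h1 : (2 : ℝ) ^ j * (x - (2 : ℝ) ^ (-j) * k) = (2 : ℝ) ^ j * x - k := by
    rw [mul_sub, ← mul_assoc, ← zpow_add₀ (by norm_num : (2 : ℝ) ≠ 0), add_neg_cancel, zpow_zero,
      one_mul]
  unfold Tw
  rw [← h1]
  rfl

lemma fourier_Sw (j k : ℤ) (f : 𝓢(ℝ, ℂ)) (w : ℝ) :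
    (𝓕 (Sw j k f) : 𝓢(ℝ, ℂ)) w = Fw (𝓕 f : 𝓢(ℝ, ℂ)) j k w := by
  have hL : (𝓕 (Sw j k f) : 𝓢(ℝ, ℂ)) w = ∫ v : ℝ, Complex.exp (↑(-2 * Real.pi * v * w) * Complex.I) •
      Tw j k f v := by
    rw [fourier_coe, Real.fourier_real_eq_integral_exp_smul]
    simp only [Sw_apply]
  have hR : ∀ u, (𝓕 f : 𝓢(ℝ, ℂ)) u = ∫ v : ℝ, Complex.exp (↑(-2 * Real.pi * v * u) * Complex.I) • f v := by
    intro u
    rw [fourier_coe, Real.fourier_real_eq_integral_exp_smul]
  have ha : (0 : ℝ) < (2 : ℝ) ^ j := by positivity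
  -- substitution
  set G : ℝ → ℂ := fun y => Complex.exp (↑(-2 * Real.pi * ((2 : ℝ) ^ (-j) * (y + k)) * w) *
    Complex.I) * ((((2 : ℝ) ^ ((j : ℝ) / 2) : ℝ) : ℂ) * f y) with hG
  have h1 : ∀ v : ℝ, Complex.exp (↑(-2 * Real.pi * v * w) * Complex.I) • Tw j k f v =
      G ((2 : ℝ) ^ j * v - k) := by
    intro v
    have e1 : (2 : ℝ) ^ (-j) * ((2 : ℝ) ^ j * v - k + k) = v := by
      rw [sub_add_cancel, ← mul_assoc, ← zpow_add₀ (by norm_num : (2 : ℝ) ≠ 0), neg_add_cancel,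
        zpow_zero, one_mul]
    rw [hG]
    simp only
    rw [e1]
    rfl
  have h2 : ∫ v : ℝ, G ((2 : ℝ) ^ j * v - k) = (((2 : ℝ) ^ j)⁻¹ : ℝ) • ∫ y, G y := by
    have h3 := Measure.integral_comp_mul_left (fun y : ℝ => G (y - k)) ((2 : ℝ) ^ j)
    rw [h3, abs_of_pos (inv_pos.2 ha)]
    congr 1
    exact integral_sub_right_eq_self G (k : ℝ)
  have h4 : ∀ y, G y = ((((2 : ℝ) ^ ((j : ℝ) / 2) : ℝ) : ℂ) *
      Complex.exp (-(2 * (Real.pi : ℂ) * Complex.I * (k : ℂ) * ((((2:ℝ) ^ (-j)) * w : ℝ) : ℂ)))) *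
        (Complex.exp (↑(-2 * Real.pi * y * ((2 : ℝ) ^ (-j) * w)) * Complex.I) • f y) := by
    intro y
    rw [hG]
    simp only
    have e2 : (↑(-2 * Real.pi * ((2 : ℝ) ^ (-j) * (y + k)) * w) * Complex.I : ℂ) =
        -(2 * (Real.pi : ℂ) * Complex.I * (k : ℂ) * ((((2:ℝ) ^ (-j)) * w : ℝ) : ℂ)) +
          ↑(-2 * Real.pi * y * ((2 : ℝ) ^ (-j) * w)) * Complex.I := by
      push_cast
      ring
    rw [e2, Complex.exp_add, smul_eq_mul]
    ring
  rw [hL, integral_congr_ae (ae_of_all _ h1), h2, integral_congr_ae (ae_of_all _ h4),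
    integral_const_mul, ← hR]
  unfold Fw
  have h5 : ((((2 : ℝ) ^ j)⁻¹ : ℝ) : ℂ) * (((2 : ℝ) ^ ((j : ℝ) / 2) : ℝ) : ℂ) =
      ((Real.sqrt ((2:ℝ) ^ (-j)) : ℝ) : ℂ) := by
    rw [← Complex.ofReal_mul]
    congr 1
    rw [Real.sqrt_eq_rpow, ← Real.rpow_intCast, ← Real.rpow_intCast, ← Real.rpow_neg (by norm_num),
      ← Real.rpow_add (by norm_num), ← Real.rpow_mul (by norm_num)]
    congr 1
    push_cast
    ring
  rw [← h5, Complex.real_smul]
  ring

lemma fourier_op (j k : ℤ) (f : HH) :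
    𝓕 ((tw_isoOp j k).op f) = (fw_isoOp j k).op (𝓕 f) := by
  have hd := SchwartzMap.denseRange_toLpCLM (E := ℝ) (F := ℂ) (p := 2) (μ := volume)
    ENNReal.ofNat_ne_top
  refine DenseRange.induction_on (p := fun f : HH => 𝓕 ((tw_isoOp j k).op f) =
    (fw_isoOp j k).op (𝓕 f)) hd f ?_ ?_
  · refine isClosed_eq ?_ ?_
    · exact (Lp.fourierTransformₗᵢ ℝ ℂ).continuous.comp (tw_isoOp j k).op.continuous
    · exact (fw_isoOp j k).op.continuous.comp (Lp.fourierTransformₗᵢ ℝ ℂ).continuous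
  · intro g
    have h1 : (tw_isoOp j k).op (g.toLp 2 volume) = (Sw j k g).toLp 2 volume := by
      refine Lp.ext ?_
      have h2 := (tw_isoOp j k).congr _ _ (g.coeFn_toLp 2 volume)
      filter_upwards [(tw_isoOp j k).op_ae (g.toLp 2 volume), (Sw j k g).coeFn_toLp 2 volume, h2]
        with x e1 e2 e3
      rw [e1, e2, e3, Sw_apply]
    change 𝓕 ((tw_isoOp j k).op (g.toLp 2 volume)) = (fw_isoOp j k).op (𝓕 (g.toLp 2 volume))
    rw [h1, SchwartzMap.toLp_fourier_eq, SchwartzMap.toLp_fourier_eq]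
    refine Lp.ext ?_
    have h2 := (fw_isoOp j k).congr _ _ ((𝓕 g).coeFn_toLp 2 volume)
    filter_upwards [(fw_isoOp j k).op_ae ((𝓕 g).toLp 2 volume),
      (𝓕 (Sw j k g)).coeFn_toLp 2 volume, h2] with x e1 e2 e3
    rw [e1, e2, e3, fourier_Sw]

/-- an orthonormal basis on the time side gives one on the frequency side -/
lemma isW_of_basis (ψ : HH) (b : HilbertBasis (ℤ × ℤ) ℂ HH)
    (hb : ∀ j k : ℤ, ∀ᵐ x : ℝ, b (j, k) x = Tw j k ψ x) : IsW ((𝓕 ψ : HH) : ℝ → ℂ) := by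
  have hbe : ∀ j k : ℤ, b (j, k) = (tw_isoOp j k).op ψ := by
    intro j k
    refine Lp.ext ?_
    filter_upwards [hb j k, (tw_isoOp j k).op_ae ψ] with x e1 e2
    rw [e1, e2]
  have hF : ∀ j k : ℤ, ((𝓕 (b (j, k)) : HH) : ℝ → ℂ) =ᵐ[volume] Fw (𝓕 ψ : HH) j k := by
    intro j k
    rw [hbe, fourier_op]
    exact (fw_isoOp j k).op_ae _
  have hinner : ∀ (j k : ℤ) (g : HH), inner ℂ (𝓕 (b (j, k)) : HH) g =
      ∫ ξ, g ξ * conj (Fw (𝓕 ψ : HH) j k ξ) := by
    intro j k g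
    rw [L2.inner_def]
    refine integral_congr_ae ?_
    filter_upwards [hF j k] with x hx
    rw [RCLike.inner_apply', hx]
    ring
  refine ⟨(Lp.stronglyMeasurable _).measurable, Lp.memLp _, ?_, ?_⟩
  · intro j k j' k'
    have h1 := hinner j' k' (𝓕 (b (j, k)))
    have h2 : ∫ ξ, (𝓕 (b (j, k)) : HH) ξ * conj (Fw (𝓕 ψ : HH) j' k' ξ) =
        ∫ ξ, Fw (𝓕 ψ : HH) j k ξ * conj (Fw (𝓕 ψ : HH) j' k' ξ) := by
      refine integral_congr_ae ?_
      filter_upwards [hF j k] with x hx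
      rw [hx]
    rw [← h2, ← h1, Lp.inner_fourier_eq, orthonormal_iff_ite.1 b.orthonormal]
    by_cases h : j = j' ∧ k = k'
    · obtain ⟨rfl, rfl⟩ := h
      simp
    · rw [if_neg h, if_neg]
      intro h3
      rw [Prod.mk.injEq] at h3
      exact h ⟨h3.1.symm, h3.2.symm⟩
  · intro g hg h
    set G : HH := hg.toLp with hG
    have h1 : ∀ j k : ℤ, inner ℂ (𝓕 (b (j, k)) : HH) G = 0 := by
      intro j k
      rw [hinner, ← h j k]
      refine integral_congr_ae ?_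
      filter_upwards [hg.coeFn_toLp] with x hx
      rw [hx]
    have h2 : G = 𝓕 (𝓕⁻ G) := (fourier_fourierInv_eq G).symm
    have h3 : ∀ p : ℤ × ℤ, inner ℂ (b p) (𝓕⁻ G : HH) = 0 := by
      rintro ⟨j, k⟩
      have := h1 j k
      rw [h2, Lp.inner_fourier_eq] at this
      exact this
    have h4 : (𝓕⁻ G : HH) = 0 := by
      have h5 : b.repr (𝓕⁻ G : HH) = 0 := by
        ext p
        rw [b.repr_apply_apply, h3]
        rfl
      exact b.repr.injective (by rw [h5, map_zero])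
    have h5 : G = 0 := by
      rw [h2, h4]
      exact (Lp.fourierTransformₗᵢ ℝ ℂ).map_zero
    have h6 := hg.coeFn_toLp
    have h7 : ((0 : HH) : ℝ → ℂ) =ᵐ[volume] 0 := Lp.coeFn_zero _ _ _
    rw [← hG, h5] at h6
    exact h6.symm.trans h7

end Pool.Agent.Larson
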